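import Pool.Agent.H.MP_1611f1_gt.TQ.Germ

/-!
The foliation is linear near the ends.
-/

namespace Pool.Agent.H.MP_1611f1_gt.TQ

open Topology Set Filter
open Pool.Agent.H.MP_1611f1_gt.BR.U (Ci cl yt hlf psi cu rmp ang)
open Pool.Agent.H.MP_1611f1_gt.LG (Cylinder solidTorus Drilled)
open Pool.Agent.H.MP_1611f1_gt.TP (Loc Y EE Yr)
open Pool.Agent.H.MP_1611f1_gt.G (Ended MTorus)

variable {S : Type} [TopologicalSpace S] {J I A : Type} [DecidableEq J] [DecidableEq I]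
  [Fintype A] {P : Mul S J I A} {M : Type} [TopologicalSpace M] {T : Ended M (J ⊕ I)}

/-- `phi` is the identity on the collars (`Mt.tor` for the times `t` and `t + 1`, and `Mt.p_eq`) -/
theorem Geo.fix_collar (G : Geo P T) (j : J) (z : Ci × Ioo (1 : ℝ) 2) :
    G.phi (P.E.collar j z) = P.E.collar j z := by
  have h0 := G.Mt.tor j z.1 z.2 0
  have h1 := G.Mt.tor j z.1 z.2 1
  have h2 : ((1 : ℝ) : AddCircle (1 : ℝ)) = ((0 : ℝ) : AddCircle (1 : ℝ)) := by
    rw [AddCircle.coe_period]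
    rfl
  rw [h2] at h1
  have h3 := h0.symm.trans h1
  rw [G.Mt.p_eq] at h3
  obtain ⟨k, hk, hx⟩ := h3
  have hk1 : k = 1 := by
    have h4 : (k : ℝ) = 1 := by linarith
    exact_mod_cast h4
  rw [hk1, zpow_one] at hx
  exact hx.symm

theorem Geo.idn_collar (G : Geo P T) (j : J) (z : Ci × Ioo (1 : ℝ) 2) : Idn G.phi (P.E.collar j z) := by
  filter_upwards [(P.E.emb j).isOpen_range.mem_nhds (mem_range_self z)] with x hx
  obtain ⟨w, rfl⟩ := hx
  exact G.fix_collar j w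

omit [DecidableEq I] [Fintype A] in
/-- the lift of the collar -/
private theorem End_cont1 (P : Mul S J I A) (j : J) :
    Continuous fun w : LS.Plr => ((P.E.collar j ((w.1 : Ci), w.2.1), w.2.2) : S × ℝ) := by
  refine ((P.E.emb j).continuous.comp ?_).prodMk (continuous_snd.comp continuous_snd)
  exact ((AddCircle.continuous_mk' (1 : ℝ)).comp continuous_fst).prodMk
    (continuous_fst.comp continuous_snd)

private theorem End_cont2 :
    Continuous fun z : LS.Plr => ((((z.1 : Ci), (z.2.1 : ℝ) * Real.cos (2 * Real.pi * z.2.2)),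
      (z.2.1 : ℝ) * Real.sin (2 * Real.pi * z.2.2) / 32) : (Ci × ℝ) × ℝ) := by
  have h1 : Continuous fun z : LS.Plr => (z.2.1 : ℝ) :=
    continuous_subtype_val.comp (continuous_fst.comp continuous_snd)
  have h2 : Continuous fun z : LS.Plr => 2 * Real.pi * z.2.2 :=
    continuous_const.mul (continuous_snd.comp continuous_snd)
  have h3 : Continuous fun z : LS.Plr =>
      (z.2.1 : ℝ) * Real.cos (2 * Real.pi * z.2.2) := h1.mul (Real.continuous_cos.comp h2)
  have h4 : Continuous fun z : LS.Plr =>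
      (z.2.1 : ℝ) * Real.sin (2 * Real.pi * z.2.2) / 32 :=
    (h1.mul (Real.continuous_sin.comp h2)).div_const 32
  exact (((AddCircle.continuous_mk' (1 : ℝ)).comp continuous_fst).prodMk h3).prodMk h4

variable [T2Space S] [Finite I] [Finite J] {G : Geo P T} {Q : Par P.cur} {F : Foliation M}
  (hF : Isf G Q F)

include hF in
/-- **the ends `j ∈ J`**: the slope is `sl P Q j` (`germ_idn` at the point `(collar j (z.1, z.2.1), z.2.2)`,
`DD_collar`, `collar_out`; see `TP.lin_old`) -/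
theorem lin_old (j : J) (z : LS.Plr) (hz : (z.2.1 : ℝ) < 4 / 3) (c) (hc : c ∈ F.charts)
    (hs : T.cov (Sum.inl j) z ∈ c.source) :
    OrdEq z (fun w => (c (T.cov (Sum.inl j) w)).2) (fun w => sl P Q j * w.1 + w.2.2) := by
  have hp : ∀ w : LS.Plr, G.p (T.cov (Sum.inl j) w) =
      G.Mt.p (P.E.collar j ((w.1 : Ci), w.2.1), w.2.2) := by
    intro w
    have h1 := G.old j ((w.1 : Ci), w.2.1, (w.2.2 : Ci))
    have h2 := G.Mt.tor j (w.1 : Ci) w.2.1 w.2.2
    exact h1.trans h2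
  obtain ⟨V, hV, hVV⟩ := germ_idn hF hc hs (hp z) (G.idn_collar j _)
    (fun v z' h => absurd h (P.out v z' j _))
  obtain ⟨V', hV', hVV'⟩ := DD_collar P Q j hz
  refine ⟨(fun w : LS.Plr => ((P.E.collar j ((w.1 : Ci), w.2.1), w.2.2) : S × ℝ)) ⁻¹' V ∩ V',
    inter_mem ((End_cont1 P j).continuousAt hV) hV', ?_⟩
  intro w hw w' hw'
  have h1 := hVV _ hw.1 _ hw'.1 _ _ (hp w) (hp w')
  have h2 := hVV' w hw.2 w' hw'.2
  unfold pt at h1
  rw [h2] at h1
  refine h1.trans ?_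
  show _ ↔ sl P Q j * w.1 + w.2.2 < sl P Q j * w'.1 + w'.2.2
  constructor <;> intro h <;> linarith

include hF in
/-- **the ends at the curves `v ∈ I`** (`germ_inn` at the point `((θ, r cos 2πt), r sin 2πt / 32)`, whose absolute
time is `< 1/16`; `TP.plr_mem`, `TP.EE_plr`; see `TP.lin_res`) -/
theorem lin_res (v : I) (z : LS.Plr) (hz : (z.2.1 : ℝ) < 4 / 3) (c) (hc : c ∈ F.charts)
    (hs : T.cov (Sum.inr v) z ∈ c.source) :
    OrdEq z (fun w => (c (T.cov (Sum.inr v) w)).2) (fun w => Q.qq v * w.1 + (Q.lam v - 1) * w.2.2) := by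
  have hp : ∀ w : LS.Plr, G.p (T.cov (Sum.inr v) w) =
      G.Mt.p (P.ν v ((w.1 : Ci), (w.2.1 : ℝ) * Real.cos (2 * Real.pi * w.2.2)),
        (w.2.1 : ℝ) * Real.sin (2 * Real.pi * w.2.2) / 32) := by
    intro w
    exact G.new v (w.1 : Ci) w.2.1 w.2.2
  obtain ⟨V, hV, hVV⟩ := germ_inn hF hc hs v (w := (((z.1 : Ci),
    (z.2.1 : ℝ) * Real.cos (2 * Real.pi * z.2.2)), (z.2.1 : ℝ) * Real.sin (2 * Real.pi * z.2.2) / 32))
    (hp z) (lt_trans (TP.ModC_sin z) (by norm_num)) (TP.plr_mem z)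
  obtain ⟨V', hV', hVV'⟩ := TP.EE_plr (loc P Q v) hz
  refine ⟨(fun z : LS.Plr => ((((z.1 : Ci), (z.2.1 : ℝ) * Real.cos (2 * Real.pi * z.2.2)),
      (z.2.1 : ℝ) * Real.sin (2 * Real.pi * z.2.2) / 32) : (Ci × ℝ) × ℝ)) ⁻¹' V ∩ V',
    inter_mem (End_cont2.continuousAt hV) hV', ?_⟩
  intro w hw w' hw'
  have h1 := hVV _ hw.1 _ hw'.1 (T.cov (Sum.inr v) w) (T.cov (Sum.inr v) w') (hp w) (hp w')
  have h2 := hVV' w hw.2 w' hw'.2
  have h3 : 0 < EE (loc P Q v) (TP.plr w) (TP.plr w') ↔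
      Q.qq v * w.1 + (Q.lam v - 1) * w.2.2 < Q.qq v * w'.1 + (Q.lam v - 1) * w'.2.2 := by
    rw [h2]
    show 0 < Q.qq v * (w'.1 - w.1) + (Q.lam v - 1) * (w'.2.2 - w.2.2) ↔ _
    constructor <;> intro h <;> linarith
  exact h1.trans h3

end Pool.Agent.H.MP_1611f1_gt.TQ
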