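import Pool.Agent.H.MP_1611f1_gt.TQ.Fm

/-!
Charts of the families.
-/

namespace Pool.Agent.H.MP_1611f1_gt.TQ

open Topology Set Filter
open Pool.Agent.H.MP_1611f1_gt.BR.U (Ci cl yt hlf psi cu rmp ang)
open Pool.Agent.H.MP_1611f1_gt.LG (Cylinder solidTorus)
open Pool.Agent.H.MP_1611f1_gt.TP (Loc Y EE Yr)
open Pool.Agent.H.MP_1611f1_gt.G (Ended MTorus)
open Pool.Agent.H.MP_1611f1_gt.TW (Fam Cmp HasChart)

/-- A family whose function is the last coordinate of a chart of a space `W`, composed with a local homeomorphism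
`κ : Z → W`, has charts (compose local inverses). -/
theorem hasChart_of_chart {M W : Type} [TopologicalSpace M] [TopologicalSpace W] (F : Fam M)
    {κ : F.Z → W} (hκ : IsLocalHomeomorph κ) (c : OpenPartialHomeomorph W ((ℝ × ℝ) × ℝ))
    (hD : ∀ w ∈ F.X, F.D w = (c (κ w)).2) {z : F.Z} (hz : z ∈ F.X) (hc : κ z ∈ c.source) :
    HasChart F z := by
  obtain ⟨e, he, heR⟩ := F.loc z
  obtain ⟨e', he', heκ⟩ := hκ z
  let V : Set F.Z := (e.source ∩ e'.source) ∩ (κ ⁻¹' c.source ∩ F.X)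
  have hV : IsOpen V := (e.open_source.inter e'.open_source).inter
    ((c.open_source.preimage hκ.continuous).inter F.opn)
  have hRV : IsOpen (F.R '' V) := F.loc.isOpenMap _ hV
  refine ⟨((e.symm.trans e').trans c).restrOpen (F.R '' V) hRV, V, hV,
    ⟨⟨he, he'⟩, ⟨hc, hz⟩⟩, fun w hw => hw.2.2, ?_, ?_⟩
  · rw [OpenPartialHomeomorph.restrOpen_source]
    apply inter_eq_right.2
    rintro _ ⟨w, hw, rfl⟩
    have h1 : e.symm (F.R w) = w := by
      rw [heR]
      exact e.left_inv hw.1.1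
    rw [OpenPartialHomeomorph.trans_source, OpenPartialHomeomorph.trans_source]
    refine ⟨⟨?_, ?_⟩, ?_⟩
    · rw [heR]
      exact e.map_source hw.1.1
    · show e.symm (F.R w) ∈ e'.source
      rw [h1]
      exact hw.1.2
    · show e' (e.symm (F.R w)) ∈ c.source
      rw [h1, ← heκ]
      exact hw.2.1
  · intro w hw
    have h1 : e.symm (F.R w) = w := by
      rw [heR]
      exact e.left_inv hw.1.1
    show (c (e' (e.symm (F.R w)))).2 = F.D w
    rw [h1, ← heκ, hD w hw.2.2]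

theorem pt_loc {S : Type} [TopologicalSpace S] : IsLocalHomeomorph (pt : S × ℝ → S × Ci) :=
  BR.U.NCov_prodMap (Homeomorph.refl S).isLocalHomeomorph BR.U.NCov_coe_loc

variable {S : Type} [TopologicalSpace S] {J I A : Type} [DecidableEq J] [DecidableEq I]
  [Fintype A] (P : Mul S J I A) (Q : Par P.cur) [T2Space S] [Finite I] [Finite J]
  {M₀ : Type} [TopologicalSpace M₀] {T₀ : Ended M₀ J} {phi : S ≃ₜ S} (Mt : MTorus P.E phi T₀)

omit [T2Space S] [Finite I] [Finite J] in
private theorem FmH_fC (i j : Option I) (w : S × ℝ) : fC P Q phi i j w =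
    sg P Q i w.1 * min (w.2 - 1 / 2) 0 + sg P Q j (phi w.1) * max (w.2 - 1 / 2) 0 := by
  unfold fC
  by_cases h : w.2 ≤ 1 / 2
  · rw [if_pos h, min_eq_left (by linarith), max_eq_right (by linarith)]
    ring
  · rw [if_neg h, min_eq_right (by linarith), max_eq_left (by linarith)]
    ring

omit [Finite J] in
theorem fC_cont (i j : Option I) : ContinuousOn (fC P Q phi i j) {w | w.1 ∈ dom P i ∧ phi w.1 ∈ dom P j} := by
  have h1 : ContinuousOn (fun w : S × ℝ => sg P Q i w.1)
      {w | w.1 ∈ dom P i ∧ phi w.1 ∈ dom P j} :=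
    (sg_cont P Q i).comp continuous_fst.continuousOn fun w hw => hw.1
  have h2 : ContinuousOn (fun w : S × ℝ => sg P Q j (phi w.1))
      {w | w.1 ∈ dom P i ∧ phi w.1 ∈ dom P j} :=
    (sg_cont P Q j).comp (phi.continuous.comp continuous_fst).continuousOn fun w hw => hw.2
  have h3 : Continuous fun w : S × ℝ => min (w.2 - 1 / 2) 0 := by fun_prop
  have h4 : Continuous fun w : S × ℝ => max (w.2 - 1 / 2) 0 := by fun_prop
  refine ((h1.mul h3.continuousOn).add (h2.mul h4.continuousOn)).congr fun w _ => ?_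
  exact FmH_fC P Q i j w

omit [T2Space S] [Finite I] [Finite J] in
theorem fC_mono (i j : Option I) (x : S) : StrictMono fun t => fC P Q phi i j (x, t) := by
  intro t t' htt
  have ha := sg_pos P Q i x
  have hb := sg_pos P Q j (phi x)
  show fC P Q phi i j (x, t) < fC P Q phi i j (x, t')
  unfold fC
  show (if t ≤ 1 / 2 then sg P Q i x * (t - 1 / 2) else sg P Q j (phi x) * (t - 1 / 2)) <
    if t' ≤ 1 / 2 then sg P Q i x * (t' - 1 / 2) else sg P Q j (phi x) * (t' - 1 / 2)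
  by_cases h : t ≤ 1 / 2
  · by_cases h' : t' ≤ 1 / 2
    · rw [if_pos h, if_pos h']
      exact mul_lt_mul_of_pos_left (by linarith) ha
    · rw [if_pos h, if_neg h']
      have h1 : sg P Q i x * (t - 1 / 2) ≤ 0 :=
        mul_nonpos_of_nonneg_of_nonpos ha.le (by linarith)
      have h2 : 0 < sg P Q j (phi x) * (t' - 1 / 2) := mul_pos hb (by linarith)
      linarith
  · have h' : ¬ t' ≤ 1 / 2 := fun h'' => h (by linarith)
    rw [if_neg h, if_neg h']
    exact mul_lt_mul_of_pos_left (by linarith) hb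

/-- (`hasChart_of_chart`; for the family `C`: `TW.hasChart_of_mono`, `TW.exists_zeta_t`, `P.E.flat`) -/
theorem fam_chart (k : (AdCh P Q ⊕ AdCh P Q) ⊕ (Option I × Option I)) (z : (fam P Q Mt k).Z)
    (hz : z ∈ (fam P Q Mt k).X) : HasChart (fam P Q Mt k) z := by
  rcases k with (c | c) | ⟨i, j⟩
  · exact hasChart_of_chart (fam P Q Mt (Sum.inl (Sum.inl c))) (κ := pt) pt_loc c.1
      (fun w _ => rfl) hz hz.2
  · exact hasChart_of_chart (fam P Q Mt (Sum.inl (Sum.inr c))) (κ := pt) pt_loc c.1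
      (fun w _ => rfl) hz hz.2.2
  · obtain ⟨ξ, hξ⟩ := P.E.flat (show S × ℝ from z).1
    obtain ⟨ζ, hζs, hζ⟩ := TW.exists_zeta_t ξ 1 (Or.inl rfl)
    have hN : IsOpen {w : S × ℝ | w.1 ∈ dom P i ∧ phi w.1 ∈ dom P j} :=
      ((dom_open P i).preimage continuous_fst).inter
        ((dom_open P j).preimage (phi.continuous.comp continuous_fst))
    have hz' : (show S × ℝ from z) ∈ XC P phi i j := hz
    refine TW.hasChart_of_mono (fam P Q Mt (Sum.inr (i, j))) hz ζ ?_ hN ?_ (fC_cont P Q i j) ?_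
    · rw [hζs]
      exact ⟨hξ, mem_univ _⟩
    · exact ⟨hz'.2.2.2.1, hz'.2.2.2.2⟩
    · rintro ⟨x, t⟩ _ ⟨x', t'⟩ _ hw hw' h1 h2
      rw [hζs] at hw hw'
      have e1 : ζ (x, t) = (ξ x, 1 * t) := hζ (x, t)
      have e2 : ζ (x', t') = (ξ x', 1 * t') := hζ (x', t')
      replace h1 : (ζ (x, t)).1 = (ζ (x', t')).1 := h1
      replace h2 : (ζ (x, t)).2 < (ζ (x', t')).2 := h2
      rw [e1, e2] at h1 h2
      have h3 : x = x' := ξ.injOn hw.1 hw'.1 h1
      subst h3
      refine fC_mono P Q i j x ?_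
      have h4 : (1 : ℝ) * t < 1 * t' := h2
      linarith

end Pool.Agent.H.MP_1611f1_gt.TQ
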