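import Pool.Agent.H.MP_1611f1_gt.TQ.FmC
import Pool.Agent.H.MP_1611f1_gt.TQ.FmH
import Pool.Agent.H.MP_1611f1_gt.LG.Defs
import Pool.Agent.H.MP_1611f1_gt.LS.UpE

/-!
The foliation of the manifold.
-/

namespace Pool.Agent.H.MP_1611f1_gt.TQ

open Topology Set Filter
open Pool.Agent.H.MP_1611f1_gt.BR.U (Ci cl yt hlf psi cu rmp ang)
open Pool.Agent.H.MP_1611f1_gt.LG (Cylinder solidTorus Drilled)
open Pool.Agent.H.MP_1611f1_gt.TP (Loc Y EE Yr)
open Pool.Agent.H.MP_1611f1_gt.G (Ended MTorus)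
open Pool.Agent.H.MP_1611f1_gt.TW (Fam Cmp HasChart)

/-- The manifold: `M` is the mapping torus of `phi` minus the tubes around the curves `v ∈ I` at the time `0`; `phi` is
the identity near all points which are not flat. The ends are `J` (those of `S`) and `I`. -/
structure Geo {S : Type} [TopologicalSpace S] {J I A : Type} [DecidableEq J] (P : Mul S J I A)
    {M : Type} [TopologicalSpace M] (T : Ended M (J ⊕ I)) where
  phi : S ≃ₜ S
  idn : ∀ x, Idn phi x ∨ Flat P x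
  M₀ : Type
  top : TopologicalSpace M₀
  T₀ : Ended M₀ J
  Mt : MTorus P.E phi T₀
  p : M → M₀
  emb : IsOpenEmbedding p
  range_iff : ∀ y, y ∈ range p ↔
    ∀ v, y ∉ (fun z : Cylinder => Mt.p (P.ν v (z.1, z.2.1), (z.2.2 + 4) / 32)) '' solidTorus
  old : ∀ j w, p (T.tor (Sum.inl j) w) = T₀.tor j w
  new : ∀ v (θ : Ci) (r : Ioo (1 : ℝ) 2) (t : ℝ), p (T.tor (Sum.inr v) (θ, r, (t : Ci))) =
    Mt.p (P.ν v (θ, (r : ℝ) * Real.cos (2 * Real.pi * t)), (r : ℝ) * Real.sin (2 * Real.pi * t) / 32)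

attribute [instance] Geo.top

variable {S : Type} [TopologicalSpace S] {J I A : Type} [DecidableEq J] [DecidableEq I]
  [Fintype A] {P : Mul S J I A} {M : Type} [TopologicalSpace M] {T : Ended M (J ⊕ I)}

/-- `F` is the foliation of the families: at every point of the domain of a family the charts have the order of its
function -/
def Isf [T2Space S] [Finite I] [Finite J] (G : Geo P T) (Q : Par P.cur) (F : Foliation M) : Prop :=
  ∀ c ∈ F.charts, ∀ k, ∀ z ∈ (fam P Q G.Mt k).X, ∀ m ∈ c.source, G.p m = (fam P Q G.Mt k).R z →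
    ∃ V ∈ 𝓝 z, ∀ w ∈ V, ∀ w' ∈ V, ∀ n n' : M, G.p n = (fam P Q G.Mt k).R w →
      G.p n' = (fam P Q G.Mt k).R w' →
      ((c n).2 < (c n').2 ↔ (fam P Q G.Mt k).D w < (fam P Q G.Mt k).D w')

variable [T2Space S] [Finite I] [Finite J] (G : Geo P T) (Q : Par P.cur)

omit [DecidableEq I] [Fintype A] [T2Space S] [Finite I] [Finite J] in
/-- a point outside of the tubes, at a time between `-1/2` and `1/2`, is in the region of the foliation -/
theorem Fin_Xd (m : M) (x : S) (t : ℝ) (ht : -1 / 2 < t) (ht' : t ≤ 1 / 2) (hm : G.Mt.p (x, t) = G.p m) :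
    pt (x, t) ∈ Xd P := by
  by_cases hX : pt (x, t) ∈ Xo P
  · exact Or.inl hX
  · have h1 : ∃ v z, P.ν v z = x ∧ |z.2| ≤ 2 := by
      by_contra hc
      push Not at hc
      exact hX fun v z hz => hc v z hz
    obtain ⟨v, z, hz, hz2⟩ := h1
    refine Or.inr ⟨v, (z, (t : Ci)), ⟨?_, ?_⟩, ?_⟩
    · show |z.2| < 12
      linarith
    · show 1 / 1024 < (z.2 / 32) ^ 2 + cl (t : Ci) ^ 2
      rcases ht'.lt_or_eq with h2 | h2
      · rw [BR.U.cl_coe ⟨ht.le, h2⟩]
        by_contra hc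
        rw [not_lt] at hc
        refine (G.range_iff (G.p m)).1 ⟨m, rfl⟩ v ⟨(z.1, (z.2, 32 * t - 4)), ?_, ?_⟩
        · show z.2 ^ 2 + (32 * t - 4 + 4) ^ 2 ≤ 1
          have h3 : z.2 ^ 2 + (32 * t - 4 + 4) ^ 2 = 1024 * ((z.2 / 32) ^ 2 + t ^ 2) := by ring
          rw [h3]
          linarith
        · show G.Mt.p (P.ν v (z.1, z.2), (32 * t - 4 + 4) / 32) = G.p m
          have h3 : (32 * t - 4 + 4) / 32 = t := by ring
          have h4 : P.ν v (z.1, z.2) = x := hz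
          rw [h3, h4, hm]
      · have h3 : cl (t : Ci) = -1 / 2 := by
          have h4 : (t : Ci) = ((-1 / 2 : ℝ) : Ci) := by
            have h5 : ((1 : ℝ) : Ci) = 0 := by
              have h6 := (AddCircle.coe_eq_zero_iff (1 : ℝ) (x := (1 : ℝ))).2 ⟨1, by norm_num⟩
              exact h6
            have h6 : t = -1 / 2 + 1 := by rw [h2]; norm_num
            rw [h6, AddCircle.coe_add, h5, add_zero]
          rw [h4, BR.U.cl_coe ⟨le_rfl, by norm_num⟩]
        rw [h3]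
        nlinarith [sq_nonneg (z.2 / 32)]
    · show (P.ν v z, (t : Ci)) = pt (x, t)
      rw [hz]
      rfl

/-- a chart at a point of the region -/
theorem Fin_chart (y : S × Ci) (hy : y ∈ Xd P) : ∃ c ∈ AdCh P Q, y ∈ c.source := by
  rcases hy with h | ⟨v, z, hz, rfl⟩
  · exact fol_out P Q h
  · exact fol_inn P Q v hz

/-- every point of `M` is in a family (write it as `Mt.p (x, t)` with `-1/2 < t ≤ 1/2`; for `t < 1/2` the point
`(x, t)` of `S × S¹` is outside of the tubes, so it is in `Xd` and there is a chart by `fol_out`, `fol_inn`; for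
`t = 1/2`: family `B` if `Idn phi x`; otherwise `x` is flat, `phi x` is flat (if `Idn phi (phi x)` then `phi x = x`,
and `Idn phi x`), `dom_cover`) -/
theorem Geo.cover (m : M) : ∃ k, ∃ z ∈ (fam P Q G.Mt k).X, (fam P Q G.Mt k).R z = G.p m := by
  obtain ⟨⟨x0, t0⟩, hm0⟩ := G.Mt.p_surj (G.p m)
  -- a representative with time in `(-1/2, 1/2]`
  obtain ⟨x, t, ht, ht', hm⟩ : ∃ x t, -1 / 2 < t ∧ t ≤ 1 / 2 ∧ G.Mt.p (x, t) = G.p m := by
    set k : ℤ := ⌈t0 - 1 / 2⌉ with hk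
    have h1 : t0 - 1 / 2 ≤ (k : ℝ) := Int.le_ceil _
    have h2 : (k : ℝ) < t0 - 1 / 2 + 1 := Int.ceil_lt_add_one _
    refine ⟨(G.phi ^ k) x0, t0 - k, by linarith, by linarith, ?_⟩
    rw [← hm0]
    refine (G.Mt.p_eq _ _ _ _).2 ⟨k, by ring, rfl⟩
  have hXd := Fin_Xd G m x t ht ht' hm
  obtain ⟨c, hc, hyc⟩ := Fin_chart (P := P) Q _ hXd
  rcases ht'.lt_or_eq with h2 | h2
  · refine ⟨Sum.inl (Sum.inl ⟨c, hc⟩), (x, t), ⟨?_, hyc⟩, hm⟩
    show |t| < 1 / 2
    rw [abs_lt]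
    constructor <;> linarith
  · by_cases hid : Idn G.phi x
    · refine ⟨Sum.inl (Sum.inr ⟨c, hc⟩), (x, t), ⟨⟨?_, ?_⟩, hid, hyc⟩, hm⟩
      · show 0 < t
        linarith
      · show t < 1
        linarith
    · have hf : Flat P x := (G.idn x).resolve_left hid
      have hf' : Flat P (G.phi x) := by
        refine (G.idn (G.phi x)).resolve_left fun h3 => hid ?_
        have h4 : G.phi (G.phi x) = G.phi x := h3.self_of_nhds
        have h5 : G.phi x = x := G.phi.injective h4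
        rw [h5] at h3
        exact h3
      obtain ⟨i, hi⟩ := dom_cover P x
      obtain ⟨j, hj⟩ := dom_cover P (G.phi x)
      refine ⟨Sum.inr (i, j), (x, t), ⟨?_, hf, hf', hi, hj⟩, hm⟩
      show |t - 1 / 2| < 1 / 4
      rw [h2, sub_self, abs_zero]
      norm_num

/-- **Existence** (`TW.exists_pre` with `fam_cmp`, `fam_chart`; `LS.exists_pull`; see `TP.F_out`) -/
theorem exists_Isf : ∃ F : Foliation M, Isf G Q F := by
  obtain ⟨P0, hdom, hord⟩ := TW.exists_pre (fam P Q G.Mt) (fam_cmp P Q G.Mt)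
    (fun k z hz => fam_chart P Q G.Mt k z hz)
  have hd : ∀ m, G.p m ∈ P0.dom := by
    intro m
    rw [hdom, mem_iUnion]
    obtain ⟨k, z, hz, hzm⟩ := Geo.cover G Q m
    exact ⟨k, z, hz, hzm⟩
  obtain ⟨F, hF⟩ := LS.exists_pull G.emb P0 hd
  refine ⟨F, ?_⟩
  intro c hc k z hz m hm hmz
  rw [hF] at hc
  obtain ⟨c0, hc0, hs, hv⟩ := hc
  have hz0 : (fam P Q G.Mt k).R z ∈ c0.source := by
    rw [← hmz]
    have := hm
    rw [hs] at this
    exact this
  obtain ⟨V, hV, h3⟩ := hord c0 hc0 k z hz hz0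
  have hV1 : (fam P Q G.Mt k).R ⁻¹' c0.source ∈ 𝓝 z :=
    (fam P Q G.Mt k).loc.continuous.continuousAt (c0.open_source.mem_nhds hz0)
  have key : ∀ w ∈ (fam P Q G.Mt k).R ⁻¹' c0.source, ∀ n : M, G.p n = (fam P Q G.Mt k).R w →
      (c n).2 = (c0 ((fam P Q G.Mt k).R w)).2 := by
    intro w hw n hn
    have h4 : n ∈ c.source := by
      rw [hs, mem_preimage, hn]
      exact hw
    rw [hv n h4, hn]
  refine ⟨V ∩ (fam P Q G.Mt k).R ⁻¹' c0.source, inter_mem hV hV1,
    fun w hw w' hw' n n' hn hn' => ?_⟩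
  rw [key w hw.2 n hn, key w' hw'.2 n' hn']
  exact h3 w hw.1 w' hw'.1

end Pool.Agent.H.MP_1611f1_gt.TQ
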