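import Pool.Agent.H.MP_1611f1_gt.TQ.Mul

/-!
The choice of the parameters in the mixed case.
-/

namespace Pool.Agent.H.MP_1611f1_gt.TQ

open Topology Set Filter

/-- the function `ρ (l - 1) ^ 2 / l` takes all positive values on `l > 1`, and on `0 < l < 1` -/
theorem Sel2_lam {ρ κ : ℝ} (hρ : 0 < ρ) (hκ : 0 < κ) (e : ℝ) (he : e = 1 ∨ e = -1) :
    ∃ l : ℝ, 0 < l ∧ 0 < e * (l - 1) ∧ ρ * (l - 1) ^ 2 / l = κ := by
  set s : ℝ := √(κ ^ 2 + 4 * ρ * κ) with hs
  have hρκ : 0 < ρ * κ := mul_pos hρ hκ
  have h1 : s ^ 2 = κ ^ 2 + 4 * ρ * κ := Real.sq_sqrt (by nlinarith)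
  have h0 : 0 ≤ s := Real.sqrt_nonneg _
  have h2 : κ < s := by
    by_contra h
    rw [not_lt] at h
    have := pow_le_pow_left₀ h0 h 2
    nlinarith
  have h3 : s < 2 * ρ + κ := by
    by_contra h
    rw [not_lt] at h
    have := pow_le_pow_left₀ (by linarith : 0 ≤ 2 * ρ + κ) h 2
    nlinarith
  have he2 : e ^ 2 = 1 := by
    rcases he with rfl | rfl <;> norm_num
  have hl : 0 < (2 * ρ + κ + e * s) / (2 * ρ) := by
    refine div_pos ?_ (by linarith)
    rcases he with rfl | rfl <;> linarith
  have hm : (2 * ρ + κ + e * s) / (2 * ρ) - 1 = (κ + e * s) / (2 * ρ) := by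
    field_simp
    ring
  refine ⟨(2 * ρ + κ + e * s) / (2 * ρ), hl, ?_, ?_⟩
  · rw [hm, ← mul_div_assoc]
    refine div_pos ?_ (by linarith)
    rcases he with rfl | rfl <;> linarith
  · rw [div_eq_iff hl.ne', hm]
    have h4 : (κ + e * s) ^ 2 = 2 * κ * (2 * ρ + κ + e * s) := by
      have : (κ + e * s) ^ 2 = κ ^ 2 + 2 * κ * (e * s) + e ^ 2 * s ^ 2 := by ring
      rw [this, he2, h1]
      ring
    rw [div_pow, h4]
    field_simp

/-- For a curve with the covector `(X, Y)` and a positive number `κ`: `q = c X`, `l = 1 + c Y` with `c > 0`, `l > 0`, and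
`q (1 - 1 / l)` is `κ` if `X Y > 0`, `-κ` if `X Y < 0` (`Sel2_lam` with `ρ = |X / Y|`, `e` = the sign of `Y`). -/
theorem Sel2_one {X Y κ : ℝ} (hX : X ≠ 0) (hY : Y ≠ 0) (hκ : 0 < κ) :
    ∃ c l : ℝ, 0 < c ∧ 0 < l ∧ c * Y = l - 1 ∧ c * X * (1 - 1 / l) = (if 0 < X * Y then κ else -κ) := by
  have key : ∀ e : ℝ, (e = 1 ∨ e = -1) → 0 < e * Y → ∃ c l : ℝ, 0 < c ∧ 0 < l ∧ c * Y = l - 1 ∧
      c * X * (1 - 1 / l) = (if 0 < X * Y then κ else -κ) := by
    intro e he heY
    have hρ : 0 < |X / Y| := abs_pos.2 (div_ne_zero hX hY)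
    obtain ⟨l, hl, hel, hlκ⟩ := Sel2_lam hρ hκ e he
    have he2 : e ^ 2 = 1 := by
      rcases he with rfl | rfl <;> norm_num
    have hc : 0 < (l - 1) / Y := by
      have h1 : (l - 1) / Y = e * (l - 1) / (e * Y) := by
        have : e ≠ 0 := by rcases he with rfl | rfl <;> norm_num
        field_simp
      rw [h1]
      exact div_pos hel heY
    refine ⟨(l - 1) / Y, l, hc, hl, div_mul_cancel₀ _ hY, ?_⟩
    have h2 : (l - 1) / Y * X * (1 - 1 / l) = X / Y * (l - 1) ^ 2 / l := by
      field_simp
    rw [h2]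
    split_ifs with h3
    · have h4 : 0 < X / Y := by
        have : X / Y = X * Y / Y ^ 2 := by
          field_simp
        rw [this]
        exact div_pos h3 (by positivity)
      rw [abs_of_pos h4] at hlκ
      exact hlκ
    · have h4 : X / Y < 0 := by
        have h5 : X * Y < 0 := lt_of_le_of_ne (not_lt.1 h3) (mul_ne_zero hX hY)
        have : X / Y = X * Y / Y ^ 2 := by
          field_simp
        rw [this]
        exact div_neg_of_neg_of_pos h5 (by positivity)
      rw [abs_of_neg h4] at hlκ
      rw [← hlκ]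
      ring
  rcases lt_or_gt_of_ne hY with h | h
  · exact key (-1) (Or.inr rfl) (by linarith)
  · exact key 1 (Or.inl rfl) (by linarith)

variable {S : Type*} [TopologicalSpace S] {J I A : Type*} [DecidableEq J] [DecidableEq I]
  [Fintype A]

private theorem Sel2_sum [Fintype J] [DecidableEq A] (g : J → A) (w : J → ℝ) (F : A → ℝ) :
    ∑ a, (∑ j, if g j = a then w j else 0) * F a = ∑ j, w j * F (g j) := by
  simp only [Finset.sum_mul, ite_mul, zero_mul]
  rw [Finset.sum_comm]
  refine Finset.sum_congr rfl fun j _ => ?_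
  rw [Finset.sum_ite_eq Finset.univ (g j) (fun a => w j * F a), if_pos (Finset.mem_univ _)]

/-- **The choice in the mixed case.** For every end `j` there are a strip `up j` from `j` to `j` which crosses a curve
with `X Y > 0`, and a strip `dn j` from `j` to `j` which crosses a curve with `X Y < 0`. Every curve is crossed by a strip.
Then all slopes `σ j` are possible. Proof: call a curve `v` busy if `v = cur (up j)` or `v = cur (dn j)` for some `j`. Choose for every
other curve `v` one strip `a_v` through it, `c = 1 / (2 (1 + |Y v|))`, `l = 1 + c Y v > 0`, `q (a_v) = c X v`, and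
let `τ j` be the contribution of these strips to `sl j`. Choose `p j, n j > 0` with `p j - n j = σ j - τ j`. For a
busy curve `v` with `X v * Y v > 0` let `κ` be the sum of the `p j` over the `j` with `cur (up j) = v`, take `c, l` from
`Sel2_one`, and `q (up j) = p j / (1 - 1 / l)` (all with the sign of `X v`; their sum is `κ / (1 - 1 / l) = c X v`);
in the same way with `n j`, `dn j` if `X v * Y v < 0`: `q (dn j) = - n j / (1 - 1 / l)`. All other strips have `q = 0`. (`up j` and
`up j'` are distinct for `j ≠ j'`, because of their ends.) -/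
theorem exists_par_mixed [Finite I] [Fintype J] (P : Mul S J I A) (X Y : I → ℝ) (hX : ∀ v, X v ≠ 0) (hY : ∀ v, Y v ≠ 0)
    (hc : ∀ v, ∃ a, P.cur a = v) (up dn : J → A)
    (h1 : ∀ j, P.tl (up j) = j ∧ P.hd (up j) = j ∧ 0 < X (P.cur (up j)) * Y (P.cur (up j)))
    (h2 : ∀ j, P.tl (dn j) = j ∧ P.hd (dn j) = j ∧ X (P.cur (dn j)) * Y (P.cur (dn j)) < 0) (σ : J → ℝ) :
    ∃ Q : Par P.cur, (∀ j, sl P Q j = σ j) ∧
      ∀ v, ∃ c : ℝ, 0 < c ∧ c * X v = Q.qq v ∧ c * Y v = Q.lam v - 1 := by
  classical
  choose av hav using hc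
  set busy : I → Prop := fun v => (∃ j, P.cur (up j) = v) ∨ (∃ j, P.cur (dn j) = v) with hbusy
  -- the curves which are not busy
  have hc₀ : ∀ v, ∃ c l : ℝ, 0 < c ∧ 0 < l ∧ c * Y v = l - 1 := by
    intro v
    have h3 : 0 ≤ |Y v| := abs_nonneg _
    have h4 : 0 < 2 * (1 + |Y v|) := by linarith
    refine ⟨1 / (2 * (1 + |Y v|)), 1 + 1 / (2 * (1 + |Y v|)) * Y v, by positivity, ?_, by ring⟩
    have h5 := neg_abs_le (Y v)
    have h6 : 1 + 1 / (2 * (1 + |Y v|)) * Y v = (2 * (1 + |Y v|) + Y v) / (2 * (1 + |Y v|)) := by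
      field_simp
    rw [h6]
    exact div_pos (by linarith) h4
  choose c₀ l₀ hc₀ hl₀ hcl₀ using hc₀
  set q₀ : A → ℝ := fun a => if ¬ busy (P.cur a) ∧ a = av (P.cur a) then
    c₀ (P.cur a) * X (P.cur a) else 0 with hq₀
  set τ : J → ℝ := fun j => ∑ a, q₀ a * ((if P.tl a = j then 1 else 0) -
    (if P.hd a = j then 1 else 0) / l₀ (P.cur a)) with hτ
  set p : J → ℝ := fun j => max (σ j - τ j) 0 + 1 with hp
  set n : J → ℝ := fun j => max (-(σ j - τ j)) 0 + 1 with hn
  have p0 : ∀ j, 0 < p j := fun j => by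
    have := le_max_right (σ j - τ j) 0
    show 0 < max (σ j - τ j) 0 + 1
    linarith
  have n0 : ∀ j, 0 < n j := fun j => by
    have := le_max_right (-(σ j - τ j)) 0
    show 0 < max (-(σ j - τ j)) 0 + 1
    linarith
  have hpn : ∀ j, p j - n j = σ j - τ j := fun j => by
    show max (σ j - τ j) 0 + 1 - (max (-(σ j - τ j)) 0 + 1) = σ j - τ j
    have := max_zero_sub_max_neg_zero_eq_self (σ j - τ j)
    linarith
  -- the busy curves
  set κ : I → ℝ := fun v => (∑ j, if P.cur (up j) = v then p j else 0) -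
    ∑ j, if P.cur (dn j) = v then n j else 0 with hκ
  have κup : ∀ j, 0 < κ (P.cur (up j)) := by
    intro j
    have e1 : (∑ j', if P.cur (dn j') = P.cur (up j) then n j' else 0) = 0 := by
      refine Finset.sum_eq_zero fun j' _ => if_neg fun h => ?_
      have := (h2 j').2.2
      rw [h] at this
      exact lt_asymm this (h1 j).2.2
    have e2 : 0 < ∑ j', if P.cur (up j') = P.cur (up j) then p j' else 0 := by
      refine Finset.sum_pos' (fun j' _ => ?_) ⟨j, Finset.mem_univ _, ?_⟩
      · split_ifs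
        · exact (p0 j').le
        · exact le_rfl
      · rw [if_pos rfl]
        exact p0 j
    show 0 < (∑ j', if P.cur (up j') = P.cur (up j) then p j' else 0) -
      ∑ j', if P.cur (dn j') = P.cur (up j) then n j' else 0
    rw [e1, sub_zero]
    exact e2
  have κdn : ∀ j, κ (P.cur (dn j)) < 0 := by
    intro j
    have e1 : (∑ j', if P.cur (up j') = P.cur (dn j) then p j' else 0) = 0 := by
      refine Finset.sum_eq_zero fun j' _ => if_neg fun h => ?_
      have := (h1 j').2.2
      rw [h] at this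
      exact lt_asymm this (h2 j).2.2
    have e2 : 0 < ∑ j', if P.cur (dn j') = P.cur (dn j) then n j' else 0 := by
      refine Finset.sum_pos' (fun j' _ => ?_) ⟨j, Finset.mem_univ _, ?_⟩
      · split_ifs
        · exact (n0 j').le
        · exact le_rfl
      · rw [if_pos rfl]
        exact n0 j
    show (∑ j', if P.cur (up j') = P.cur (dn j) then p j' else 0) -
      (∑ j', if P.cur (dn j') = P.cur (dn j) then n j' else 0) < 0
    rw [e1, zero_sub]
    linarith
  have hc₁ : ∀ v, ∃ c l : ℝ, 0 < c ∧ 0 < l ∧ c * Y v = l - 1 ∧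
      (busy v → c * X v * (1 - 1 / l) = κ v) ∧ (¬ busy v → c = c₀ v ∧ l = l₀ v) := by
    intro v
    by_cases hb : busy v
    · have hκ0 : 0 < |κ v| := by
        rw [abs_pos]
        rcases hb with ⟨j, rfl⟩ | ⟨j, rfl⟩
        · exact (κup j).ne'
        · exact (κdn j).ne
      obtain ⟨c, l, h3, h4, h5, h6⟩ := Sel2_one (hX v) (hY v) hκ0
      refine ⟨c, l, h3, h4, h5, fun _ => ?_, fun h => absurd hb h⟩
      rw [h6]
      rcases hb with ⟨j, rfl⟩ | ⟨j, rfl⟩
      · rw [if_pos (h1 j).2.2, abs_of_pos (κup j)]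
      · rw [if_neg (h2 j).2.2.not_gt, abs_of_neg (κdn j), neg_neg]
    · exact ⟨c₀ v, l₀ v, hc₀ v, hl₀ v, hcl₀ v, fun h => absurd h hb, fun _ => ⟨rfl, rfl⟩⟩
  choose c l hc hl hcl hbus hnb using hc₁
  have hD : ∀ v, 1 - 1 / l v ≠ 0 := by
    intro v h
    have h3 : l v = 1 := by
      have h4 := (hl v).ne'
      field_simp at h
      linarith
    have h5 := hcl v
    rw [h3, sub_self] at h5
    exact mul_ne_zero (hc v).ne' (hY v) h5
  set D : I → ℝ := fun v => 1 - 1 / l v with hDd
  set qp : A → ℝ := fun a => ∑ j, if up j = a then p j / D (P.cur (up j)) else 0 with hqp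
  set qn : A → ℝ := fun a => ∑ j, if dn j = a then n j / D (P.cur (dn j)) else 0 with hqn
  -- the sign of the coefficients
  have hXD : ∀ v, busy v → 0 < κ v * (X v / D v) := by
    intro v hb
    have h3 : κ v * (X v / D v) = c v * (X v) ^ 2 := by
      rw [← hbus v hb]
      have := hD v
      show c v * X v * (1 - 1 / l v) * (X v / (1 - 1 / l v)) = c v * X v ^ 2
      rw [mul_assoc, mul_div_cancel₀ _ this]
      ring
    rw [h3]
    have := hX v
    have := hc v
    positivity
  have s0 : ∀ a, 0 ≤ q₀ a * X (P.cur a) := by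
    intro a
    show 0 ≤ (if ¬ busy (P.cur a) ∧ a = av (P.cur a) then
      c₀ (P.cur a) * X (P.cur a) else 0) * X (P.cur a)
    split_ifs
    · have := hc₀ (P.cur a)
      have h3 : c₀ (P.cur a) * X (P.cur a) * X (P.cur a) = c₀ (P.cur a) * X (P.cur a) ^ 2 := by ring
      rw [h3]
      positivity
    · rw [zero_mul]
  have sp : ∀ a, 0 ≤ qp a * X (P.cur a) := by
    intro a
    show 0 ≤ (∑ j, if up j = a then p j / D (P.cur (up j)) else 0) * X (P.cur a)
    rw [Finset.sum_mul]
    refine Finset.sum_nonneg fun j _ => ?_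
    split_ifs with h
    · subst h
      have h3 := hXD _ (Or.inl ⟨j, rfl⟩)
      have h4 : 0 < X (P.cur (up j)) / D (P.cur (up j)) := (pos_iff_pos_of_mul_pos h3).1 (κup j)
      have h5 : p j / D (P.cur (up j)) * X (P.cur (up j)) =
          p j * (X (P.cur (up j)) / D (P.cur (up j))) := by ring
      rw [h5]
      exact (mul_pos (p0 j) h4).le
    · rw [zero_mul]
  have sn : ∀ a, 0 ≤ - qn a * X (P.cur a) := by
    intro a
    show 0 ≤ -(∑ j, if dn j = a then n j / D (P.cur (dn j)) else 0) * X (P.cur a)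
    rw [neg_mul, Finset.sum_mul, ← Finset.sum_neg_distrib]
    refine Finset.sum_nonneg fun j _ => ?_
    split_ifs with h
    · subst h
      have h3 := hXD _ (Or.inr ⟨j, rfl⟩)
      have h4 : X (P.cur (dn j)) / D (P.cur (dn j)) < 0 := by
        by_contra h5
        rw [not_lt] at h5
        exact absurd h3 (not_lt.2 (mul_nonpos_of_nonpos_of_nonneg (κdn j).le h5))
      have h5 : -(n j / D (P.cur (dn j)) * X (P.cur (dn j))) =
          n j * (-(X (P.cur (dn j)) / D (P.cur (dn j)))) := by ring
      rw [h5]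
      exact (mul_pos (n0 j) (neg_pos.2 h4)).le
    · rw [zero_mul, neg_zero]
  -- the sums
  have hq1 : ∀ v, (∑ a, if P.cur a = v then q₀ a + qp a - qn a else 0) = c v * X v := by
    intro v
    have e1 : (∑ a, if P.cur a = v then q₀ a + qp a - qn a else 0) =
        (∑ a, if P.cur a = v then q₀ a else 0) + (∑ a, qp a * (if P.cur a = v then 1 else 0)) -
          ∑ a, qn a * (if P.cur a = v then 1 else 0) := by
      rw [← Finset.sum_add_distrib, ← Finset.sum_sub_distrib]
      refine Finset.sum_congr rfl fun a _ => ?_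
      split_ifs <;> ring
    have e2 : (∑ a, qp a * (if P.cur a = v then 1 else 0)) =
        (∑ j, if P.cur (up j) = v then p j else 0) / D v := by
      rw [Sel2_sum up (fun j => p j / D (P.cur (up j))) (fun a => if P.cur a = v then 1 else 0),
        Finset.sum_div]
      refine Finset.sum_congr rfl fun j _ => ?_
      split_ifs with h
      · rw [h, mul_one]
      · rw [mul_zero, zero_div]
    have e3 : (∑ a, qn a * (if P.cur a = v then 1 else 0)) =
        (∑ j, if P.cur (dn j) = v then n j else 0) / D v := by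
      rw [Sel2_sum dn (fun j => n j / D (P.cur (dn j))) (fun a => if P.cur a = v then 1 else 0),
        Finset.sum_div]
      refine Finset.sum_congr rfl fun j _ => ?_
      split_ifs with h
      · rw [h, mul_one]
      · rw [mul_zero, zero_div]
    rw [e1, e2, e3]
    by_cases hb : busy v
    · have e4 : (∑ a, if P.cur a = v then q₀ a else 0) = 0 := by
        refine Finset.sum_eq_zero fun a _ => ?_
        split_ifs with h
        · show (if ¬ busy (P.cur a) ∧ a = av (P.cur a) then c₀ (P.cur a) * X (P.cur a) else 0) = 0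
          rw [if_neg]
          rintro ⟨h3, -⟩
          rw [h] at h3
          exact h3 hb
        · rfl
      rw [e4, zero_add, ← sub_div]
      have e5 : κ v / D v = c v * X v := by
        rw [← hbus v hb]
        exact mul_div_cancel_right₀ _ (hD v)
      exact e5
    · have e4 : (∑ a, if P.cur a = v then q₀ a else 0) = c v * X v := by
        rw [Finset.sum_eq_single (av v)]
        · rw [if_pos (hav v)]
          show (if ¬ busy (P.cur (av v)) ∧ av v = av (P.cur (av v)) then
            c₀ (P.cur (av v)) * X (P.cur (av v)) else 0) = c v * X v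
          rw [hav v, if_pos ⟨hb, rfl⟩, (hnb v hb).1]
        · intro a _ ha
          split_ifs with h
          · show (if ¬ busy (P.cur a) ∧ a = av (P.cur a) then
              c₀ (P.cur a) * X (P.cur a) else 0) = 0
            rw [if_neg]
            rintro ⟨-, h3⟩
            rw [h] at h3
            exact ha h3
          · rfl
        · intro h
          exact absurd (Finset.mem_univ _) h
      have e5 : (∑ j, if P.cur (up j) = v then p j else 0) = 0 :=
        Finset.sum_eq_zero fun j _ => if_neg fun h => hb (Or.inl ⟨j, h⟩)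
      have e6 : (∑ j, if P.cur (dn j) = v then n j else 0) = 0 :=
        Finset.sum_eq_zero fun j _ => if_neg fun h => hb (Or.inr ⟨j, h⟩)
      rw [e4, e5, e6]
      ring
  refine ⟨⟨fun a => q₀ a + qp a - qn a, l, ?_, ?_, hl⟩, ?_, ?_⟩
  · intro a a' haa
    have hs : ∀ a, 0 ≤ (q₀ a + qp a - qn a) * X (P.cur a) := fun a => by
      have := s0 a
      have := sp a
      have := sn a
      nlinarith
    have h3 := hs a
    have h4 := hs a'
    rw [← haa] at h4
    have h5 : 0 < X (P.cur a) ^ 2 := by
      have := hX (P.cur a)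
      positivity
    have h6 : 0 ≤ (q₀ a + qp a - qn a) * (q₀ a' + qp a' - qn a') * X (P.cur a) ^ 2 := by
      have := mul_nonneg h3 h4
      calc 0 ≤ _ := this
        _ = _ := by ring
    exact nonneg_of_mul_nonneg_left h6 h5
  · intro v
    by_contra hne
    push Not at hne
    have h3 : (∑ a, if P.cur a = v then q₀ a + qp a - qn a else 0) = 0 := by
      refine Finset.sum_eq_zero fun a _ => ?_
      split_ifs with h
      · exact hne a h
      · rfl
    rw [hq1 v] at h3
    exact mul_ne_zero (hc v).ne' (hX v) h3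
  · intro j
    show (∑ a, (q₀ a + qp a - qn a) * ((if P.tl a = j then 1 else 0) -
      (if P.hd a = j then 1 else 0) / l (P.cur a))) = σ j
    set F : A → ℝ := fun a => (if P.tl a = j then 1 else 0) -
      (if P.hd a = j then 1 else 0) / l (P.cur a) with hF
    have e1 : (∑ a, (q₀ a + qp a - qn a) * F a) =
        (∑ a, q₀ a * F a) + (∑ a, qp a * F a) - ∑ a, qn a * F a := by
      rw [← Finset.sum_add_distrib, ← Finset.sum_sub_distrib]
      refine Finset.sum_congr rfl fun a _ => ?_
      ring
    have e2 : (∑ a, qp a * F a) = p j := by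
      rw [Sel2_sum up (fun j => p j / D (P.cur (up j))) F, Finset.sum_eq_single j]
      · show p j / D (P.cur (up j)) * ((if P.tl (up j) = j then 1 else 0) -
          (if P.hd (up j) = j then 1 else 0) / l (P.cur (up j))) = p j
        rw [if_pos (h1 j).1, if_pos (h1 j).2.1]
        exact div_mul_cancel₀ _ (hD _)
      · intro j' _ hj
        show p j' / D (P.cur (up j')) * ((if P.tl (up j') = j then 1 else 0) -
          (if P.hd (up j') = j then 1 else 0) / l (P.cur (up j'))) = 0
        rw [(h1 j').1, (h1 j').2.1, if_neg hj]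
        simp
      · intro h
        exact absurd (Finset.mem_univ _) h
    have e3 : (∑ a, qn a * F a) = n j := by
      rw [Sel2_sum dn (fun j => n j / D (P.cur (dn j))) F, Finset.sum_eq_single j]
      · show n j / D (P.cur (dn j)) * ((if P.tl (dn j) = j then 1 else 0) -
          (if P.hd (dn j) = j then 1 else 0) / l (P.cur (dn j))) = n j
        rw [if_pos (h2 j).1, if_pos (h2 j).2.1]
        exact div_mul_cancel₀ _ (hD _)
      · intro j' _ hj
        show n j' / D (P.cur (dn j')) * ((if P.tl (dn j') = j then 1 else 0) -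
          (if P.hd (dn j') = j then 1 else 0) / l (P.cur (dn j'))) = 0
        rw [(h2 j').1, (h2 j').2.1, if_neg hj]
        simp
      · intro h
        exact absurd (Finset.mem_univ _) h
    have e4 : (∑ a, q₀ a * F a) = τ j := by
      refine Finset.sum_congr rfl fun a _ => ?_
      show (if ¬ busy (P.cur a) ∧ a = av (P.cur a) then c₀ (P.cur a) * X (P.cur a) else 0) *
        ((if P.tl a = j then 1 else 0) - (if P.hd a = j then 1 else 0) / l (P.cur a)) =
        (if ¬ busy (P.cur a) ∧ a = av (P.cur a) then c₀ (P.cur a) * X (P.cur a) else 0) *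
        ((if P.tl a = j then 1 else 0) - (if P.hd a = j then 1 else 0) / l₀ (P.cur a))
      by_cases h : ¬ busy (P.cur a) ∧ a = av (P.cur a)
      · rw [(hnb _ h.1).2]
      · rw [if_neg h, zero_mul, zero_mul]
    rw [e1, e2, e3, e4]
    have := hpn j
    linarith
  · intro v
    exact ⟨c v, hc v, (hq1 v).symm, hcl v⟩

end Pool.Agent.H.MP_1611f1_gt.TQ
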