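import Pool.Agent.H.MP_1611f1_gt.TQ.Main
import Pool.Agent.H.MP_1611f1_gt.TQ.Sel2
import Pool.Agent.H.MP_1611f1_gt.G.Main

/-!
The main theorem on mapping tori with several ends.
-/

namespace Pool.Agent.H.MP_1611f1_gt.TQ

open Topology Set Filter
open Pool.Agent.H.MP_1611f1_gt.G (Ended Pattern Union Linear Detected glue_taut)

/-- The pieces of the main theorem, with the admissible covectors at their ends.
* `mul`: `M` is the mapping torus of a homeomorphism of `S` minus the curves `v ∈ I` (see `Mul`, `Geo`); every point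
  outside of the strips and of the annuli can be joined to an end there; the covectors are given by parameters `Q`
  (see `Par`): with the sign `ε` the covector at the end `j` has the slope `sl P Q j = ∑ q a ([tl a = j] - [hd a = j] / lam (cur a))`
  and the covector at the curve `v` is a positive multiple of `(∑ q a, lam v - 1)`, the sum over the strips through `v`.
* `mixed`: the same manifold; every curve is crossed by a strip; for every end `j` there are strips `up j`, `dn j` from `j` to
  `j`; the covector at the curve of `up j` satisfies `0 < x y`, that at the curve of `dn j` `x y < 0`; the covectors at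
  the curves satisfy `x ≠ 0`, `y ≠ 0`, and those at the ends `0 < ε y` for a sign `ε`.
* `fol`: a manifold with a taut foliation which is given by `x j * θ + y j * t = const` near its ends. -/
inductive Good : ∀ {M : Type} [TopologicalSpace M] {K : Type}, Ended M K → (K → ℝ) → (K → ℝ) → Prop
  | mul {M : Type} [TopologicalSpace M] {S : Type} [TopologicalSpace S] [T2Space S] {J I A : Type}
      [DecidableEq J] [DecidableEq I] [Fintype A] [Finite I] [Finite J] (P : Mul S J I A)
      (reach : ∀ x ∈ Fr P, ∃ j z, JoinedIn (Fr P) x (P.E.collar j z))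
      (T : Ended M (J ⊕ I)) (G : Geo P T) (Q : Par P.cur) (ε : ℝ) (hε : ε = 1 ∨ ε = -1) (x y : J ⊕ I → ℝ)
      (hJ : ∀ j, 0 < ε * y (Sum.inl j) ∧ x (Sum.inl j) = sl P Q j * y (Sum.inl j))
      (hI : ∀ v, ∃ c : ℝ, 0 < c ∧ c * (ε * x (Sum.inr v)) = Q.qq v ∧ c * (ε * y (Sum.inr v)) = Q.lam v - 1) :
      Good T x y
  | mixed {M : Type} [TopologicalSpace M] {S : Type} [TopologicalSpace S] [T2Space S] {J I A : Type}
      [DecidableEq J] [DecidableEq I] [Fintype A] [Finite I] [Finite J] (P : Mul S J I A)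
      (reach : ∀ x ∈ Fr P, ∃ j z, JoinedIn (Fr P) x (P.E.collar j z))
      (T : Ended M (J ⊕ I)) (G : Geo P T) (hc : ∀ v, ∃ a, P.cur a = v) (up dn : J → A)
      (h1 : ∀ j, P.tl (up j) = j ∧ P.hd (up j) = j) (h2 : ∀ j, P.tl (dn j) = j ∧ P.hd (dn j) = j)
      (ε : ℝ) (hε : ε = 1 ∨ ε = -1) (x y : J ⊕ I → ℝ)
      (h3 : ∀ j, 0 < x (Sum.inr (P.cur (up j))) * y (Sum.inr (P.cur (up j))))
      (h4 : ∀ j, x (Sum.inr (P.cur (dn j))) * y (Sum.inr (P.cur (dn j))) < 0)
      (hJ : ∀ j, 0 < ε * y (Sum.inl j)) (hI : ∀ v, x (Sum.inr v) ≠ 0 ∧ y (Sum.inr v) ≠ 0) :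
      Good T x y
  | fol {M : Type} [TopologicalSpace M] [T2Space M] {K : Type} (T : Ended M K) (x y : K → ℝ)
      (h : Detected T x y) : Good T x y

/-- the case `ε = 1` of `mixed` (`exists_par_mixed`, `mul_detected`) -/
theorem mixed_detected {M : Type} [TopologicalSpace M] {S : Type} [TopologicalSpace S] [T2Space S]
    {J I A : Type} [DecidableEq J] [DecidableEq I] [Fintype A] [Finite I] [Finite J] {P : Mul S J I A}
    (reach : ∀ x ∈ Fr P, ∃ j z, JoinedIn (Fr P) x (P.E.collar j z))
    {T : Ended M (J ⊕ I)} (G : Geo P T) (hc : ∀ v, ∃ a, P.cur a = v) (up dn : J → A)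
    (h1 : ∀ j, P.tl (up j) = j ∧ P.hd (up j) = j) (h2 : ∀ j, P.tl (dn j) = j ∧ P.hd (dn j) = j) (x y : J ⊕ I → ℝ)
    (h3 : ∀ j, 0 < x (Sum.inr (P.cur (up j))) * y (Sum.inr (P.cur (up j))))
    (h4 : ∀ j, x (Sum.inr (P.cur (dn j))) * y (Sum.inr (P.cur (dn j))) < 0)
    (hJ : ∀ j, 0 < y (Sum.inl j)) (hI : ∀ v, x (Sum.inr v) ≠ 0 ∧ y (Sum.inr v) ≠ 0) : Detected T x y := by
  have : Fintype J := Fintype.ofFinite J
  obtain ⟨Q, hQ1, hQ2⟩ := exists_par_mixed P (fun v => x (Sum.inr v)) (fun v => y (Sum.inr v))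
    (fun v => (hI v).1) (fun v => (hI v).2) hc up dn (fun j => ⟨(h1 j).1, (h1 j).2, h3 j⟩)
    (fun j => ⟨(h2 j).1, (h2 j).2, h4 j⟩) (fun j => x (Sum.inl j) / y (Sum.inl j))
  refine mul_detected G Q reach x y (fun j => ⟨hJ j, ?_⟩) hQ2
  rw [hQ1 j, div_mul_cancel₀ _ (hJ j).ne']

/-- (`mul_detected` for `(ε x, ε y)`, `Detected.neg`; `mixed_detected`) -/
theorem Good.detected {M : Type} [TopologicalSpace M] {K : Type} {T : Ended M K} {x y : K → ℝ}
    (h : Good T x y) : Detected T x y := by
  cases h with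
  | mul P reach T G Q ε hε x y hJ hI =>
    rcases hε with rfl | rfl
    · refine mul_detected G Q reach x y (fun j => ⟨?_, (hJ j).2⟩) fun v => ?_
      · simpa only [one_mul] using (hJ j).1
      · simpa only [one_mul] using hI v
    · have h1 : Detected T (fun j => -x j) (fun j => -y j) := by
        refine mul_detected G Q reach _ _ (fun j => ⟨?_, ?_⟩) fun v => ?_
        · simpa only [neg_mul, one_mul] using (hJ j).1
        · show -x (Sum.inl j) = sl P Q j * -y (Sum.inl j)
          rw [(hJ j).2, mul_neg]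
        · simpa only [neg_mul, one_mul] using hI v
      have h2 := h1.neg
      simp only [neg_neg] at h2
      exact h2
  | mixed P reach T G hc up dn h1 h2 ε hε x y h3 h4 hJ hI =>
    rcases hε with rfl | rfl
    · refine mixed_detected reach G hc up dn h1 h2 x y h3 h4 (fun j => ?_) hI
      simpa only [one_mul] using hJ j
    · have h5 : Detected T (fun j => -x j) (fun j => -y j) := by
        refine mixed_detected reach G hc up dn h1 h2 _ _ (fun j => ?_) (fun j => ?_) (fun j => ?_)
          fun v => ⟨neg_ne_zero.2 (hI v).1, neg_ne_zero.2 (hI v).2⟩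
        · simpa only [neg_mul_neg] using h3 j
        · simpa only [neg_mul_neg] using h4 j
        · simpa only [neg_mul, one_mul] using hJ j
      have h6 := h5.neg
      simp only [neg_neg] at h6
      exact h6
  | fol T x y h => exact h

/-- **Main theorem.** -/
theorem main {V : Type} {M : V → Type} [∀ v, TopologicalSpace (M v)] {J : V → Type}
    (T : ∀ v, Ended (M v) (J v)) (G : Pattern (Σ v, J v)) {Y : Type} [TopologicalSpace Y]
    (U : Union T G Y) (x y : (Σ v, J v) → ℝ)
    (hgood : ∀ v, Good (T v) (fun j => x ⟨v, j⟩) (fun j => y ⟨v, j⟩))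
    (hglue : ∀ e, G.τ e ≠ e → x e = G.al e * x (G.τ e) + G.ga e * y (G.τ e) ∧
      y e = G.be e * x (G.τ e) + G.de e * y (G.τ e))
    (hfill : ∀ e, G.τ e = e → ∃ c : ℝ, c ≠ 0 ∧ x e = c * G.ga e ∧ y e = c * G.de e) :
    ∃ F : Foliation Y, F.Taut :=
  glue_taut T G U x y (fun v => (hgood v).detected) hglue hfill

end Pool.Agent.H.MP_1611f1_gt.TQ
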