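import Pool.Agent.H.MP_1611f1_gt.TQ.Sc
import Pool.Agent.H.MP_1611f1_gt.TW.Fam
import Pool.Agent.H.MP_1611f1_gt.G.MT

/-!
The foliation of the mapping torus of a homeomorphism `phi` which is the identity near the strips
and near the ends: the families of local functions.
-/

namespace Pool.Agent.H.MP_1611f1_gt.TQ

open Topology Set Filter
open Pool.Agent.H.MP_1611f1_gt.BR.U (Ci cl yt hlf psi cu rmp ang)
open Pool.Agent.H.MP_1611f1_gt.LG (Cylinder solidTorus)
open Pool.Agent.H.MP_1611f1_gt.TP (Loc Y EE Yr)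
open Pool.Agent.H.MP_1611f1_gt.G (Ended MTorus)
open Pool.Agent.H.MP_1611f1_gt.TW (Fam Cmp HasChart)

/-- the point of `S × S¹` -/
def pt {S : Type} (w : S × ℝ) : S × Ci := (w.1, (w.2 : Ci))

/-- `phi` is the identity near `x` -/
def Idn {S : Type} [TopologicalSpace S] (phi : S ≃ₜ S) (x : S) : Prop := ∀ᶠ x' in 𝓝 x, phi x' = x'

/-- the deck transformation -/
def deck {S : Type} [TopologicalSpace S] (phi : S ≃ₜ S) (w : S × ℝ) : S × ℝ := (phi w.1, w.2 - 1)

section

variable {S : Type} [TopologicalSpace S] {J I A : Type} [DecidableEq J] [DecidableEq I]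
  [Fintype A] (P : Mul S J I A) (Q : Par P.cur)

/-- the function of the family `C`: scale `i` below the time `1/2`, scale `j` (after `phi`) above -/
noncomputable def fC (phi : S ≃ₜ S) (i j : Option I) (w : S × ℝ) : ℝ :=
  if w.2 ≤ 1 / 2 then sg P Q i w.1 * (w.2 - 1 / 2) else sg P Q j (phi w.1) * (w.2 - 1 / 2)

/-- the domain of the family `A` -/
def XA (c : OpenPartialHomeomorph (S × Ci) ((ℝ × ℝ) × ℝ)) : Set (S × ℝ) :=
  {w | |w.2| < 1 / 2 ∧ pt w ∈ c.source}

/-- the domain of the family `B` -/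
def XB (phi : S ≃ₜ S) (c : OpenPartialHomeomorph (S × Ci) ((ℝ × ℝ) × ℝ)) : Set (S × ℝ) :=
  {w | (0 < w.2 ∧ w.2 < 1) ∧ Idn phi w.1 ∧ pt w ∈ c.source}

/-- the domain of the family `C` -/
def XC (phi : S ≃ₜ S) (i j : Option I) : Set (S × ℝ) :=
  {w | |w.2 - 1 / 2| < 1 / 4 ∧ Flat P w.1 ∧ Flat P (phi w.1) ∧ w.1 ∈ dom P i ∧ phi w.1 ∈ dom P j}

theorem Fm_pt_cont : Continuous (pt : S × ℝ → S × Ci) :=
  continuous_fst.prodMk ((AddCircle.continuous_mk' (1 : ℝ)).comp continuous_snd)

omit [DecidableEq J] [DecidableEq I] [Fintype A] in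
theorem XA_open (c : OpenPartialHomeomorph (S × Ci) ((ℝ × ℝ) × ℝ)) : IsOpen (XA c) :=
  (isOpen_lt (continuous_abs.comp continuous_snd) continuous_const).inter
    (c.open_source.preimage Fm_pt_cont)

theorem XB_open (phi : S ≃ₜ S) (c : OpenPartialHomeomorph (S × Ci) ((ℝ × ℝ) × ℝ)) :
    IsOpen (XB phi c) := by
  have h1 : IsOpen {w : S × ℝ | 0 < w.2 ∧ w.2 < 1} :=
    (isOpen_lt continuous_const continuous_snd).inter (isOpen_lt continuous_snd continuous_const)
  have h2 : IsOpen {x : S | Idn phi x} := isOpen_setOf_eventually_nhds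
  exact h1.inter ((h2.preimage continuous_fst).inter (c.open_source.preimage Fm_pt_cont))

omit [DecidableEq I] [Fintype A] in
theorem XC_open [T2Space S] [Finite I] [Finite J] (phi : S ≃ₜ S) (i j : Option I) :
    IsOpen (XC P phi i j) := by
  have h1 : IsOpen {w : S × ℝ | |w.2 - 1 / 2| < 1 / 4} :=
    isOpen_lt (continuous_abs.comp (continuous_snd.sub continuous_const)) continuous_const
  have hf := flat_open P
  have hp : Continuous fun w : S × ℝ => phi w.1 := phi.continuous.comp continuous_fst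
  exact h1.inter ((hf.preimage continuous_fst).inter ((hf.preimage hp).inter
    (((dom_open P i).preimage continuous_fst).inter ((dom_open P j).preimage hp))))

/-- the deck transformation does not change the point of the mapping torus -/
theorem p_deck {M₀ : Type} [TopologicalSpace M₀] {E : Surf S J} {T₀ : Ended M₀ J} {phi : S ≃ₜ S}
    (Mt : MTorus E phi T₀) (w : S × ℝ) : Mt.p (deck phi w) = Mt.p w := by
  refine (Mt.p_eq _ _ _ _).2 ⟨1, by push_cast; ring, ?_⟩
  rw [zpow_one]

/-- two points of the slab `-1/2 < t < 1` with the same image -/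
theorem p_eq_cases {M₀ : Type} [TopologicalSpace M₀] {E : Surf S J} {T₀ : Ended M₀ J} {phi : S ≃ₜ S}
    (Mt : MTorus E phi T₀) {w w' : S × ℝ} (hw : -1 / 2 < w.2 ∧ w.2 < 1) (hw' : -1 / 2 < w'.2 ∧ w'.2 < 1)
    (h : Mt.p w = Mt.p w') : w' = w ∨ w = deck phi w' ∨ w' = deck phi w := by
  obtain ⟨x, t⟩ := w
  obtain ⟨x', t'⟩ := w'
  obtain ⟨k, hk, hx⟩ := (Mt.p_eq _ _ _ _).1 h
  simp only at hw hw'
  have h1 : (k : ℝ) < 2 := by linarith [hw.1, hw'.2]
  have h2 : (-2 : ℝ) < k := by linarith [hw.2, hw'.1]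
  have h1' : k < 2 := by exact_mod_cast h1
  have h2' : -2 < k := by exact_mod_cast h2
  have h3 : k = 0 ∨ k = 1 ∨ k = -1 := by omega
  rcases h3 with rfl | rfl | rfl
  · left
    rw [zpow_zero] at hx
    rw [Int.cast_zero, add_zero] at hk
    rw [hk, hx]
    rfl
  · right; left
    rw [zpow_one] at hx
    unfold deck
    rw [hk, hx]
    simp
  · right; right
    rw [zpow_neg_one] at hx
    have h4 : phi x = x' := by
      rw [hx]
      exact phi.apply_symm_apply x'
    unfold deck
    rw [hk, h4]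
    simp [sub_eq_add_neg]

variable [T2Space S] [Finite I] [Finite J] {M₀ : Type} [TopologicalSpace M₀] {T₀ : Ended M₀ J}
  {phi : S ≃ₜ S} (Mt : MTorus P.E phi T₀)

/-- the families of transverse functions -/
noncomputable def fam : (AdCh P Q ⊕ AdCh P Q) ⊕ (Option I × Option I) → Fam M₀
  | Sum.inl (Sum.inl c) =>
    { Z := S × ℝ, top := inferInstance, R := Mt.p, loc := Mt.p_loc, X := XA c.1, opn := XA_open c.1,
      D := fun w => (c.1 (pt w)).2 }
  | Sum.inl (Sum.inr c) =>
    { Z := S × ℝ, top := inferInstance, R := Mt.p, loc := Mt.p_loc, X := XB phi c.1,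
      opn := XB_open phi c.1, D := fun w => (c.1 (pt w)).2 }
  | Sum.inr (i, j) =>
    { Z := S × ℝ, top := inferInstance, R := Mt.p, loc := Mt.p_loc, X := XC P phi i j,
      opn := XC_open P phi i j, D := fC P Q phi i j }

end

end Pool.Agent.H.MP_1611f1_gt.TQ
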