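import Pool.Agent.H.MP_1611f1_gt.TQ.Fm

/-!
Comparison of the families.
-/

namespace Pool.Agent.H.MP_1611f1_gt.TQ

open Topology Set Filter
open Pool.Agent.H.MP_1611f1_gt.BR.U (Ci cl yt hlf psi cu rmp ang)
open Pool.Agent.H.MP_1611f1_gt.LG (Cylinder solidTorus)
open Pool.Agent.H.MP_1611f1_gt.TP (Loc Y EE Yr)
open Pool.Agent.H.MP_1611f1_gt.G (Ended MTorus)
open Pool.Agent.H.MP_1611f1_gt.TW (Fam Cmp HasChart)

/-! ### Auxiliary facts -/

theorem FmC_pt_cont {S : Type} [TopologicalSpace S] : Continuous (pt : S × ℝ → S × Ci) :=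
  continuous_fst.prodMk ((AddCircle.continuous_mk' (1 : ℝ)).comp continuous_snd)

theorem FmC_deck_cont {S : Type} [TopologicalSpace S] (phi : S ≃ₜ S) : Continuous (deck phi) :=
  (phi.continuous.comp continuous_fst).prodMk (continuous_snd.sub continuous_const)

/-- the deck transformation is a homeomorphism -/
def FmC_hom {S : Type} [TopologicalSpace S] (phi : S ≃ₜ S) : S × ℝ ≃ₜ S × ℝ where
  toFun := deck phi
  invFun := fun w => (phi.symm w.1, w.2 + 1)
  left_inv := fun w => by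
    show (phi.symm (phi w.1), w.2 - 1 + 1) = w
    rw [phi.symm_apply_apply, sub_add_cancel]
  right_inv := fun w => by
    show (phi (phi.symm w.1), w.2 + 1 - 1) = w
    rw [phi.apply_symm_apply, add_sub_cancel_right]
  continuous_toFun := FmC_deck_cont phi
  continuous_invFun := (phi.symm.continuous.comp continuous_fst).prodMk
    (continuous_snd.add continuous_const)

theorem FmC_coe_sub (t : ℝ) : ((t - 1 : ℝ) : Ci) = (t : Ci) := by
  rw [AddCircle.coe_sub, AddCircle.coe_period, sub_zero]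

theorem FmC_pt_deck {S : Type} [TopologicalSpace S] {phi : S ≃ₜ S} {w : S × ℝ}
    (h : phi w.1 = w.1) : pt (deck phi w) = pt w := by
  show (phi w.1, ((w.2 - 1 : ℝ) : Ci)) = (w.1, (w.2 : Ci))
  rw [h, FmC_coe_sub]

theorem FmC_near {S : Type} [TopologicalSpace S] {phi : S ≃ₜ S} {w : S × ℝ} (hi : Idn phi w.1) :
    ∀ᶠ z in 𝓝 w, pt (deck phi z) = pt z := by
  have h1 : ∀ᶠ z : S × ℝ in 𝓝 w, phi z.1 = z.1 := continuousAt_fst.eventually hi
  exact h1.mono fun z hz => FmC_pt_deck hz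

/-- gluing at a level: `g` has the order of `α` and of `β`, which are nonpositive below the level and
positive above it -/
theorem FmC_glue {S : Type} [TopologicalSpace S] {w : S × ℝ} {g α β : S × ℝ → ℝ} {c : ℝ}
    (hα : ∀ z : S × ℝ, z.2 ≤ c → α z ≤ 0) (hα' : ∀ z : S × ℝ, c < z.2 → 0 < α z)
    (hβ' : ∀ z : S × ℝ, c < z.2 → 0 < β z)
    (h1 : OrdEq w g α) (h2 : OrdEq w g β) :
    OrdEq w g (fun z => if z.2 ≤ c then α z else β z) := by
  obtain ⟨N, hN, h1⟩ := h1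
  obtain ⟨N', hN', h2⟩ := h2
  refine ⟨N ∩ N', inter_mem hN hN', fun z hz z' hz' => ?_⟩
  by_cases a : z.2 ≤ c
  · by_cases b : z'.2 ≤ c
    · simp only [if_pos a, if_pos b]
      exact h1 z hz.1 z' hz'.1
    · simp only [if_pos a, if_neg b]
      rw [not_le] at b
      have e1 : α z < β z' := lt_of_le_of_lt (hα z a) (hβ' z' b)
      have e2 : α z < α z' := lt_of_le_of_lt (hα z a) (hα' z' b)
      exact ⟨fun _ => e1, fun _ => (h1 z hz.1 z' hz'.1).2 e2⟩
  · by_cases b : z'.2 ≤ c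
    · simp only [if_neg a, if_pos b]
      rw [not_le] at a
      have e1 : α z' < β z := lt_of_le_of_lt (hα z' b) (hβ' z a)
      have e2 : α z' < α z := lt_of_le_of_lt (hα z' b) (hα' z a)
      constructor
      · intro h
        exact absurd ((h1 z hz.1 z' hz'.1).1 h) (not_lt.2 e2.le)
      · intro h
        exact absurd h (not_lt.2 e1.le)
    · simp only [if_neg a, if_neg b]
      exact h2 z hz.2 z' hz'.2

variable {S : Type} [TopologicalSpace S] {J I A : Type} [DecidableEq J] [DecidableEq I]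
  [Fintype A] (P : Mul S J I A) (Q : Par P.cur) [T2Space S] [Finite I] [Finite J]

/-- two charts of the foliation of `S × S¹` at the same point (`(pre P Q).compat`, `OrdEq.comp_cont` along `pt`) -/
theorem ord_AA {c c' : OpenPartialHomeomorph (S × Ci) ((ℝ × ℝ) × ℝ)} (hc : c ∈ AdCh P Q) (hc' : c' ∈ AdCh P Q)
    {w : S × ℝ} (h : pt w ∈ c.source) (h' : pt w ∈ c'.source) :
    OrdEq w (fun z => (c (pt z)).2) (fun z => (c' (pt z)).2) :=
  OrdEq.comp_cont (R := pt) FmC_pt_cont.continuousAt ((pre P Q).compat c hc c' hc' (pt w) h h')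

/-- near a point where `phi` is the identity, a chart after the deck transformation is the chart itself -/
theorem ord_deck {phi : S ≃ₜ S} {c c' : OpenPartialHomeomorph (S × Ci) ((ℝ × ℝ) × ℝ)} (hc : c ∈ AdCh P Q)
    (hc' : c' ∈ AdCh P Q) {w : S × ℝ} (hi : Idn phi w.1) (h : pt (deck phi w) ∈ c.source)
    (h' : pt w ∈ c'.source) :
    OrdEq w (fun z => (c (pt (deck phi z))).2) (fun z => (c' (pt z)).2) := by
  have h0 : pt (deck phi w) = pt w := (FmC_near hi).self_of_nhds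
  rw [h0] at h
  refine (ord_AA P Q hc hc' h h').congr ?_ (Eventually.of_forall fun _ => rfl)
  filter_upwards [FmC_near hi] with z hz
  rw [hz]

/-- (`key` with `c = 1/2`) -/
theorem FmC_half {c : OpenPartialHomeomorph (S × Ci) ((ℝ × ℝ) × ℝ)} (hc : c ∈ AdCh P Q)
    {i : Option I} {w : S × ℝ} (ht : |w.2 - 1 / 2| < 1 / 4) (hf : Flat P w.1) (hi : w.1 ∈ dom P i)
    (h : pt w ∈ c.source) :
    OrdEq w (fun z => (c (pt z)).2) (fun z => sg P Q i z.1 * (z.2 - 1 / 2)) :=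
  key P Q hi hf (Or.inl rfl) ht (f := fun z => (c z).2) (hc.2 (pt w) h)

/-- (`key` with `c = -1/2`, composed with `deck`) -/
theorem FmC_half' {phi : S ≃ₜ S} {c : OpenPartialHomeomorph (S × Ci) ((ℝ × ℝ) × ℝ)}
    (hc : c ∈ AdCh P Q) {j : Option I} {w : S × ℝ} (ht : |w.2 - 1 / 2| < 1 / 4)
    (hf : Flat P (phi w.1)) (hj : phi w.1 ∈ dom P j) (h : pt (deck phi w) ∈ c.source) :
    OrdEq w (fun z => (c (pt (deck phi z))).2) (fun z => sg P Q j (phi z.1) * (z.2 - 1 / 2)) := by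
  have ht' : |w.2 - 1 - -1 / 2| < 1 / 4 := by
    have e : w.2 - 1 - -1 / 2 = w.2 - 1 / 2 := by ring
    rw [e]
    exact ht
  have h1 := key P Q (t := w.2 - 1) hj hf (Or.inr rfl) ht' (f := fun z => (c z).2)
    (hc.2 (pt (deck phi w)) h)
  have h2 : OrdEq w (fun z => (c (pt (deck phi z))).2)
      (fun z => sg P Q j (phi z.1) * (z.2 - 1 - -1 / 2)) :=
    OrdEq.comp_cont (R := deck phi) (z₀ := w) (FmC_deck_cont phi).continuousAt h1
  refine h2.congr (Eventually.of_forall fun _ => rfl) (Eventually.of_forall fun z => ?_)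
  show _ = sg P Q j (phi z.1) * (z.2 - 1 - -1 / 2)
  ring

/-- a chart at a point of the domain of `C`, below the time `1/2` (`key` with `c = 1/2`; near such a point
`fC = sg i * (t - 1/2)`) -/
theorem ord_AC {phi : S ≃ₜ S} {c : OpenPartialHomeomorph (S × Ci) ((ℝ × ℝ) × ℝ)} (hc : c ∈ AdCh P Q)
    {i j : Option I} {w : S × ℝ} (hw : w ∈ XC P phi i j) (h2 : w.2 < 1 / 2) (h : pt w ∈ c.source) :
    OrdEq w (fun z => (c (pt z)).2) (fC P Q phi i j) := by
  refine (FmC_half P Q hc hw.1 hw.2.1 hw.2.2.2.1 h).congr (Eventually.of_forall fun _ => rfl) ?_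
  have h3 : ∀ᶠ z : S × ℝ in 𝓝 w, z.2 < 1 / 2 :=
    (continuous_snd.continuousAt).eventually_lt continuousAt_const h2
  filter_upwards [h3] with z hz
  show (if z.2 ≤ 1 / 2 then _ else _) = _
  rw [if_pos hz.le]

/-- a chart at a point of the domain of `C`, above the time `1/2` (`key` at `deck phi w` with `c = -1/2`, composed
with the continuous map `deck phi`) -/
theorem ord_CA {phi : S ≃ₜ S} {c : OpenPartialHomeomorph (S × Ci) ((ℝ × ℝ) × ℝ)} (hc : c ∈ AdCh P Q)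
    {i j : Option I} {w : S × ℝ} (hw : w ∈ XC P phi i j) (h2 : 1 / 2 < w.2) (h : pt (deck phi w) ∈ c.source) :
    OrdEq w (fun z => (c (pt (deck phi z))).2) (fC P Q phi i j) := by
  refine (FmC_half' P Q hc hw.1 hw.2.2.1 hw.2.2.2.2 h).congr (Eventually.of_forall fun _ => rfl) ?_
  have h3 : ∀ᶠ z : S × ℝ in 𝓝 w, 1 / 2 < z.2 :=
    continuousAt_const.eventually_lt (continuous_snd.continuousAt) h2
  filter_upwards [h3] with z hz
  show (if z.2 ≤ 1 / 2 then _ else _) = _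
  rw [if_neg (not_le.2 hz)]

/-- piecewise functions at the time `1/2` -/
theorem ord_pw {a a' b b' : S → ℝ} (ha : ∀ x, 0 < a x) (ha' : ∀ x, 0 < a' x) (hb : ∀ x, 0 < b x)
    (hb' : ∀ x, 0 < b' x) {x : S}
    (h : OrdEq (x, (1 / 2 : ℝ)) (fun w : S × ℝ => a w.1 * (w.2 - 1 / 2)) (fun w => a' w.1 * (w.2 - 1 / 2)))
    (h' : OrdEq (x, (1 / 2 : ℝ)) (fun w : S × ℝ => b w.1 * (w.2 - 1 / 2)) (fun w => b' w.1 * (w.2 - 1 / 2))) :
    OrdEq (x, (1 / 2 : ℝ)) (fun w : S × ℝ => if w.2 ≤ 1 / 2 then a w.1 * (w.2 - 1 / 2) else b w.1 * (w.2 - 1 / 2))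
      (fun w => if w.2 ≤ 1 / 2 then a' w.1 * (w.2 - 1 / 2) else b' w.1 * (w.2 - 1 / 2)) := by
  obtain ⟨N, hN, h1⟩ := h
  obtain ⟨N', hN', h2⟩ := h'
  have lo : ∀ (u : S → ℝ), (∀ x, 0 < u x) → ∀ z : S × ℝ, z.2 ≤ 1 / 2 → u z.1 * (z.2 - 1 / 2) ≤ 0 :=
    fun u hu z hz => mul_nonpos_of_nonneg_of_nonpos (hu _).le (by linarith)
  have hi : ∀ (u : S → ℝ), (∀ x, 0 < u x) → ∀ z : S × ℝ, 1 / 2 < z.2 → 0 < u z.1 * (z.2 - 1 / 2) :=
    fun u hu z hz => mul_pos (hu _) (by linarith)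
  refine ⟨N ∩ N', inter_mem hN hN', fun z hz z' hz' => ?_⟩
  by_cases e : z.2 ≤ 1 / 2
  · by_cases e' : z'.2 ≤ 1 / 2
    · simp only [if_pos e, if_pos e']
      exact h1 z hz.1 z' hz'.1
    · simp only [if_pos e, if_neg e']
      rw [not_le] at e'
      exact ⟨fun _ => lt_of_le_of_lt (lo a' ha' z e) (hi b' hb' z' e'),
        fun _ => lt_of_le_of_lt (lo a ha z e) (hi b hb z' e')⟩
  · by_cases e' : z'.2 ≤ 1 / 2
    · simp only [if_neg e, if_pos e']
      rw [not_le] at e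
      constructor
      · intro h
        exact absurd h (not_lt.2 (le_trans (lo a ha z' e') (hi b hb z e).le))
      · intro h
        exact absurd h (not_lt.2 (le_trans (lo a' ha' z' e') (hi b' hb' z e).le))
    · simp only [if_neg e, if_neg e']
      exact h2 z hz.2 z' hz'.2

/-- `B` and `C`: `phi` is the identity near `x` and `x` is flat (below `1/2`: `ord_AC`; above: `ord_CA`, `ord_deck`;
at `1/2`: `key` for `i` and for `j`, the second one composed with `deck`, and the argument of `ord_pw`) -/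
theorem ord_BC {phi : S ≃ₜ S} {c : OpenPartialHomeomorph (S × Ci) ((ℝ × ℝ) × ℝ)} (hc : c ∈ AdCh P Q)
    {i j : Option I} {w : S × ℝ} (hw : w ∈ XC P phi i j) (hi : Idn phi w.1) (h : pt w ∈ c.source) :
    OrdEq w (fun z => (c (pt z)).2) (fC P Q phi i j) := by
  have h0 : pt (deck phi w) = pt w := (FmC_near hi).self_of_nhds
  have h1 := FmC_half P Q hc hw.1 hw.2.1 hw.2.2.2.1 h
  have h' : pt (deck phi w) ∈ c.source := by
    rw [h0]
    exact h
  have h2 : OrdEq w (fun z => (c (pt z)).2) (fun z => sg P Q j (phi z.1) * (z.2 - 1 / 2)) := by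
    refine (FmC_half' P Q hc hw.1 hw.2.2.1 hw.2.2.2.2 h').congr ?_ (Eventually.of_forall fun _ => rfl)
    filter_upwards [FmC_near hi] with z hz
    rw [hz]
  exact FmC_glue (c := 1 / 2)
    (fun z hz => mul_nonpos_of_nonneg_of_nonpos (sg_pos P Q i _).le (by linarith))
    (fun z hz => mul_pos (sg_pos P Q i _) (by linarith))
    (fun z hz => mul_pos (sg_pos P Q j _) (by linarith)) h1 h2

/-- charts exist near the time `1/2` -/
theorem FmC_chart {w : S × Ci} (ht : 1 / 4 < |cl w.2|) : ∃ c ∈ AdCh P Q, w ∈ c.source := by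
  by_cases h : w ∈ Xo P
  · exact fol_out P Q h
  · have h1 : ∃ v z, P.ν v z = w.1 ∧ |z.2| ≤ 2 := by
      by_contra hcon
      push Not at hcon
      exact h fun v z hz => hcon v z hz
    obtain ⟨v, z, hz, hz2⟩ := h1
    have h2 : ((z, w.2) : Y) ∈ Yr := by
      refine ⟨by show |z.2| < 12; linarith, ?_⟩
      show 1 / 1024 < (z.2 / 32) ^ 2 + cl w.2 ^ 2
      have h3 : (1 / 4) ^ 2 < |cl w.2| ^ 2 := pow_lt_pow_left₀ ht (by norm_num) two_ne_zero
      rw [sq_abs] at h3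
      nlinarith [sq_nonneg (z.2 / 32)]
    obtain ⟨c, hc, hw⟩ := fol_inn P Q v h2
    refine ⟨c, hc, ?_⟩
    have h4 : nu P v (z, w.2) = w := by
      show (P.ν v z, w.2) = w
      rw [hz]
    rwa [h4] at hw

theorem FmC_cl {t : ℝ} (ht : |t - 1 / 2| < 1 / 4) : 1 / 4 < |cl (t : Ci)| := by
  obtain ⟨h1, h2⟩ := abs_lt.1 ht
  by_cases h : t < 1 / 2
  · rw [BR.U.cl_coe ⟨by linarith, h⟩]
    exact lt_abs.2 (Or.inl (by linarith))
  · rw [not_lt] at h
    rw [← FmC_coe_sub, BR.U.cl_coe ⟨by linarith, by linarith⟩]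
    exact lt_abs.2 (Or.inr (by linarith))

/-- `C` and `C` (through a chart of `S × S¹`, which exists by `fol_out`, `fol_inn`; at the time `1/2`: `ord_pw`) -/
theorem ord_CC {phi : S ≃ₜ S} {i j i' j' : Option I} {w : S × ℝ} (hw : w ∈ XC P phi i j)
    (hw' : w ∈ XC P phi i' j') : OrdEq w (fC P Q phi i j) (fC P Q phi i' j') := by
  have hcl : 1 / 4 < |cl (pt w).2| := FmC_cl hw.1
  obtain ⟨c, hc, hcw⟩ := FmC_chart P Q (w := pt w) hcl
  obtain ⟨c', hc', hcw'⟩ := FmC_chart P Q (w := pt (deck phi w)) (by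
    show 1 / 4 < |cl ((w.2 - 1 : ℝ) : Ci)|
    rw [FmC_coe_sub]
    exact hcl)
  rcases lt_trichotomy w.2 (1 / 2) with h | h | h
  · exact (ord_AC P Q hc hw h hcw).symm.trans (ord_AC P Q hc hw' h hcw)
  · have h1 := (FmC_half P Q hc hw.1 hw.2.1 hw.2.2.2.1 hcw).symm.trans
      (FmC_half P Q hc hw'.1 hw'.2.1 hw'.2.2.2.1 hcw)
    have h2 := (FmC_half' P Q hc' hw.1 hw.2.2.1 hw.2.2.2.2 hcw').symm.trans
      (FmC_half' P Q hc' hw'.1 hw'.2.2.1 hw'.2.2.2.2 hcw')
    obtain ⟨x, t⟩ := w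
    have h' : t = 1 / 2 := h
    subst h'
    exact ord_pw (a := sg P Q i) (a' := sg P Q i') (b := fun x => sg P Q j (phi x))
      (b' := fun x => sg P Q j' (phi x)) (sg_pos P Q i) (sg_pos P Q i') (fun _ => sg_pos P Q j _)
      (fun _ => sg_pos P Q j' _) h1 h2
  · exact (ord_CA P Q hc' hw h hcw').symm.trans (ord_CA P Q hc' hw' h hcw')

variable {M₀ : Type} [TopologicalSpace M₀] {T₀ : Ended M₀ J} {phi : S ≃ₜ S} (Mt : MTorus P.E phi T₀)

/-- the domain and the function of a family, as subset of `S × ℝ` -/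
def FmC_X (phi : S ≃ₜ S) : (AdCh P Q ⊕ AdCh P Q) ⊕ (Option I × Option I) → Set (S × ℝ)
  | Sum.inl (Sum.inl c) => XA c.1
  | Sum.inl (Sum.inr c) => XB phi c.1
  | Sum.inr (i, j) => XC P phi i j

noncomputable def FmC_D (phi : S ≃ₜ S) :
    (AdCh P Q ⊕ AdCh P Q) ⊕ (Option I × Option I) → S × ℝ → ℝ
  | Sum.inl (Sum.inl c) => fun w => (c.1 (pt w)).2
  | Sum.inl (Sum.inr c) => fun w => (c.1 (pt w)).2
  | Sum.inr (i, j) => fC P Q phi i j

theorem FmC_slab (k : (AdCh P Q ⊕ AdCh P Q) ⊕ (Option I × Option I)) {w : S × ℝ}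
    (h : w ∈ FmC_X P Q phi k) : -1 / 2 < w.2 ∧ w.2 < 1 := by
  rcases k with (c | c) | ⟨i, j⟩
  · have h1 := abs_lt.1 (show |w.2| < 1 / 2 from h.1)
    exact ⟨by linarith [h1.1], by linarith [h1.2]⟩
  · have h1 : 0 < w.2 ∧ w.2 < 1 := h.1
    exact ⟨by linarith [h1.1], h1.2⟩
  · have h1 := abs_lt.1 (show |w.2 - 1 / 2| < 1 / 4 from h.1)
    exact ⟨by linarith [h1.1], by linarith [h1.2]⟩

/-- at the same point -/
theorem FmC_eq (k l : (AdCh P Q ⊕ AdCh P Q) ⊕ (Option I × Option I)) {w : S × ℝ}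
    (h : w ∈ FmC_X P Q phi k) (h' : w ∈ FmC_X P Q phi l) :
    OrdEq w (FmC_D P Q phi k) (FmC_D P Q phi l) := by
  rcases k with (c | c) | ⟨i, j⟩ <;> rcases l with (c' | c') | ⟨i', j'⟩
  · exact ord_AA P Q c.2 c'.2 h.2 h'.2
  · exact ord_AA P Q c.2 c'.2 h.2 h'.2.2
  · exact ord_AC P Q c.2 h' (abs_lt.1 (show |w.2| < 1 / 2 from h.1)).2 h.2
  · exact ord_AA P Q c.2 c'.2 h.2.2 h'.2
  · exact ord_AA P Q c.2 c'.2 h.2.2 h'.2.2
  · exact ord_BC P Q c.2 h' h.2.1 h.2.2
  · exact (ord_AC P Q c'.2 h (abs_lt.1 (show |w.2| < 1 / 2 from h'.1)).2 h'.2).symm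
  · exact (ord_BC P Q c'.2 h h'.2.1 h'.2.2).symm
  · exact ord_CC P Q h h'

/-- one deck transformation apart -/
theorem FmC_ne (k l : (AdCh P Q ⊕ AdCh P Q) ⊕ (Option I × Option I)) {w : S × ℝ}
    (h : deck phi w ∈ FmC_X P Q phi k) (h' : w ∈ FmC_X P Q phi l) :
    OrdEq w (fun z => FmC_D P Q phi k (deck phi z)) (FmC_D P Q phi l) := by
  have hk := FmC_slab P Q k h
  have hl := FmC_slab P Q l h'
  have e : (deck phi w).2 = w.2 - 1 := rfl
  rw [e] at hk
  rcases k with (c | c) | ⟨i, j⟩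
  · have h1 := abs_lt.1 (show |w.2 - 1| < 1 / 2 from h.1)
    rcases l with (c' | c') | ⟨i', j'⟩
    · have h2 := abs_lt.1 (show |w.2| < 1 / 2 from h'.1)
      exfalso
      linarith [h1.1, h2.2]
    · exact ord_deck P Q c.2 c'.2 h'.2.1 h.2 h'.2.2
    · exact ord_CA P Q c.2 h' (by linarith [h1.1]) h.2
  · exfalso
    have h1 : 0 < w.2 - 1 := h.1.1
    linarith [hl.2]
  · exfalso
    have h1 := abs_lt.1 (show |w.2 - 1 - 1 / 2| < 1 / 4 from h.1)
    linarith [h1.1, hl.2]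

/-- **The families agree.** (`TW.cmp_of_map` with `σ` = the identity, `deck phi` or its inverse, according to
`p_eq_cases`; where `σ` is the inverse of `deck phi` use `TW.cmp_of_map'` for the other order.) -/
theorem fam_cmp (k l : (AdCh P Q ⊕ AdCh P Q) ⊕ (Option I × Option I)) :
    Cmp (fam P Q Mt k) (fam P Q Mt l) := by
  have main : ∀ z ∈ FmC_X P Q phi k, ∀ z' ∈ FmC_X P Q phi l, Mt.p z = Mt.p z' → ∀ f : M₀ → ℝ,
      OrdEq z (fun w => f (Mt.p w)) (FmC_D P Q phi k) →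
      OrdEq z' (fun w => f (Mt.p w)) (FmC_D P Q phi l) := by
    intro z hz z' hz' hzz f hf
    rcases p_eq_cases Mt (FmC_slab P Q k hz) (FmC_slab P Q l hz') hzz with h | h | h
    · subst h
      exact hf.trans (FmC_eq P Q k l hz hz')
    · subst h
      have h1 : OrdEq z' (fun w => f (Mt.p (deck phi w))) (fun w => FmC_D P Q phi k (deck phi w)) :=
        OrdEq.comp_cont (R := deck phi) (z₀ := z') (FmC_deck_cont phi).continuousAt hf
      simp only [p_deck] at h1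
      exact h1.trans (FmC_ne P Q k l hz hz')
    · subst h
      have h1 : OrdEq z (fun w => f (Mt.p w)) (fun w => FmC_D P Q phi l (deck phi w)) :=
        hf.trans (FmC_ne P Q l k hz' hz).symm
      have h2 : OrdEq z ((fun w => f (Mt.p w)) ∘ deck phi) (FmC_D P Q phi l ∘ deck phi) := by
        refine h1.congr (Eventually.of_forall fun w => ?_) (Eventually.of_forall fun _ => rfl)
        show f (Mt.p (deck phi w)) = f (Mt.p w)
        rw [p_deck]
      exact OrdEq.of_openMap (R := deck phi) (FmC_hom phi).isOpenMap h2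
  rcases k with (c | c) | ⟨i, j⟩ <;> rcases l with (c' | c') | ⟨i', j'⟩ <;> exact main

end Pool.Agent.H.MP_1611f1_gt.TQ
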