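import Pool.Agent.H.MP_1611f1_gt.TQ.OutA

/-!
The outer region.
-/

namespace Pool.Agent.H.MP_1611f1_gt.TQ

open Topology Set Filter
open Pool.Agent.H.MP_1611f1_gt.BR.U (Ci cl yt hlf psi cu rmp ang)
open Pool.Agent.H.MP_1611f1_gt.LG (Cylinder solidTorus)
open Pool.Agent.H.MP_1611f1_gt.TP (Loc Y EE Yr)

variable {S : Type*} [TopologicalSpace S] {J I A : Type*} [DecidableEq J] [DecidableEq I]
  [Fintype A] (P : Mul S J I A) (Q : Par P.cur) [Finite I]

theorem OutB_compact : IsCompact {z : Ci × ℝ | |z.2| ≤ 2} := by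
  have h : {z : Ci × ℝ | |z.2| ≤ 2} = (univ : Set Ci) ×ˢ Icc (-2 : ℝ) 2 := by
    ext z
    simp only [mem_ofPred_eq, mem_prod, mem_univ, true_and, mem_Icc, abs_le]
  rw [h]
  exact isCompact_univ.prod isCompact_Icc

/-- (the sets `ν v '' {|u| ≤ 2}` are compact) -/
theorem Xo_open [T2Space S] : IsOpen (Xo P) := by
  have h1 : (Xo P)ᶜ = ⋃ v, Prod.fst ⁻¹' (P.ν v '' {z : Ci × ℝ | |z.2| ≤ 2}) := by
    ext w
    simp only [Xo, mem_compl_iff, mem_ofPred_eq, mem_iUnion, mem_preimage, mem_image]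
    push Not
    constructor
    · rintro ⟨v, z, h, h'⟩
      exact ⟨v, z, h', h⟩
    · rintro ⟨v, z, h, h'⟩
      exact ⟨v, z, h', h⟩
  rw [← isClosed_compl_iff, h1]
  refine isClosed_iUnion_of_finite fun v => ?_
  exact ((OutB_compact.image (P.emb v).continuous).isClosed).preimage continuous_fst

theorem half_contAt {y : S × Ci} (hy : y ∈ Xo P) (v : A) : ContinuousAt (P.half v) y.1 := by
  refine P.half_cont v y.1 fun θ h => ?_
  have h1 := hy (P.cur v) (θ, 0) h.symm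
  norm_num at h1

theorem OutB_half {y : S × Ci} (hy : y ∈ Xo P) (v : A) :
    ContinuousAt (fun w : S × Ci => P.half v w.1) y :=
  ContinuousAt.comp (g := P.half v) (f := fun w : S × Ci => w.1) (half_contAt P hy v)
    continuousAt_fst

theorem OutB_kap (y : S × Ci) (v : A) : ContinuousAt (fun w : S × Ci => P.kap v w.1) y :=
  ((P.kap v).continuous.comp continuous_fst).continuousAt

/-- (`N` = the points of `Xo` where the centred lifts of the differences of `t`, `kap v`, `half v`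
are `< 1/4` in absolute value, see `BR.U.NNear_gen`, `BR.U.cl_base`) -/
theorem DD_near [T2Space S] [Finite J] {y : S × Ci} (hy : y ∈ Xo P) :
    ∃ N : Set (S × Ci), IsOpen N ∧ y ∈ N ∧ N ⊆ Xo P ∧
      (∀ w ∈ N, ∀ w' ∈ N, DD P Q w w' = DD P Q y w' - DD P Q y w) ∧ ContinuousOn (DD P Q y) N := by
  have hf : ContinuousOn (fun w : S × Ci => ((w.2 - y.2),
      fun v => (P.kap v w.1 - P.kap v y.1, P.half v w.1 - P.half v y.1))) (Xo P) := by
    intro w hw
    refine ContinuousAt.continuousWithinAt ?_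
    refine (continuousAt_snd.sub continuousAt_const).prodMk (continuousAt_pi.2 fun v => ?_)
    exact ((OutB_kap P w v).sub continuousAt_const).prodMk
      ((OutB_half P hw v).sub continuousAt_const)
  have hU : IsOpen {u : Ci × (A → Ci × Ci) |
      ‖u.1‖ < 1 / 4 ∧ ∀ v, ‖(u.2 v).1‖ < 1 / 4 ∧ ‖(u.2 v).2‖ < 1 / 4} := by
    have h1 : IsOpen {u : Ci × (A → Ci × Ci) | ‖u.1‖ < 1 / 4} :=
      isOpen_lt (by fun_prop) continuous_const
    have h2 : IsOpen {u : Ci × (A → Ci × Ci) | ∀ v, ‖(u.2 v).1‖ < 1 / 4 ∧ ‖(u.2 v).2‖ < 1 / 4} := by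
      rw [ofPred_forall]
      refine isOpen_iInter_of_finite fun v => ?_
      have h3 : IsOpen {u : Ci × (A → Ci × Ci) | ‖(u.2 v).1‖ < 1 / 4} :=
        isOpen_lt (by fun_prop) continuous_const
      have h4 : IsOpen {u : Ci × (A → Ci × Ci) | ‖(u.2 v).2‖ < 1 / 4} :=
        isOpen_lt (by fun_prop) continuous_const
      exact h3.and h4
    exact h1.and h2
  have hN := hf.isOpen_inter_preimage (Xo_open P) hU
  refine ⟨_, hN, ⟨hy, ?_⟩, inter_subset_left, ?_, ?_⟩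
  · show ‖y.2 - y.2‖ < 1 / 4 ∧ ∀ v, ‖P.kap v y.1 - P.kap v y.1‖ < 1 / 4 ∧
      ‖P.half v y.1 - P.half v y.1‖ < 1 / 4
    refine ⟨?_, fun v => ⟨?_, ?_⟩⟩ <;> rw [sub_self, norm_zero] <;> norm_num
  · rintro w ⟨-, h1, h2⟩ w' ⟨-, h1', h2'⟩
    have h1 : ‖w.2 - y.2‖ < 1 / 4 := h1
    have h1' : ‖w'.2 - y.2‖ < 1 / 4 := h1'
    rw [BR.U.norm_cl] at h1 h1'
    have h3 : ∀ v, cl (P.kap v w'.1 - P.kap v w.1) =
        cl (P.kap v w'.1 - P.kap v y.1) - cl (P.kap v w.1 - P.kap v y.1) := by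
      intro v
      have e1 : ‖P.kap v w.1 - P.kap v y.1‖ < 1 / 4 := (h2 v).1
      have e2 : ‖P.kap v w'.1 - P.kap v y.1‖ < 1 / 4 := (h2' v).1
      rw [BR.U.norm_cl] at e1 e2
      exact BR.U.cl_base e1 e2
    have h4 : ∀ v, cl (P.half v w'.1 - P.half v w.1) =
        cl (P.half v w'.1 - P.half v y.1) - cl (P.half v w.1 - P.half v y.1) := by
      intro v
      have e1 : ‖P.half v w.1 - P.half v y.1‖ < 1 / 4 := (h2 v).2
      have e2 : ‖P.half v w'.1 - P.half v y.1‖ < 1 / 4 := (h2' v).2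
      rw [BR.U.norm_cl] at e1 e2
      exact BR.U.cl_base e1 e2
    have h5 : ∑ v, (Q.q v * cl (P.kap v w'.1 - P.kap v w.1) +
          Q.q v * (1 / Q.lam (P.cur v) - 1) * cl (P.half v w'.1 - P.half v w.1)) =
        ∑ v, (Q.q v * cl (P.kap v w'.1 - P.kap v y.1) +
          Q.q v * (1 / Q.lam (P.cur v) - 1) * cl (P.half v w'.1 - P.half v y.1)) -
        ∑ v, (Q.q v * cl (P.kap v w.1 - P.kap v y.1) +
          Q.q v * (1 / Q.lam (P.cur v) - 1) * cl (P.half v w.1 - P.half v y.1)) := by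
      rw [← Finset.sum_sub_distrib]
      refine Finset.sum_congr rfl fun v _ => ?_
      rw [h3 v, h4 v]
      ring
    unfold DD
    rw [h5, BR.U.cl_base h1 h1']
    ring
  · rintro w ⟨hw, h1, h2⟩
    have h1 : ‖w.2 - y.2‖ < 1 / 4 := h1
    rw [BR.U.norm_cl] at h1
    have e1 : ContinuousAt (fun w : S × Ci => cl (w.2 - y.2)) w :=
      BR.U.NNear_cl (continuousAt_snd.sub continuousAt_const) (by linarith)
    have e2 : ∀ v, ContinuousAt (fun w : S × Ci => cl (P.kap v w.1 - P.kap v y.1)) w := by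
      intro v
      have h3 : ‖P.kap v w.1 - P.kap v y.1‖ < 1 / 4 := (h2 v).1
      rw [BR.U.norm_cl] at h3
      exact BR.U.NNear_cl ((OutB_kap P w v).sub continuousAt_const) (by linarith)
    have e3 : ∀ v, ContinuousAt (fun w : S × Ci => cl (P.half v w.1 - P.half v y.1)) w := by
      intro v
      have h3 : ‖P.half v w.1 - P.half v y.1‖ < 1 / 4 := (h2 v).2
      rw [BR.U.norm_cl] at h3
      exact BR.U.NNear_cl ((OutB_half P hw v).sub continuousAt_const) (by linarith)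
    have e4 : ContinuousAt (fun w : S × Ci => GG P Q w.1) w :=
      ((GG_cont P Q).comp continuous_fst).continuousAt
    have e5 : ContinuousAt (fun w : S × Ci => ∑ v, (Q.q v * cl (P.kap v w.1 - P.kap v y.1) +
        Q.q v * (1 / Q.lam (P.cur v) - 1) * cl (P.half v w.1 - P.half v y.1))) w :=
      tendsto_finsetSum _ fun v _ =>
        ((continuousAt_const.mul (e2 v)).add (continuousAt_const.mul (e3 v))).tendsto
    refine ContinuousAt.continuousWithinAt ?_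
    exact (e1.add e5).add (e4.sub continuousAt_const)

theorem DD_t {w w' : S × Ci} {δ : ℝ} (h1 : |δ| < 1 / 2) (h : w'.1 = w.1) (ht : w'.2 = w.2 + (δ : Ci)) :
    DD P Q w w' = δ := by
  have h2 := abs_lt.1 h1
  have h3 : cl (w'.2 - w.2) = δ := by
    rw [ht, add_sub_cancel_left]
    exact BR.U.cl_coe ⟨by linarith [h2.1], h2.2⟩
  unfold DD
  rw [h, h3]
  simp only [sub_self, BR.U.cl_zero, mul_zero, add_zero, Finset.sum_const_zero]

/-- the values of a lift near a point -/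
theorem OutB_lift {g : ℝ → ℝ} (hg : Continuous g) (x : ℝ) : ∀ᶠ u in 𝓝 x, |g u - g x| < 1 / 8 := by
  have h1 : ContinuousAt g x := hg.continuousAt
  have h := Metric.continuousAt_iff'.1 h1 (1 / 8) (by norm_num)
  simpa only [Real.dist_eq] using h

theorem OutB_cl {a b c : ℝ} (ha : |a - c| < 1 / 8) (hb : |b - c| < 1 / 8) :
    cl ((b : Ci) - (a : Ci)) = b - a := by
  have h1 := abs_lt.1 ha
  have h2 := abs_lt.1 hb
  rw [← AddCircle.coe_sub]
  exact BR.U.cl_coe ⟨by linarith [h1.1, h1.2, h2.1, h2.2], by linarith [h1.1, h1.2, h2.1, h2.2]⟩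

theorem OutB_cut {r : ℝ} (h : r < 4 / 3) : LS.cut r = 0 := by
  unfold LS.cut
  rw [min_eq_right (by linarith), max_eq_left (by linarith)]

/-- In the collars, for `r < 4/3`. (`cl (kap' - kap) = χ θ' - χ θ` for close points, and the same
for `half`, `φ`; by `GG_collar` the sum is `t' - t + s (θ' - θ)`) -/
theorem DD_collar (j : J) {z : LS.Plr} (hz : (z.2.1 : ℝ) < 4 / 3) : ∃ V ∈ 𝓝 z, ∀ w ∈ V, ∀ w' ∈ V,
    DD P Q (P.E.collar j ((w.1 : Ci), w.2.1), (w.2.2 : Ci))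
      (P.E.collar j ((w'.1 : Ci), w'.2.1), (w'.2.2 : Ci)) =
      sl P Q j * (w'.1 - w.1) + (w'.2.2 - w.2.2) := by
  have h1 : ∀ᶠ w in 𝓝 z, ∀ v, |P.χ v j w.1 - P.χ v j z.1| < 1 / 8 ∧
      |P.φ v j w.1 - P.φ v j z.1| < 1 / 8 := by
    rw [eventually_all]
    intro v
    have h2 : ∀ᶠ w : LS.Plr in 𝓝 z, |P.χ v j w.1 - P.χ v j z.1| < 1 / 8 :=
      (continuousAt_fst (p := z)).eventually (OutB_lift (P.χ_cont v j) z.1)
    have h3 : ∀ᶠ w : LS.Plr in 𝓝 z, |P.φ v j w.1 - P.φ v j z.1| < 1 / 8 :=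
      (continuousAt_fst (p := z)).eventually (OutB_lift (P.φ_cont v j) z.1)
    exact h2.and h3
  have h2 : ∀ᶠ w : LS.Plr in 𝓝 z, (w.2.1 : ℝ) < 4 / 3 := by
    have h : Continuous fun w : LS.Plr => (w.2.1 : ℝ) := by fun_prop
    exact h.continuousAt.eventually (gt_mem_nhds hz)
  have h3 : ∀ᶠ w : LS.Plr in 𝓝 z, |w.2.2 - z.2.2| < 1 / 8 := by
    have h : Continuous fun w : LS.Plr => w.2.2 := by fun_prop
    exact h.continuousAt.eventually (OutB_lift continuous_id z.2.2)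
  refine ⟨{w | (∀ v, |P.χ v j w.1 - P.χ v j z.1| < 1 / 8 ∧ |P.φ v j w.1 - P.φ v j z.1| < 1 / 8) ∧
    (w.2.1 : ℝ) < 4 / 3 ∧ |w.2.2 - z.2.2| < 1 / 8}, h1.and (h2.and h3), ?_⟩
  rintro w ⟨a1, a2, a3⟩ w' ⟨b1, b2, b3⟩
  unfold DD
  have e1 : ∀ v, cl (P.kap v (P.E.collar j ((w'.1 : Ci), w'.2.1)) -
      P.kap v (P.E.collar j ((w.1 : Ci), w.2.1))) = P.χ v j w'.1 - P.χ v j w.1 := by
    intro v
    rw [P.χ_end, P.χ_end]
    exact OutB_cl (a1 v).1 (b1 v).1
  have e2 : ∀ v, cl (P.half v (P.E.collar j ((w'.1 : Ci), w'.2.1)) -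
      P.half v (P.E.collar j ((w.1 : Ci), w.2.1))) = P.φ v j w'.1 - P.φ v j w.1 := by
    intro v
    rw [P.φ_end, P.φ_end]
    exact OutB_cl (a1 v).2 (b1 v).2
  have e3 : cl ((w'.2.2 : Ci) - (w.2.2 : Ci)) = w'.2.2 - w.2.2 := OutB_cl a3 b3
  simp only [e1, e2, e3]
  rw [GG_collar, GG_collar, OutB_cut a2, OutB_cut b2]
  have e4 : ∑ v, (Q.q v * (P.χ v j w'.1 - P.χ v j w.1) +
      Q.q v * (1 / Q.lam (P.cur v) - 1) * (P.φ v j w'.1 - P.φ v j w.1)) =
      BB P Q j w'.1 - BB P Q j w.1 := by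
    unfold BB
    rw [← Finset.sum_sub_distrib]
    refine Finset.sum_congr rfl fun v _ => ?_
    ring
  rw [e4]
  ring

/-- the collars are in the outer region -/
theorem collar_out (j : J) (z : Ci × Ioo (1 : ℝ) 2) (t : Ci) : (P.E.collar j z, t) ∈ Xo P := by
  intro v z' h
  exact absurd h (P.out v z' j z)

end Pool.Agent.H.MP_1611f1_gt.TQ
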