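import Pool.Agent.H.MP_1611f1_gt.TP.ModB
import Pool.Agent.H.MP_1611f1_gt.TQ.OutB

/-!
The overlap of the outer region and the local models.
-/

namespace Pool.Agent.H.MP_1611f1_gt.TQ

open Topology Set Filter
open Pool.Agent.H.MP_1611f1_gt.BR.U (Ci cl yt hlf psi cu rmp ang)
open Pool.Agent.H.MP_1611f1_gt.LG (Cylinder solidTorus)
open Pool.Agent.H.MP_1611f1_gt.TP (Loc Y EE Yr EE_left EE_right)

variable {S : Type*} [TopologicalSpace S] {J I A : Type*} [DecidableEq J] [DecidableEq I]
  [Fintype A] (P : Mul S J I A) (Q : Par P.cur)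

omit [DecidableEq I] [Fintype A] in
theorem nu_emb (v : I) : IsOpenEmbedding (nu P v) := by
  have h : nu P v = Prod.map (P.ν v) id := by
    funext z
    rfl
  rw [h]
  exact (P.emb v).prodMap IsOpenEmbedding.id

/-- `f a θ - θ`, on the circle -/
noncomputable def Fpa (a : A) (θ : Ci) : ℝ := P.f a (cl θ) - cl θ

omit [DecidableEq I] [Fintype A] in
theorem Fpa_cont (a : A) : Continuous (Fpa P a) := by
  have hper : Function.Periodic (fun x => P.f a x - x) 1 := by
    intro x
    show P.f a (x + 1) - (x + 1) = P.f a x - x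
    rw [P.f_add]
    ring
  have h1 : Fpa P a = hper.lift := by
    funext θ
    conv_rhs => rw [← BR.U.coe_cl θ]
    rw [Function.Periodic.lift_coe]
    rfl
  rw [h1]
  exact ((P.f_cont a).sub continuous_id).quotient_liftOn' _

theorem loc_Fp (v : I) (θ : Ci) : (loc P Q v).Fp θ =
    ∑ a, (if P.cur a = v then Q.q a / Q.qq v else 0) * Fpa P a θ := by
  have h1 : ∑ a, (if P.cur a = v then Q.q a / Q.qq v else 0) = 1 := by
    have h2 : ∑ a, (if P.cur a = v then Q.q a / Q.qq v else 0) = Q.qq v / Q.qq v := by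
      unfold Par.qq
      rw [Finset.sum_div]
      refine Finset.sum_congr rfl fun a _ => ?_
      split_ifs <;> ring
    rw [h2, div_self (Q.qq_ne v)]
  show (∑ a, (if P.cur a = v then Q.q a / Q.qq v else 0) * P.f a (cl θ)) - cl θ = _
  unfold Fpa
  simp only [mul_sub, Finset.sum_sub_distrib, ← Finset.sum_mul]
  rw [h1, one_mul]

omit [DecidableEq I] [Fintype A] in
/-- the collapse map on the annulus -/
theorem FolA_kap (a : A) (z : Ci × ℝ) :
    P.kap a (P.ν (P.cur a) z) = ((Fpa P a z.1 + cl z.1 : ℝ) : Ci) := by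
  have h1 : (z.1, z.2) = z := rfl
  have h2 := P.cross a (cl z.1) z.2
  rw [BR.U.coe_cl, h1] at h2
  rw [h2]
  congr 1
  show P.f a (cl z.1) = P.f a (cl z.1) - cl z.1 + cl z.1
  ring

omit [DecidableEq I] [Fintype A] in
/-- the difference of the collapse map -/
theorem FolA_diff (a : A) {z z' : Ci × ℝ}
    (h2 : |cl (z'.1 - z.1) + (Fpa P a z'.1 - Fpa P a z.1)| < 1 / 2) :
    cl (P.kap a (P.ν (P.cur a) z') - P.kap a (P.ν (P.cur a) z)) =
      cl (z'.1 - z.1) + (Fpa P a z'.1 - Fpa P a z.1) := by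
  have e : P.kap a (P.ν (P.cur a) z') - P.kap a (P.ν (P.cur a) z) =
      ((cl (z'.1 - z.1) + (Fpa P a z'.1 - Fpa P a z.1) : ℝ) : Ci) := by
    rw [FolA_kap P, FolA_kap P, AddCircle.coe_add, AddCircle.coe_add, AddCircle.coe_add,
      AddCircle.coe_sub, BR.U.coe_cl, BR.U.coe_cl, BR.U.coe_cl]
    abel
  rw [e]
  have h3 := abs_lt.1 h2
  exact BR.U.cl_coe ⟨by linarith [h3.1], h3.2⟩

/-- near a point of `ν v`: only the strips through the curve `v` count, and `GG = 0` -/
theorem DD_nu (v : I) {z z' : Y} (hu : (z.1.2 < -2 ∧ z'.1.2 < -2) ∨ (2 < z.1.2 ∧ 2 < z'.1.2))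
    (h2 : ∀ a, P.cur a = v → |cl (z'.1.1 - z.1.1) + (Fpa P a z'.1.1 - Fpa P a z.1.1)| < 1 / 2) :
    (if z.1.2 < 0 then 1 else Q.lam v) * DD P Q (nu P v z) (nu P v z') = EE (loc P Q v) z z' := by
  have hl : (loc P Q v).lam = Q.lam v := rfl
  have hq : (loc P Q v).q = Q.qq v := rfl
  have hlam := (Q.lam_pos v).ne'
  have hGG : ∀ z : Ci × ℝ, GG P Q (P.ν v z) = 0 := fun z => GG_zero P Q fun j w => P.out v z j w
  have hX : Q.qq v * (cl (z'.1.1 - z.1.1) + ((loc P Q v).Fp z'.1.1 - (loc P Q v).Fp z.1.1)) =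
      ∑ a, (if P.cur a = v then Q.q a * (cl (z'.1.1 - z.1.1) +
        (Fpa P a z'.1.1 - Fpa P a z.1.1)) else 0) := by
    have e1 : Q.qq v * cl (z'.1.1 - z.1.1) =
        ∑ a, (if P.cur a = v then Q.q a * cl (z'.1.1 - z.1.1) else 0) := by
      unfold Par.qq
      rw [Finset.sum_mul]
      refine Finset.sum_congr rfl fun a _ => ?_
      split_ifs <;> ring
    have e2 : ∀ θ, Q.qq v * (loc P Q v).Fp θ =
        ∑ a, (if P.cur a = v then Q.q a * Fpa P a θ else 0) := by
      intro θ
      rw [loc_Fp, Finset.mul_sum]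
      refine Finset.sum_congr rfl fun a _ => ?_
      split_ifs
      · have := Q.qq_ne v
        field_simp
      · ring
    rw [mul_add, mul_sub, e1, e2, e2, ← Finset.sum_sub_distrib, ← Finset.sum_add_distrib]
    refine Finset.sum_congr rfl fun a _ => ?_
    split_ifs <;> ring
  have hz : ∀ (a : A) (z : Ci × ℝ), v ≠ P.cur a → P.half a (P.ν v z) = 0 := by
    intro a z h
    rcases P.half_or a (P.ν v z) with h3 | h3
    · exact h3
    · rw [h3, P.other v a z h]
  rcases hu with ⟨a1, b1⟩ | ⟨a1, b1⟩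
  · have hs : ∑ a, (Q.q a * cl (P.kap a (P.ν v z'.1) - P.kap a (P.ν v z.1)) +
          Q.q a * (1 / Q.lam (P.cur a) - 1) * cl (P.half a (P.ν v z'.1) - P.half a (P.ν v z.1))) =
        ∑ a, (if P.cur a = v then Q.q a * (cl (z'.1.1 - z.1.1) +
        (Fpa P a z'.1.1 - Fpa P a z.1.1)) else 0) := by
      refine Finset.sum_congr rfl fun a _ => ?_
      split_ifs with h
      · have c1 : P.half a (P.ν v z.1) = 0 := by
          rw [← h]
          exact P.half_neg a z.1.1 z.1.2 (by linarith)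
        have c2 : P.half a (P.ν v z'.1) = 0 := by
          rw [← h]
          exact P.half_neg a z'.1.1 z'.1.2 (by linarith)
        have c3 := FolA_diff P a (h2 a h)
        rw [h] at c3
        rw [c1, c2, c3, sub_self, BR.U.cl_zero]
        ring
      · have h' : v ≠ P.cur a := fun e => h e.symm
        rw [P.other v a _ h', P.other v a _ h', hz a _ h', hz a _ h', sub_self, BR.U.cl_zero]
        ring
    have hD : DD P Q (nu P v z) (nu P v z') = cl (z'.2 - z.2) + Q.qq v * (cl (z'.1.1 - z.1.1) +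
        ((loc P Q v).Fp z'.1.1 - (loc P Q v).Fp z.1.1)) := by
      unfold DD nu
      rw [hX, ← hs, hGG, hGG]
      ring
    rw [hD, if_pos (by linarith), EE_left _ a1 b1, hq]
    ring
  · have hs : ∑ a, (Q.q a * cl (P.kap a (P.ν v z'.1) - P.kap a (P.ν v z.1)) +
          Q.q a * (1 / Q.lam (P.cur a) - 1) * cl (P.half a (P.ν v z'.1) - P.half a (P.ν v z.1))) =
        1 / Q.lam v * ∑ a, (if P.cur a = v then Q.q a * (cl (z'.1.1 - z.1.1) +
        (Fpa P a z'.1.1 - Fpa P a z.1.1)) else 0) := by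
      rw [Finset.mul_sum]
      refine Finset.sum_congr rfl fun a _ => ?_
      split_ifs with h
      · have c1 : P.half a (P.ν v z.1) = P.kap a (P.ν v z.1) := by
          rw [← h]
          exact P.half_pos a z.1.1 z.1.2 (by linarith)
        have c2 : P.half a (P.ν v z'.1) = P.kap a (P.ν v z'.1) := by
          rw [← h]
          exact P.half_pos a z'.1.1 z'.1.2 (by linarith)
        have c3 := FolA_diff P a (h2 a h)
        rw [h] at c3
        rw [c1, c2, c3, h]
        ring
      · have h' : v ≠ P.cur a := fun e => h e.symm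
        rw [P.other v a _ h', P.other v a _ h', hz a _ h', hz a _ h', sub_self, BR.U.cl_zero]
        ring
    have hD : DD P Q (nu P v z) (nu P v z') = cl (z'.2 - z.2) + 1 / Q.lam v *
        (Q.qq v * (cl (z'.1.1 - z.1.1) + ((loc P Q v).Fp z'.1.1 - (loc P Q v).Fp z.1.1))) := by
      unfold DD nu
      rw [hX, ← hs, hGG, hGG]
      ring
    rw [hD, if_neg (by linarith), EE_right _ a1 b1, hq, hl]
    field_simp

/-- the overlap (`DD_nu`, multiplication by a positive number) -/
theorem overlap (v : I) {z : Y} (hz : z ∈ Yr) (h : nu P v z ∈ Xo P) :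
    OrdEq z (fun w => DD P Q (nu P v z) (nu P v w)) (EE (loc P Q v) z) := by
  have hu : 2 < |z.1.2| := h v z.1 rfl
  have hsub : Continuous fun w : Y => w.1.1 - z.1.1 :=
    (continuous_fst.comp continuous_fst).sub continuous_const
  have hcl : ContinuousAt (fun w : Y => cl (w.1.1 - z.1.1)) z := by
    refine ContinuousAt.comp (g := cl) (f := fun w : Y => w.1.1 - z.1.1) ?_ hsub.continuousAt
    apply BR.U.cl_contAt'
    rw [sub_self, BR.U.cl_zero, abs_zero]
    norm_num
  have hFc : ∀ a, ContinuousAt (fun w : Y => Fpa P a w.1.1 - Fpa P a z.1.1) z := fun a =>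
    (((Fpa_cont P a).comp (continuous_fst.comp continuous_fst)).sub continuous_const).continuousAt
  have n2 : ∀ᶠ w in 𝓝 z, ∀ a, P.cur a = v →
      |cl (w.1.1 - z.1.1) + (Fpa P a w.1.1 - Fpa P a z.1.1)| < 1 / 2 := by
    rw [eventually_all]
    intro a
    have h1 : ∀ᶠ w in 𝓝 z, |cl (w.1.1 - z.1.1) + (Fpa P a w.1.1 - Fpa P a z.1.1)| < 1 / 2 := by
      refine (hcl.add (hFc a)).abs.eventually_lt continuousAt_const ?_
      show |cl (z.1.1 - z.1.1) + (Fpa P a z.1.1 - Fpa P a z.1.1)| < 1 / 2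
      rw [sub_self, BR.U.cl_zero, sub_self, add_zero, abs_zero]
      norm_num
    filter_upwards [h1] with w hw _
    exact hw
  have hco : ContinuousAt (fun w : Y => w.1.2) z :=
    (continuous_snd.comp continuous_fst).continuousAt
  have hc : (0 : ℝ) < if z.1.2 < 0 then 1 else Q.lam v := by
    split_ifs
    · exact one_pos
    · exact Q.lam_pos v
  have n3 : ∀ᶠ w in 𝓝 z, (z.1.2 < -2 ∧ w.1.2 < -2) ∨ (2 < z.1.2 ∧ 2 < w.1.2) := by
    rcases lt_abs.1 hu with a | a
    · exact (hco.eventually_const_lt a).mono fun w hw => Or.inr ⟨a, hw⟩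
    · have a' : z.1.2 < -2 := by linarith
      exact (hco.eventually_lt_const a').mono fun w hw => Or.inl ⟨a', hw⟩
  refine OrdEq.of_comp (fun s => (if z.1.2 < 0 then 1 else Q.lam v) * s)
    (fun s t hst => mul_lt_mul_of_pos_left hst hc) ?_
  filter_upwards [n2, n3] with w h2 h3
  exact (DD_nu P Q v h3 h2).symm

end Pool.Agent.H.MP_1611f1_gt.TQ
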