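import Pool.Agent.H.MP_1611f1_gt.TP.ModC
import Pool.Agent.H.MP_1611f1_gt.TP.Cht
import Pool.Agent.H.MP_1611f1_gt.TQ.FolA

/-!
Charts.
-/

namespace Pool.Agent.H.MP_1611f1_gt.TQ

open Topology Set Filter
open Pool.Agent.H.MP_1611f1_gt.BR.U (Ci cl yt hlf psi cu rmp ang)
open Pool.Agent.H.MP_1611f1_gt.LG (Cylinder solidTorus)
open Pool.Agent.H.MP_1611f1_gt.TP (Loc Y EE Yr EE_near EE_theta EE_t chart_t chartY_t chartY_theta chart_push)

variable {S : Type*} [TopologicalSpace S] {J I A : Type*} [DecidableEq J] [DecidableEq I]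
  [Fintype A] (P : Mul S J I A) (Q : Par P.cur) [Finite I]

/-- a chart near a point of the outer region -/
theorem fol_out [T2Space S] [Finite J] {y : S × Ci} (hy : y ∈ Xo P) : ∃ c ∈ AdCh P Q, y ∈ c.source := by
  obtain ⟨N, hN, hyN, hN1, hadd, hcont⟩ := DD_near P Q hy
  obtain ⟨c, hyc, hcN, hcv⟩ := chart_t P.E.flat hN hyN hcont (δ₀ := 1 / 2) (by norm_num) (by
    intro w hw w' hw' δ h0 h1 h2 h3
    have h4 := DD_t P Q (w := w) (w' := w') (δ := δ) (by rw [abs_of_pos h0]; exact h1) h2 h3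
    rw [hadd w hw w' hw'] at h4
    linarith)
  refine ⟨c, ⟨fun w hw => Or.inl (hN1 (hcN hw)), fun y' hy' => ?_⟩, hyc⟩
  have h1 : OrdEq y' (fun z => (c z).2) (DD P Q y') := by
    refine ⟨c.source, c.open_source.mem_nhds hy', fun z hz z' hz' => ?_⟩
    show (c z).2 < (c z').2 ↔ _
    rw [hcv z hz, hcv z' hz', hadd y' (hcN hy') z (hcN hz), hadd y' (hcN hy') z' (hcN hz'),
      sub_lt_sub_iff_right]
  refine ⟨fun _ => h1, ?_⟩
  rintro v z hz rfl
  exact (OrdEq.comp_cont (R := nu P v) (nu_emb P v).continuous.continuousAt h1).trans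
    (overlap P Q v hz (hN1 (hcN hy')))

/-- a chart of the model near a curve gives a chart of the foliation -/
theorem FolB_push (v : I) {z : Y} {N : Set Y} (hN1 : N ⊆ Yr)
    (hadd : ∀ w ∈ N, ∀ w' ∈ N,
      EE (loc P Q v) w w' = EE (loc P Q v) z w' - EE (loc P Q v) z w)
    {c : OpenPartialHomeomorph Y ((ℝ × ℝ) × ℝ)} (hz : z ∈ c.source) (hcN : c.source ⊆ N)
    (hcv : ∀ w ∈ c.source, (c w).2 = EE (loc P Q v) z w) :
    ∃ c ∈ AdCh P Q, nu P v z ∈ c.source := by
  obtain ⟨c', hz', hs, hv⟩ := chart_push (nu_emb P v) c hz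
  refine ⟨c', ⟨?_, ?_⟩, hz'⟩
  · rw [hs]
    rintro _ ⟨w, hw, rfl⟩
    exact Or.inr ⟨v, w, hN1 (hcN hw), rfl⟩
  · intro y' hy'
    rw [hs] at hy'
    obtain ⟨w, hw, rfl⟩ := hy'
    have h1 : OrdEq w (fun u => (c' (nu P v u)).2) (EE (loc P Q v) w) := by
      refine ⟨c.source, c.open_source.mem_nhds hw, fun u hu u' hu' => ?_⟩
      show (c' (nu P v u)).2 < (c' (nu P v u')).2 ↔ _
      rw [hv u hu, hv u' hu', hcv u hu, hcv u' hu', hadd w (hcN hw) u (hcN hu),
        hadd w (hcN hw) u' (hcN hu'), sub_lt_sub_iff_right]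
    refine ⟨fun h => ?_, ?_⟩
    · exact OrdEq.of_openMap (nu_emb P v).isOpenMap
        (h1.trans (overlap P Q v (hN1 (hcN hw)) h).symm)
    · intro v' z'' _ he
      have h2 : v' = v := P.disj v' v z''.1 w.1 (congrArg Prod.fst he)
      subst h2
      have h3 : z'' = w := (nu_emb P v').injective he
      rw [h3]
      exact h1

theorem FolB_cl : Continuous fun w : Y => |cl w.2| :=
  continuous_snd.norm.congr fun w => BR.U.norm_cl w.2

/-- a chart near a point of the inner region (`EE_theta` or `EE_t`, `chart_push`) -/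
theorem fol_inn [T2Space S] [Finite J] (v : I) {z : Y} (hz : z ∈ Yr) : ∃ c ∈ AdCh P Q, nu P v z ∈ c.source := by
  obtain ⟨N, hN, hzN, hN1, hadd, hcont⟩ := EE_near (loc P Q v) hz
  by_cases hcase : |z.1.2| < 2 ∧ |cl z.2| < 1 / 16
  · -- the direction of `θ`
    set N' : Set Y := N ∩ ({w | |w.1.2| < 2} ∩ {w | |cl w.2| < 1 / 16}) with hN'
    have hN'o : IsOpen N' :=
      hN.inter ((isOpen_lt continuous_fst.snd.abs continuous_const).inter
        (isOpen_lt FolB_cl continuous_const))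
    have hadd' : ∀ w ∈ N', ∀ w' ∈ N',
        EE (loc P Q v) w w' = EE (loc P Q v) z w' - EE (loc P Q v) z w :=
      fun w hw w' hw' => hadd w hw.1 w' hw'.1
    rcases lt_or_gt_of_ne (loc P Q v).q_ne with hq | hq
    · obtain ⟨c, hyc, hcN, hcv⟩ := chartY_theta (e := -1) (Or.inr rfl) hN'o (y := z)
        ⟨hzN, hcase.1, hcase.2⟩ (hcont.mono inter_subset_left) (δ₀ := 1 / 4) (by norm_num) (by
        intro w hw w' hw' δ h0 h1 h2 h3 h4
        have h5 : w.1.1 = w'.1.1 + (δ : Ci) := by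
          rw [h4, neg_one_mul, AddCircle.coe_neg]
          abel
        have h6 := EE_theta (loc P Q v) (z := w') (z' := w) h0 h1 hw'.2.1 hw'.2.2 h2.symm
          h3.symm h5
        rw [hadd' w' hw' w hw] at h6
        nlinarith [h6, hq])
      exact FolB_push P Q v (inter_subset_left.trans hN1) hadd' hyc hcN hcv
    · obtain ⟨c, hyc, hcN, hcv⟩ := chartY_theta (e := 1) (Or.inl rfl) hN'o (y := z)
        ⟨hzN, hcase.1, hcase.2⟩ (hcont.mono inter_subset_left) (δ₀ := 1 / 4) (by norm_num) (by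
        intro w hw w' hw' δ h0 h1 h2 h3 h4
        rw [one_mul] at h4
        have h6 := EE_theta (loc P Q v) (z := w) (z' := w') h0 h1 hw.2.1 hw.2.2 h2 h3 h4
        rw [hadd' w hw w' hw'] at h6
        have h7 := (mul_pos_iff_of_pos_left hq).1 h6
        linarith)
      exact FolB_push P Q v (inter_subset_left.trans hN1) hadd' hyc hcN hcv
  · -- the direction of `t`
    have hQ : 2 ≤ |z.1.2| ∨ 1 / 16 ≤ |cl z.2| := by
      rw [not_and_or, not_lt, not_lt] at hcase
      exact hcase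
    obtain ⟨N', δ₀, hN', hzN', -, hδ, hm⟩ := EE_t (loc P Q v) hz hQ
    have hadd' : ∀ w ∈ N ∩ N', ∀ w' ∈ N ∩ N',
        EE (loc P Q v) w w' = EE (loc P Q v) z w' - EE (loc P Q v) z w :=
      fun w hw w' hw' => hadd w hw.1 w' hw'.1
    obtain ⟨c, hyc, hcN, hcv⟩ := chartY_t (hN.inter hN') (y := z) ⟨hzN, hzN'⟩
      (hcont.mono inter_subset_left) hδ (by
      intro w hw w' hw' δ h0 h1 h2 h3
      have h6 := hm w hw.2 w' hw'.2 δ h0 h1 h2 h3
      rw [hadd' w hw w' hw'] at h6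
      linarith)
    exact FolB_push P Q v (inter_subset_left.trans hN1) hadd' hyc hcN hcv

end Pool.Agent.H.MP_1611f1_gt.TQ
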