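import Pool.Agent.H.MP_1611f1_gt.TQ.Fin

/-!
Germs of the foliation.
-/

namespace Pool.Agent.H.MP_1611f1_gt.TQ

open Topology Set Filter
open Pool.Agent.H.MP_1611f1_gt.BR.U (Ci cl yt hlf psi cu rmp ang)
open Pool.Agent.H.MP_1611f1_gt.LG (Cylinder solidTorus Drilled)
open Pool.Agent.H.MP_1611f1_gt.TP (Loc Y EE Yr)
open Pool.Agent.H.MP_1611f1_gt.G (Ended MTorus)
open Pool.Agent.H.MP_1611f1_gt.TW (Fam Cmp HasChart)

variable {S : Type} [TopologicalSpace S] {J I A : Type} [DecidableEq J] [DecidableEq I]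
  [Fintype A] {P : Mul S J I A} {M : Type} [TopologicalSpace M] {T : Ended M (J ⊕ I)}
  [T2Space S] [Finite I] [Finite J] {G : Geo P T} {Q : Par P.cur}

variable {F : Foliation M} (hF : Isf G Q F)

omit [DecidableEq J] [DecidableEq I] [Fintype A] [T2Space S] [Finite I] [Finite J] in
/-- an iterate of `phi` at a fixed point -/
theorem Germ_zpow {phi : S ≃ₜ S} {x : S} (h : phi x = x) (k : ℤ) : (phi ^ k) x = x := by
  have hinv : phi⁻¹ x = x := by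
    have h1 : phi⁻¹ (phi x) = x := phi.symm_apply_apply x
    rwa [h] at h1
  induction k using Int.induction_on with
  | zero => rfl
  | succ k ih =>
    rw [zpow_add_one, Homeomorph.mul_apply, h, ih]
  | pred k ih =>
    rw [zpow_sub_one, Homeomorph.mul_apply, hinv, ih]

/-- integers vanish in the circle -/
theorem Germ_int (t : ℝ) (k : ℤ) : ((t - k : ℝ) : Ci) = (t : Ci) := by
  have h1 : ((k : ℝ) : Ci) = 0 :=
    (AddCircle.coe_eq_zero_iff (1 : ℝ) (x := (k : ℝ))).2 ⟨k, by simp⟩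
  rw [AddCircle.coe_sub, h1, sub_zero]

omit [T2Space S] [Finite I] [Finite J] in
/-- a chart of `AdCh` at a point of the outer region -/
theorem Germ_DD [T2Space S] [Finite I] [Finite J] {c0 : OpenPartialHomeomorph (S × Ci) ((ℝ × ℝ) × ℝ)}
    (hc0 : c0 ∈ AdCh P Q) {y : S × Ci} (hy : y ∈ Xo P) (hs : y ∈ c0.source) :
    ∃ N ∈ 𝓝 y, ∀ a ∈ N, ∀ b ∈ N, ((c0 a).2 < (c0 b).2 ↔ 0 < DD P Q a b) := by
  obtain ⟨N1, hN1, h1⟩ := (hc0.2 y hs).out hy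
  obtain ⟨N2, hN2, hyN2, -, hadd, -⟩ := DD_near P Q hy
  refine ⟨N1 ∩ N2, inter_mem hN1 (hN2.mem_nhds hyN2), fun a ha b hb => ?_⟩
  rw [h1 a ha.1 b hb.1, hadd a ha.2 b hb.2, sub_pos]

omit [T2Space S] [Finite I] [Finite J] in
/-- a chart of `AdCh` at a point near a curve -/
theorem Germ_EE {c0 : OpenPartialHomeomorph (S × Ci) ((ℝ × ℝ) × ℝ)}
    (hc0 : c0 ∈ AdCh P Q) (v : I) {z : Y} (hz : z ∈ Yr) (hs : nu P v z ∈ c0.source) :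
    ∃ N ∈ 𝓝 z, ∀ a ∈ N, ∀ b ∈ N,
      ((c0 (nu P v a)).2 < (c0 (nu P v b)).2 ↔ 0 < EE (loc P Q v) a b) := by
  obtain ⟨N1, hN1, h1⟩ := (hc0.2 _ hs).inn v z hz rfl
  obtain ⟨N2, hN2, hyN2, -, hadd, -⟩ := TP.EE_near (loc P Q v) hz
  refine ⟨N1 ∩ N2, inter_mem hN1 (hN2.mem_nhds hyN2), fun a ha b hb => ?_⟩
  have h2 := h1 a ha.1 b hb.1
  rw [h2, hadd a ha.2 b hb.2, sub_pos]

include hF in
/-- the families `A` and `B` -/
theorem Germ_AB {c : OpenPartialHomeomorph M ((ℝ × ℝ) × ℝ)} (hc : c ∈ F.charts) {m : M}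
    (hm : m ∈ c.source) {w : S × ℝ} (hw : G.p m = G.Mt.p w)
    (h : |w.2| < 1 / 2 ∨ ((0 < w.2 ∧ w.2 < 1) ∧ Idn G.phi w.1))
    {c0 : OpenPartialHomeomorph (S × Ci) ((ℝ × ℝ) × ℝ)} (hc0 : c0 ∈ AdCh P Q)
    (hs : pt w ∈ c0.source) :
    ∃ V ∈ 𝓝 w, ∀ z ∈ V, ∀ z' ∈ V, ∀ n n' : M, G.p n = G.Mt.p z → G.p n' = G.Mt.p z' →
      ((c n).2 < (c n').2 ↔ (c0 (pt z)).2 < (c0 (pt z')).2) := by
  rcases h with h | h
  · exact hF c hc (Sum.inl (Sum.inl ⟨c0, hc0⟩)) w ⟨h, hs⟩ m hm hw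
  · exact hF c hc (Sum.inl (Sum.inr ⟨c0, hc0⟩)) w ⟨h.1, h.2, hs⟩ m hm hw

include hF in
theorem Germ_out {c : OpenPartialHomeomorph M ((ℝ × ℝ) × ℝ)} (hc : c ∈ F.charts) {m : M}
    (hm : m ∈ c.source) {w : S × ℝ} (hw : G.p m = G.Mt.p w)
    (h : |w.2| < 1 / 2 ∨ ((0 < w.2 ∧ w.2 < 1) ∧ Idn G.phi w.1)) (ho : w.1 ∈ So P) :
    ∃ V ∈ 𝓝 w, ∀ z ∈ V, ∀ z' ∈ V, ∀ n n' : M, G.p n = G.Mt.p z → G.p n' = G.Mt.p z' →
      ((c n).2 < (c n').2 ↔ 0 < DD P Q (pt z) (pt z')) := by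
  have hy : pt w ∈ Xo P := ho
  obtain ⟨c0, hc0, hs⟩ := fol_out P Q hy
  obtain ⟨V, hV, h1⟩ := Germ_AB hF hc hm hw h hc0 hs
  obtain ⟨N, hN, h2⟩ := Germ_DD hc0 hy hs
  refine ⟨V ∩ pt ⁻¹' N, inter_mem hV (Fm_pt_cont.continuousAt hN),
    fun z hz z' hz' n n' hn hn' => ?_⟩
  rw [h1 z hz.1 z' hz'.1 n n' hn hn', h2 _ hz.2 _ hz'.2]

include hF in
theorem Germ_inn {c : OpenPartialHomeomorph M ((ℝ × ℝ) × ℝ)} (hc : c ∈ F.charts) {m : M}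
    (hm : m ∈ c.source) (v : I) {w : (Ci × ℝ) × ℝ} (hw : G.p m = G.Mt.p (P.ν v w.1, w.2))
    (h : |w.2| < 1 / 2 ∨ ((0 < w.2 ∧ w.2 < 1) ∧ Idn G.phi (P.ν v w.1)))
    (hY : ((w.1, (w.2 : Ci)) : Y) ∈ Yr) :
    ∃ V ∈ 𝓝 w, ∀ z ∈ V, ∀ z' ∈ V, ∀ n n' : M, G.p n = G.Mt.p (P.ν v z.1, z.2) →
      G.p n' = G.Mt.p (P.ν v z'.1, z'.2) →
      ((c n).2 < (c n').2 ↔ 0 < EE (loc P Q v) (z.1, (z.2 : Ci)) (z'.1, (z'.2 : Ci))) := by
  obtain ⟨c0, hc0, hs⟩ := fol_inn P Q v hY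
  have hs' : pt (P.ν v w.1, w.2) ∈ c0.source := hs
  obtain ⟨V, hV, h1⟩ := Germ_AB hF hc hm hw h hc0 hs'
  obtain ⟨N, hN, h2⟩ := Germ_EE hc0 v hY hs
  have hk : Continuous fun z : (Ci × ℝ) × ℝ => ((P.ν v z.1, z.2) : S × ℝ) :=
    ((P.emb v).continuous.comp continuous_fst).prodMk continuous_snd
  have hy : Continuous fun z : (Ci × ℝ) × ℝ => ((z.1, (z.2 : Ci)) : Y) :=
    continuous_fst.prodMk ((AddCircle.continuous_mk' (1 : ℝ)).comp continuous_snd)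
  refine ⟨(fun z : (Ci × ℝ) × ℝ => ((P.ν v z.1, z.2) : S × ℝ)) ⁻¹' V ∩
    (fun z : (Ci × ℝ) × ℝ => ((z.1, (z.2 : Ci)) : Y)) ⁻¹' N,
    inter_mem (hk.continuousAt hV) (hy.continuousAt hN), fun z hz z' hz' n n' hn hn' => ?_⟩
  exact (h1 _ hz.1 _ hz'.1 n n' hn hn').trans (h2 _ hz.2 _ hz'.2)

include hF in
/-- Germ in the outer region, `|t| < 1/2` (family `A` with a chart from `fol_out`; `DD_near`) -/
theorem germ_out {c : OpenPartialHomeomorph M ((ℝ × ℝ) × ℝ)} (hc : c ∈ F.charts) {m : M} (hm : m ∈ c.source)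
    {w : S × ℝ} (hw : G.p m = G.Mt.p w) (ht : |w.2| < 1 / 2) (ho : w.1 ∈ So P) :
    ∃ V ∈ 𝓝 w, ∀ z ∈ V, ∀ z' ∈ V, ∀ n n' : M, G.p n = G.Mt.p z → G.p n' = G.Mt.p z' →
      ((c n).2 < (c n').2 ↔ 0 < DD P Q (pt z) (pt z')) :=
  Germ_out hF hc hm hw (Or.inl ht) ho

include hF in
/-- Germ near the curve `v`, `|t| < 1/2` (family `A` with a chart from `fol_inn`; `TP.EE_near`; the map
`z ↦ (ν v z.1, z.2)` is an open embedding) -/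
theorem germ_inn {c : OpenPartialHomeomorph M ((ℝ × ℝ) × ℝ)} (hc : c ∈ F.charts) {m : M} (hm : m ∈ c.source)
    (v : I) {w : (Ci × ℝ) × ℝ} (hw : G.p m = G.Mt.p (P.ν v w.1, w.2)) (ht : |w.2| < 1 / 2)
    (hY : ((w.1, (w.2 : Ci)) : Y) ∈ Yr) :
    ∃ V ∈ 𝓝 w, ∀ z ∈ V, ∀ z' ∈ V, ∀ n n' : M, G.p n = G.Mt.p (P.ν v z.1, z.2) →
      G.p n' = G.Mt.p (P.ν v z'.1, z'.2) →
      ((c n).2 < (c n').2 ↔ 0 < EE (loc P Q v) (z.1, (z.2 : Ci)) (z'.1, (z'.2 : Ci))) :=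
  Germ_inn hF hc hm v hw (Or.inl ht) hY

include hF in
/-- Germ in the outer region at a point near which `phi` is the identity, all times (choose an integer `k` with
`|t - k| ≤ 1/2`; `Mt.p (x', t') = Mt.p (x', t' - k)` near; family `A` or, for `t - k = ± 1/2`, family `B`) -/
theorem germ_idn {c : OpenPartialHomeomorph M ((ℝ × ℝ) × ℝ)} (hc : c ∈ F.charts) {m : M} (hm : m ∈ c.source)
    {w : S × ℝ} (hw : G.p m = G.Mt.p w) (hi : Idn G.phi w.1) (ho : w.1 ∈ So P) :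
    ∃ V ∈ 𝓝 w, ∀ z ∈ V, ∀ z' ∈ V, ∀ n n' : M, G.p n = G.Mt.p z → G.p n' = G.Mt.p z' →
      ((c n).2 < (c n').2 ↔ 0 < DD P Q (pt z) (pt z')) := by
  obtain ⟨x, t⟩ := w
  set k : ℤ := ⌊t⌋ with hk
  have h0 : 0 ≤ t - k := by
    have := Int.floor_le t
    rw [← hk] at this
    linarith
  have h1 : t - k < 1 := by
    have := Int.lt_floor_add_one t
    rw [← hk] at this
    linarith
  have hsh : ∀ z : S × ℝ, G.phi z.1 = z.1 → G.Mt.p z = G.Mt.p (z.1, z.2 - k) := by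
    rintro ⟨x', t'⟩ hx'
    refine ((G.Mt.p_eq _ _ _ _).2 ⟨k, by ring, ?_⟩).symm
    exact (Germ_zpow hx' k).symm
  have hi' : Idn G.phi x := hi
  have hw' : G.p m = G.Mt.p ((x, t - k) : S × ℝ) := by
    rw [hw]
    exact hsh (x, t) hi'.self_of_nhds
  have hcase : |((x, t - k) : S × ℝ).2| < 1 / 2 ∨
      ((0 < ((x, t - k) : S × ℝ).2 ∧ ((x, t - k) : S × ℝ).2 < 1) ∧
        Idn G.phi ((x, t - k) : S × ℝ).1) := by
    rcases h0.eq_or_lt with h2 | h2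
    · left
      show |t - k| < 1 / 2
      rw [← h2, abs_zero]
      norm_num
    · exact Or.inr ⟨⟨h2, h1⟩, hi'⟩
  obtain ⟨V, hV, h2⟩ := Germ_out hF hc hm hw' hcase ho
  have hcont : Continuous fun z : S × ℝ => ((z.1, z.2 - k) : S × ℝ) :=
    continuous_fst.prodMk (continuous_snd.sub continuous_const)
  have hfix : ∀ᶠ z : S × ℝ in 𝓝 (x, t), G.phi z.1 = z.1 :=
    (continuous_fst.continuousAt (x := (x, t))).eventually hi'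
  have hpt : ∀ z : S × ℝ, pt ((z.1, z.2 - k) : S × ℝ) = pt z := by
    rintro ⟨x', t'⟩
    show ((x', ((t' - k : ℝ) : Ci)) : S × Ci) = (x', (t' : Ci))
    rw [Germ_int]
  refine ⟨(fun z : S × ℝ => ((z.1, z.2 - k) : S × ℝ)) ⁻¹' V ∩ {z | G.phi z.1 = z.1},
    inter_mem (hcont.continuousAt (x := (x, t)) hV) hfix, fun z hz z' hz' n n' hn hn' => ?_⟩
  have h3 := h2 _ hz.1 _ hz'.1 n n' (hn.trans (hsh z hz.2)) (hn'.trans (hsh z' hz'.2))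
  rw [hpt, hpt] at h3
  exact h3

include hF in
/-- Germ near the curve `v` at the time `1/2`, at a point near which `phi` is the identity (family `B`) -/
theorem germ_half_inn {c : OpenPartialHomeomorph M ((ℝ × ℝ) × ℝ)} (hc : c ∈ F.charts) {m : M} (hm : m ∈ c.source)
    (v : I) {z₀ : Ci × ℝ} (hw : G.p m = G.Mt.p (P.ν v z₀, 1 / 2)) (hi : Idn G.phi (P.ν v z₀)) (hz : |z₀.2| < 12) :
    ∃ V ∈ 𝓝 (z₀, (1 / 2 : ℝ)), ∀ z ∈ V, ∀ z' ∈ V, ∀ n n' : M, G.p n = G.Mt.p (P.ν v z.1, z.2) →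
      G.p n' = G.Mt.p (P.ν v z'.1, z'.2) →
      ((c n).2 < (c n').2 ↔ 0 < EE (loc P Q v) (z.1, (z.2 : Ci)) (z'.1, (z'.2 : Ci))) := by
  refine Germ_inn hF hc hm v (w := (z₀, (1 / 2 : ℝ))) hw
    (Or.inr ⟨⟨by norm_num, by norm_num⟩, hi⟩) ⟨hz, ?_⟩
  show 1 / 1024 < (z₀.2 / 32) ^ 2 + cl (((1 / 2 : ℝ)) : Ci) ^ 2
  have h3 : cl (((1 / 2 : ℝ)) : Ci) = -1 / 2 := by
    have h4 : (((1 / 2 : ℝ)) : Ci) = ((-1 / 2 : ℝ) : Ci) := by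
      rw [← Germ_int (1 / 2) 1]
      congr 1
      norm_num
    rw [h4, BR.U.cl_coe ⟨le_rfl, by norm_num⟩]
  rw [h3]
  nlinarith [sq_nonneg (z₀.2 / 32)]

include hF in
/-- Germ at the time `1/2` at a point near which `phi` is not the identity (family `C`) -/
theorem germ_half {c : OpenPartialHomeomorph M ((ℝ × ℝ) × ℝ)} (hc : c ∈ F.charts) {m : M} (hm : m ∈ c.source)
    {x : S} (hw : G.p m = G.Mt.p (x, 1 / 2)) (hi : ¬ Idn G.phi x) :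
    ∃ i j, ∃ V ∈ 𝓝 (x, (1 / 2 : ℝ)), ∀ z ∈ V, ∀ z' ∈ V, ∀ n n' : M, G.p n = G.Mt.p z → G.p n' = G.Mt.p z' →
      ((c n).2 < (c n').2 ↔ fC P Q G.phi i j z < fC P Q G.phi i j z') := by
  have hf : Flat P x := (G.idn x).resolve_left hi
  have hf' : Flat P (G.phi x) := by
    refine (G.idn (G.phi x)).resolve_left fun h3 => hi ?_
    have h4 : G.phi (G.phi x) = G.phi x := h3.self_of_nhds
    have h5 : G.phi x = x := G.phi.injective h4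
    rw [h5] at h3
    exact h3
  obtain ⟨i, hi1⟩ := dom_cover P x
  obtain ⟨j, hj1⟩ := dom_cover P (G.phi x)
  refine ⟨i, j, ?_⟩
  refine hF c hc (Sum.inr (i, j)) (x, (1 / 2 : ℝ)) ⟨?_, hf, hf', hi1, hj1⟩ m hm hw
  show |(1 / 2 : ℝ) - 1 / 2| < 1 / 4
  rw [sub_self, abs_zero]
  norm_num

end Pool.Agent.H.MP_1611f1_gt.TQ
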