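import Pool.Agent.H.MP_1611f1_gt.TQ.Tau
import Pool.Agent.H.MP_1611f1_gt.G.Neg

/-!
The detected covectors.
-/

namespace Pool.Agent.H.MP_1611f1_gt.TQ

open Topology Set Filter
open Pool.Agent.H.MP_1611f1_gt.G (Ended Linear Detected)

variable {S : Type} [TopologicalSpace S] {J I A : Type} [DecidableEq J] [DecidableEq I]
  [Fintype A] {P : Mul S J I A} {M : Type} [TopologicalSpace M] {T : Ended M (J ⊕ I)}
  [T2Space S] [Finite I] [Finite J]

/-- **The foliations** (`exists_Isf`, `taut`, `lin_old`, `lin_res`; `OrdEq.mul_left`, see `TP.two_detected`) -/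
theorem mul_detected (G : Geo P T) (Q : Par P.cur)
    (hr : ∀ x ∈ Fr P, ∃ j z, JoinedIn (Fr P) x (P.E.collar j z)) (x y : J ⊕ I → ℝ)
    (hJ : ∀ j, 0 < y (Sum.inl j) ∧ x (Sum.inl j) = sl P Q j * y (Sum.inl j))
    (hI : ∀ v, ∃ c : ℝ, 0 < c ∧ c * x (Sum.inr v) = Q.qq v ∧ c * y (Sum.inr v) = Q.lam v - 1) :
    Detected T x y := by
  obtain ⟨F, hF⟩ := exists_Isf G Q
  refine ⟨F, taut hF hr, ?_⟩
  rintro (j | v) z hz c hc hs
  · have h := lin_old hF j z hz c hc hs
    refine (h.mul_left (hJ j).1).congr (Eventually.of_forall fun w => rfl)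
      (Eventually.of_forall fun w => ?_)
    show x (Sum.inl j) * w.1 + y (Sum.inl j) * w.2.2 = y (Sum.inl j) * (sl P Q j * w.1 + w.2.2)
    rw [(hJ j).2]
    ring
  · obtain ⟨c', hc', h1, h2⟩ := hI v
    have h := lin_res hF v z hz c hc hs
    refine (h.mul_left (inv_pos.2 hc')).congr (Eventually.of_forall fun w => rfl)
      (Eventually.of_forall fun w => ?_)
    show x (Sum.inr v) * w.1 + y (Sum.inr v) * w.2.2 =
      c'⁻¹ * (Q.qq v * w.1 + (Q.lam v - 1) * w.2.2)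
    rw [← h1, ← h2]
    field_simp

end Pool.Agent.H.MP_1611f1_gt.TQ
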