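import Pool.Agent.H.MP_1611f1_gt.TP.Two

/-!
Definitions: surfaces with several ends, curves at the time `0`, and several strips through every
curve. The local model near a curve is that of `TP`.
-/

namespace Pool.Agent.H.MP_1611f1_gt.TQ

open Topology Set Filter
open Pool.Agent.H.MP_1611f1_gt.BR.U (Ci cl yt hlf psi cu rmp ang)
open Pool.Agent.H.MP_1611f1_gt.LG (Cylinder solidTorus)
open Pool.Agent.H.MP_1611f1_gt.TP (Loc Y EE Yr)

/-- A surface with ends `j ∈ J`, curves `v ∈ I` (with disjoint annuli `ν v`), and strips `a ∈ A`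
(collapse maps `kap a`): the strip `a` crosses the annulus of the curve `cur a`, once, and no other
one; `half a` is its part on the side `u > 0`, which goes to the end `hd a`; the other part goes to
the end `tl a`. `φ`, `χ` are lifts of `half a`, `kap a` at the ends. -/
structure Mul (S : Type*) [TopologicalSpace S] (J I A : Type*) [DecidableEq J] where
  E : Surf S J
  cur : A → I
  tl : A → J
  hd : A → J
  kap : A → C(S, Ci)
  half : A → S → Ci
  ν : I → Ci × ℝ → S
  emb : ∀ v, IsOpenEmbedding (ν v)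
  out : ∀ v z j w, ν v z ≠ E.collar j w
  disj : ∀ v v' z z', ν v z = ν v' z' → v = v'
  f : A → ℝ → ℝ
  f_cont : ∀ a, Continuous (f a)
  mono : ∀ a, Monotone (f a)
  f_add : ∀ a θ, f a (θ + 1) = f a θ + 1
  cross : ∀ a (θ u : ℝ), kap a (ν (cur a) ((θ : Ci), u)) = (f a θ : Ci)
  other : ∀ v a z, v ≠ cur a → kap a (ν v z) = 0
  half_or : ∀ a x, half a x = 0 ∨ half a x = kap a x
  half_cont : ∀ a x, (∀ θ, x ≠ ν (cur a) (θ, 0)) → ContinuousAt (half a) x
  half_pos : ∀ a θ u, 0 < u → half a (ν (cur a) (θ, u)) = kap a (ν (cur a) (θ, u))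
  half_neg : ∀ a θ u, u < 0 → half a (ν (cur a) (θ, u)) = 0
  φ : A → J → ℝ → ℝ
  φ_cont : ∀ a j, Continuous (φ a j)
  φ_add : ∀ a j θ, φ a j (θ + 1) = φ a j θ - if hd a = j then 1 else 0
  φ_end : ∀ a j (θ : ℝ) r, half a (E.collar j ((θ : Ci), r)) = (φ a j θ : Ci)
  χ : A → J → ℝ → ℝ
  χ_cont : ∀ a j, Continuous (χ a j)
  χ_add : ∀ a j θ, χ a j (θ + 1) =
    χ a j θ + (if tl a = j then 1 else 0) - if hd a = j then 1 else 0
  χ_end : ∀ a j (θ : ℝ) r, kap a (E.collar j ((θ : Ci), r)) = (χ a j θ : Ci)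

/-- the parameters: the coefficients `q a` of the strips (those of the strips through one curve have
the same sign, and they are not all zero), and the factors `lam v` of the curves -/
structure Par {A I : Type*} (cur : A → I) where
  q : A → ℝ
  lam : I → ℝ
  same : ∀ a a', cur a = cur a' → 0 ≤ q a * q a'
  ne : ∀ v, ∃ a, cur a = v ∧ q a ≠ 0
  lam_pos : ∀ v, 0 < lam v

section

variable {S : Type*} [TopologicalSpace S] {J I A : Type*} [DecidableEq J] [DecidableEq I]
  [Fintype A]

/-- the coefficient of the curve `v` -/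
noncomputable def Par.qq {cur : A → I} (Q : Par cur) (v : I) : ℝ := ∑ a, if cur a = v then Q.q a else 0

theorem Par.qq_ne {cur : A → I} (Q : Par cur) (v : I) : Q.qq v ≠ 0 := by
  obtain ⟨a, ha, hq⟩ := Q.ne v
  have h1 : Q.q a * Q.qq v = ∑ a', if cur a' = v then Q.q a * Q.q a' else 0 := by
    unfold Par.qq
    rw [Finset.mul_sum]
    refine Finset.sum_congr rfl fun a' _ => ?_
    split_ifs <;> ring
  have h2 : 0 < Q.q a * Q.qq v := by
    rw [h1]
    refine Finset.sum_pos' (fun a' _ => ?_) ⟨a, Finset.mem_univ _, ?_⟩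
    · split_ifs with h
      · exact Q.same a a' (ha.trans h.symm)
      · exact le_rfl
    · rw [if_pos ha]
      exact mul_self_pos.2 hq
  intro h
  rw [h, mul_zero] at h2
  exact lt_irrefl _ h2

/-- the weight of the strip `a` among the strips through its curve -/
theorem Par.wt_nonneg {cur : A → I} (Q : Par cur) (a : A) : 0 ≤ Q.q a / Q.qq (cur a) := by
  have h1 : 0 ≤ Q.q a * Q.qq (cur a) := by
    have h2 : Q.q a * Q.qq (cur a) = ∑ a', if cur a' = cur a then Q.q a * Q.q a' else 0 := by
      unfold Par.qq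
      rw [Finset.mul_sum]
      refine Finset.sum_congr rfl fun a' _ => ?_
      split_ifs <;> ring
    rw [h2]
    refine Finset.sum_nonneg fun a' _ => ?_
    split_ifs with h
    · exact Q.same a a' h.symm
    · exact le_rfl
  have h3 : Q.q a / Q.qq (cur a) = Q.q a * Q.qq (cur a) / (Q.qq (cur a)) ^ 2 := by
    have := Q.qq_ne (cur a)
    field_simp
  rw [h3]
  exact div_nonneg h1 (sq_nonneg _)

variable (P : Mul S J I A) (Q : Par P.cur)

/-- the local data of the curve `v`: `f` is the convex combination of the `f a` -/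
noncomputable def loc (v : I) : Loc where
  q := Q.qq v
  lam := Q.lam v
  f := fun θ => ∑ a, (if P.cur a = v then Q.q a / Q.qq v else 0) * P.f a θ
  q_ne := Q.qq_ne v
  lam_pos := Q.lam_pos v
  f_cont := continuous_finsetSum _ fun a _ => continuous_const.mul (P.f_cont a)
  mono := fun θ θ' h => Finset.sum_le_sum fun a _ => by
    split_ifs with hv
    · refine mul_le_mul_of_nonneg_left (P.mono a h) ?_
      rw [← hv]
      exact Q.wt_nonneg a
    · rw [zero_mul, zero_mul]
  f_add := fun θ => by
    have h1 : ∑ a, (if P.cur a = v then Q.q a / Q.qq v else 0) = 1 := by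
      have h2 : ∑ a, (if P.cur a = v then Q.q a / Q.qq v else 0) = Q.qq v / Q.qq v := by
        unfold Par.qq
        rw [Finset.sum_div]
        refine Finset.sum_congr rfl fun a _ => ?_
        split_ifs <;> ring
      rw [h2, div_self (Q.qq_ne v)]
    simp only [P.f_add, mul_add, mul_one, Finset.sum_add_distrib]
    rw [h1]

/-- the slope at the end `j` -/
noncomputable def sl (j : J) : ℝ := ∑ a, Q.q a * ((if P.tl a = j then 1 else 0) -
  (if P.hd a = j then 1 else 0) / Q.lam (P.cur a))

/-- the lift of the transverse function at the end `j`; `BB (θ + 1) = BB θ + sl` -/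
noncomputable def BB (j : J) (θ : ℝ) : ℝ :=
  ∑ a, (Q.q a * P.χ a j θ + Q.q a * (1 / Q.lam (P.cur a) - 1) * P.φ a j θ)

open Classical in
/-- the correction in the collars -/
noncomputable def GG (x : S) : ℝ :=
  if h : ∃ j z, P.E.collar j z = x then
    (1 - LS.cut (h.choose_spec.choose.2 : ℝ)) *
      (sl P Q h.choose * cl h.choose_spec.choose.1 - BB P Q h.choose (cl h.choose_spec.choose.1))
  else 0

/-- the transverse coordinate of `w'` minus the transverse coordinate of `w`, outside -/
noncomputable def DD (w w' : S × Ci) : ℝ :=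
  cl (w'.2 - w.2) + ∑ a, (Q.q a * cl (P.kap a w'.1 - P.kap a w.1) +
    Q.q a * (1 / Q.lam (P.cur a) - 1) * cl (P.half a w'.1 - P.half a w.1)) + (GG P Q w'.1 - GG P Q w.1)

/-- the outer region of the surface -/
def So : Set S := {x | ∀ v z, P.ν v z = x → 2 < |z.2|}

/-- the outer region -/
def Xo : Set (S × Ci) := {w | ∀ v z, P.ν v z = w.1 → 2 < |z.2|}

/-- the coordinates near the curve `v` -/
def nu (v : I) (z : Y) : S × Ci := (P.ν v z.1, z.2)

/-- `g` is a transverse function of the foliation near `y` -/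
structure Adp (y : S × Ci) (g : S × Ci → ℝ) : Prop where
  out : y ∈ Xo P → OrdEq y g (DD P Q y)
  inn : ∀ v z, z ∈ Yr → nu P v z = y → OrdEq z (fun w => g (nu P v w)) (EE (loc P Q v) z)

/-- the region of the foliation -/
def Xd : Set (S × Ci) := {y | y ∈ Xo P ∨ ∃ v z, z ∈ Yr ∧ nu P v z = y}

/-- the charts of the foliation -/
def AdCh : Set (OpenPartialHomeomorph (S × Ci) ((ℝ × ℝ) × ℝ)) :=
  {c | c.source ⊆ Xd P ∧ ∀ y ∈ c.source, Adp P Q y (fun z => (c z).2)}

end

end Pool.Agent.H.MP_1611f1_gt.TQ
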