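import Pool.Agent.H.MP_1611f1_gt.TQ.Mul
import Pool.Agent.H.MP_1611f1_gt.LS.FnA

/-!
The outer region: the correction in the collars.
-/

namespace Pool.Agent.H.MP_1611f1_gt.TQ

open Topology Set Filter
open Pool.Agent.H.MP_1611f1_gt.BR.U (Ci cl yt hlf psi cu rmp ang)
open Pool.Agent.H.MP_1611f1_gt.LG (Cylinder solidTorus)
open Pool.Agent.H.MP_1611f1_gt.TP (Loc Y EE Yr)

variable {S : Type*} [TopologicalSpace S] {J I A : Type*} [DecidableEq J] [DecidableEq I]
  [Fintype A] (P : Mul S J I A) (Q : Par P.cur)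

theorem BB_cont (j : J) : Continuous (BB P Q j) := by
  unfold BB
  refine continuous_finsetSum _ fun v _ => ?_
  exact (continuous_const.mul (P.χ_cont v j)).add (continuous_const.mul (P.φ_cont v j))

theorem BB_add (j : J) (θ : ℝ) : BB P Q j (θ + 1) = BB P Q j θ + sl P Q j := by
  unfold BB sl
  rw [← Finset.sum_add_distrib]
  refine Finset.sum_congr rfl fun v _ => ?_
  rw [P.χ_add, P.φ_add]
  ring

/-- the periodic function in the correction -/
private noncomputable def OutA_f (j : J) (θ : ℝ) : ℝ := sl P Q j * θ - BB P Q j θ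

private theorem OutA_per (j : J) : Function.Periodic (OutA_f P Q j) 1 := by
  intro θ
  unfold OutA_f
  rw [BB_add]
  ring

private theorem OutA_cont (j : J) : Continuous (OutA_f P Q j) :=
  (continuous_const.mul continuous_id).sub (BB_cont P Q j)

private theorem OutA_cl (j : J) (θ : Ci) : OutA_f P Q j (cl θ) = (OutA_per P Q j).lift θ := by
  conv_rhs => rw [← Pool.Agent.H.MP_1611f1_gt.BR.U.coe_cl θ]
  rw [Function.Periodic.lift_coe]

private theorem OutA_lift_cont (j : J) : Continuous (OutA_per P Q j).lift :=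
  (OutA_cont P Q j).quotient_liftOn' _

private theorem OutA_GG (j : J) (z : AddCircle (1 : ℝ) × Ioo (1 : ℝ) 2) :
    GG P Q (P.E.collar j z) = (1 - LS.cut (z.2 : ℝ)) * (OutA_per P Q j).lift z.1 := by
  have h : ∃ j' z', P.E.collar j' z' = P.E.collar j z := ⟨j, z, rfl⟩
  have h1 := h.choose_spec.choose_spec
  have h2 : h.choose = j := P.E.disj _ _ _ _ h1
  have h4 : ∀ j' z', P.E.collar j' z' = P.E.collar j z → z' = z := by
    intro j' z' he
    obtain rfl := P.E.disj _ _ _ _ he
    exact (P.E.emb _).injective he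
  have h3 : h.choose_spec.choose = z := h4 _ _ h1
  unfold GG
  rw [dif_pos h, h3, h2, ← OutA_cl]
  rfl

/-- (the choice in the definition of `GG` is unique; `s cl θ - BB (cl θ) = s θ - BB θ`) -/
theorem GG_collar (j : J) (θ : ℝ) (r : Ioo (1 : ℝ) 2) :
    GG P Q (P.E.collar j ((θ : Ci), r)) = (1 - LS.cut (r : ℝ)) * (sl P Q j * θ - BB P Q j θ) := by
  rw [OutA_GG, Function.Periodic.lift_coe]
  rfl

theorem GG_zero {x : S} (h : ∀ j z, x ≠ P.E.collar j z) : GG P Q x = 0 := by
  unfold GG
  rw [dif_neg]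
  rintro ⟨j, z, hz⟩
  exact h j z hz.symm

/-- (on the collars: `GG_collar`; outside of the closed sets `collar j '' {r ≤ 7/4}` it is zero) -/
theorem GG_cont [Finite J] : Continuous (GG P Q) := by
  rw [continuous_iff_continuousAt]
  intro x
  by_cases hx : ∃ j z, x = P.E.collar j z
  · obtain ⟨j, z, rfl⟩ := hx
    rw [← (P.E.emb j).continuousAt_iff]
    have h1 : GG P Q ∘ P.E.collar j =
        fun z => (1 - LS.cut (z.2 : ℝ)) * (OutA_per P Q j).lift z.1 := by
      funext z
      exact OutA_GG P Q j z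
    rw [h1]
    refine Continuous.continuousAt ?_
    exact (continuous_const.sub (LS.cut_cont.comp
      (continuous_subtype_val.comp continuous_snd))).mul
      ((OutA_lift_cont P Q j).comp continuous_fst)
  · push Not at hx
    have hC : IsClosed (⋃ j, P.E.collar j '' {z | (z.2 : ℝ) ≤ 7 / 4}) :=
      isClosed_iUnion_of_finite fun j => P.E.closed j (7 / 4) (by norm_num)
    have hxC : x ∈ (⋃ j, P.E.collar j '' {z | (z.2 : ℝ) ≤ 7 / 4})ᶜ := by
      intro h
      obtain ⟨j, z, _, hz⟩ := mem_iUnion.1 h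
      exact hx j z hz.symm
    have h1 : ∀ᶠ y in 𝓝 x, GG P Q y = 0 := by
      filter_upwards [hC.isOpen_compl.mem_nhds hxC] with y hy
      by_cases hy2 : ∃ j z, y = P.E.collar j z
      · obtain ⟨j, z, rfl⟩ := hy2
        have h2 : 5 / 3 ≤ (z.2 : ℝ) := by
          by_contra hc
          exact hy (mem_iUnion.2 ⟨j, z, by
            show (z.2 : ℝ) ≤ 7 / 4
            linarith, rfl⟩)
        rw [OutA_GG, LS.cut_one h2]
        ring
      · push Not at hy2
        exact GG_zero P Q hy2
    exact (continuousAt_const (y := (0 : ℝ))).congr (Filter.EventuallyEq.symm h1)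

end Pool.Agent.H.MP_1611f1_gt.TQ
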