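import Pool.Agent.H.MP_1611f1_gt.TQ.FolB

/-!
The foliation of the open set `Xd` of `S × S¹`.
-/

namespace Pool.Agent.H.MP_1611f1_gt.TQ

open Topology Set Filter
open Pool.Agent.H.MP_1611f1_gt.BR.U (Ci cl yt hlf psi cu rmp ang)
open Pool.Agent.H.MP_1611f1_gt.LG (Cylinder solidTorus)
open Pool.Agent.H.MP_1611f1_gt.TP (Loc Y EE Yr)

variable {S : Type*} [TopologicalSpace S] {J I A : Type*} [DecidableEq J] [DecidableEq I]
  [Fintype A] (P : Mul S J I A) (Q : Par P.cur) [Finite I]

/-- the foliation of the open set `Xd` -/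
def pre [T2Space S] : LS.PreFol (S × Ci) where
  charts := AdCh P Q
  compat c hc c' hc' y hy hy' := by
    have h1 := hc.2 y hy
    have h2 := hc'.2 y hy'
    rcases hc.1 hy with h | ⟨v, z, hz, h⟩
    · exact (h1.out h).trans (h2.out h).symm
    · have h3 := (h1.inn v z hz h).trans (h2.inn v z hz h).symm
      have h4 := OrdEq.of_openMap (R := nu P v) (nu_emb P v).isOpenMap (z₀ := z)
        (f := fun w => (c w).2) (g := fun w => (c' w).2) h3
      rw [h] at h4
      exact h4

theorem pre_dom [T2Space S] [Finite J] : (pre P Q).dom = Xd P := by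
  ext y
  constructor
  · rintro ⟨c, hc, hy⟩
    exact hc.1 hy
  · rintro (h | ⟨v, z, hz, rfl⟩)
    · exact fol_out P Q h
    · exact fol_inn P Q v hz

end Pool.Agent.H.MP_1611f1_gt.TQ
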