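import Pool.Agent.H.MP_1611f1_gt.TQ.Pre

/-!
The foliation near the times `1/2` and `-1/2`, at the points where no strip and no collar is near:
the level sets of `(scale) * (t - 1/2)`.
-/

namespace Pool.Agent.H.MP_1611f1_gt.TQ

open Topology Set Filter
open Pool.Agent.H.MP_1611f1_gt.BR.U (Ci cl yt hlf psi cu rmp ang)
open Pool.Agent.H.MP_1611f1_gt.LG (Cylinder solidTorus)
open Pool.Agent.H.MP_1611f1_gt.TP (Loc Y EE Yr)

variable {S : Type*} [TopologicalSpace S] {J I A : Type*} [DecidableEq J] [DecidableEq I]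
  [Fintype A] (P : Mul S J I A) (Q : Par P.cur)

/-- the domain of the scale `i` -/
def dom (i : Option I) : Set S :=
  match i with
  | none => So P
  | some v => P.ν v '' {z | |z.2| < 12}

open Classical in
/-- the scale -/
noncomputable def sg (i : Option I) (x : S) : ℝ :=
  match i with
  | none => 1
  | some v => if h : ∃ z, P.ν v z = x then 1 + (Q.lam v - 1) * rmp (h.choose.2 / 32) else 1

/-- no strip is near `x`, and `x` is not in the smaller collars -/
def Flat (x : S) : Prop :=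
  (∀ᶠ x' in 𝓝 x, ∀ a, P.kap a x' = 0) ∧ ∀ j z, P.E.collar j z = x → 7 / 4 < (z.2 : ℝ)

theorem sg_nu (v : I) (z : Ci × ℝ) : sg P Q (some v) (P.ν v z) = 1 + (Q.lam v - 1) * rmp (z.2 / 32) := by
  have h : ∃ z', P.ν v z' = P.ν v z := ⟨z, rfl⟩
  have h1 : h.choose = z := (P.emb v).injective h.choose_spec
  classical
  show (if h : ∃ z', P.ν v z' = P.ν v z then 1 + (Q.lam v - 1) * rmp (h.choose.2 / 32) else 1) = _
  rw [dif_pos h, h1]

omit [DecidableEq J] [DecidableEq I] [Fintype A] in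
theorem Sc_B {l : ℝ} (hl : 0 < l) (y : ℝ) : 0 < 1 + (l - 1) * rmp y := by
  have h := BR.U.rmp_mem y
  nlinarith [mul_nonneg hl.le h.1, h.2, h.1, mul_nonneg (sub_nonneg.2 h.2) hl.le]

theorem sg_pos (i : Option I) (x : S) : 0 < sg P Q i x := by
  cases i with
  | none => exact one_pos
  | some v =>
    classical
    show 0 < (if h : ∃ z', P.ν v z' = x then 1 + (Q.lam v - 1) * rmp (h.choose.2 / 32) else 1)
    split_ifs with h
    · exact Sc_B (Q.lam_pos v) _
    · exact one_pos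

omit [DecidableEq I] [Fintype A] in
theorem dom_open [T2Space S] [Finite I] (i : Option I) : IsOpen (dom P i) := by
  cases i with
  | none =>
    have h1 : (So P)ᶜ = ⋃ v, P.ν v '' {z : Ci × ℝ | |z.2| ≤ 2} := by
      ext w
      simp only [So, mem_compl_iff, mem_ofPred_eq, mem_iUnion, mem_image]
      push Not
      constructor
      · rintro ⟨v, z, h, h'⟩
        exact ⟨v, z, h', h⟩
      · rintro ⟨v, z, h, h'⟩
        exact ⟨v, z, h', h⟩
    show IsOpen (So P)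
    rw [← isClosed_compl_iff, h1]
    refine isClosed_iUnion_of_finite fun v => ?_
    exact (OutB_compact.image (P.emb v).continuous).isClosed
  | some v =>
    exact (P.emb v).isOpenMap _ (isOpen_lt (by fun_prop) continuous_const)

/-- (`ν v` is an open embedding, `sg_nu`) -/
theorem sg_cont (i : Option I) : ContinuousOn (sg P Q i) (dom P i) := by
  cases i with
  | none => exact continuousOn_const
  | some v =>
    rintro _ ⟨z, hz, rfl⟩
    refine ContinuousAt.continuousWithinAt ?_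
    rw [← (P.emb v).continuousAt_iff]
    have h1 : sg P Q (some v) ∘ P.ν v = fun z => 1 + (Q.lam v - 1) * rmp (z.2 / 32) := by
      funext z
      exact sg_nu P Q v z
    rw [h1]
    exact (continuous_const.add (continuous_const.mul (BR.U.rmp_cont.comp
      (continuous_snd.div_const 32)))).continuousAt

omit [DecidableEq I] [Fintype A] in
theorem dom_cover (x : S) : ∃ i, x ∈ dom P i := by
  by_cases h : x ∈ So P
  · exact ⟨none, h⟩
  · have h1 : ∃ v z, P.ν v z = x ∧ |z.2| ≤ 2 := by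
      by_contra h3
      push Not at h3
      exact h h3
    obtain ⟨v, z, hz, hu⟩ := h1
    refine ⟨some v, z, ?_, hz⟩
    show |z.2| < 12
    linarith

omit [DecidableEq I] [Fintype A] in
/-- (`P.E.closed`) -/
theorem flat_open [Finite J] : IsOpen {x | Flat P x} := by
  have hC : IsClosed (⋃ j, P.E.collar j '' {z | (z.2 : ℝ) ≤ 7 / 4}) :=
    isClosed_iUnion_of_finite fun j => P.E.closed j (7 / 4) (by norm_num)
  have h1 : {x | Flat P x} = {x | ∀ᶠ x' in 𝓝 x, ∀ a, P.kap a x' = 0} ∩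
      (⋃ j, P.E.collar j '' {z | (z.2 : ℝ) ≤ 7 / 4})ᶜ := by
    ext x
    constructor
    · rintro ⟨h, h'⟩
      refine ⟨h, fun h2 => ?_⟩
      obtain ⟨j, z, hz, hzx⟩ := mem_iUnion.1 h2
      have h3 : (z.2 : ℝ) ≤ 7 / 4 := hz
      linarith [h' j z hzx]
    · rintro ⟨h, h'⟩
      refine ⟨h, fun j z hzx => ?_⟩
      by_contra hc
      exact h' (mem_iUnion.2 ⟨j, z, not_lt.1 hc, hzx⟩)
  rw [h1]
  exact isOpen_setOfPred_eventually_nhds.inter hC.isOpen_compl

/-- (`GG_collar`, `GG_zero`, `LS.cut r = 1` for `5/3 ≤ r`; outside of the closed sets `collar j '' {r ≤ 7/4}`) -/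
theorem GG_flat [Finite J] {x : S} (h : ∀ j z, P.E.collar j z = x → 7 / 4 < (z.2 : ℝ)) :
    ∀ᶠ x' in 𝓝 x, GG P Q x' = 0 := by
  have hC : IsClosed (⋃ j, P.E.collar j '' {z | (z.2 : ℝ) ≤ 7 / 4}) :=
    isClosed_iUnion_of_finite fun j => P.E.closed j (7 / 4) (by norm_num)
  have hxC : x ∈ (⋃ j, P.E.collar j '' {z | (z.2 : ℝ) ≤ 7 / 4})ᶜ := by
    intro h2
    obtain ⟨j, z, hz, hzx⟩ := mem_iUnion.1 h2
    have h3 : (z.2 : ℝ) ≤ 7 / 4 := hz
    linarith [h j z hzx]
  filter_upwards [hC.isOpen_compl.mem_nhds hxC] with y hy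
  by_cases hy2 : ∃ j z, y = P.E.collar j z
  · obtain ⟨j, z, rfl⟩ := hy2
    have h2 : 5 / 3 ≤ (z.2 : ℝ) := by
      by_contra hc
      exact hy (mem_iUnion.2 ⟨j, z, by
        show (z.2 : ℝ) ≤ 7 / 4
        linarith, rfl⟩)
    have h3 := GG_collar P Q j (cl z.1) z.2
    rw [BR.U.coe_cl] at h3
    have h4 : (z.1, z.2) = z := rfl
    rw [h4, LS.cut_one h2] at h3
    rw [h3]
    ring
  · push Not at hy2
    exact GG_zero P Q hy2

omit [DecidableEq J] [DecidableEq I] [Fintype A] in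
/-- near the times `1/2` and `-1/2` -/
theorem Sc_yt {t c : ℝ} (hc : c = 1 / 2 ∨ c = -1 / 2) (ht : |t - c| < 1 / 4) :
    yt (t : Ci) + 1 / 2 = t - c ∧ 1 / 16 ≤ |cl (t : Ci)| := by
  have h1 := abs_lt.1 ht
  have h2 : yt (t : Ci) + 1 / 2 = t - c := by
    rcases hc with rfl | rfl
    · have h3 : ((t - 1 : ℝ) : Ci) = (t : Ci) := by
        have h4 : ((1 : ℝ) : Ci) = 0 := AddCircle.coe_period (1 : ℝ)
        rw [AddCircle.coe_sub, h4, sub_zero]
      rw [← h3, BR.U.yt_coe ⟨by linarith [h1.1], by linarith [h1.2]⟩]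
      ring
    · rw [BR.U.yt_coe ⟨by linarith [h1.1], by linarith [h1.2]⟩]
      ring
  refine ⟨h2, ?_⟩
  have h3 := BR.U.cl_mem (t : Ci)
  rcases le_or_gt (cl (t : Ci)) 0 with h4 | h4
  · rw [BR.U.yt_of_nonpos h4] at h2
    rw [abs_of_nonpos h4]
    linarith [h1.2]
  · rw [BR.U.yt_of_pos h4] at h2
    rw [abs_of_pos h4]
    linarith [h1.1]

/-- the strips are constant: the term of `θ` in `EE` is zero -/
theorem Sc_q (v : I) {z z' : Ci × ℝ} (h : ∀ a, P.kap a (P.ν v z) = 0)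
    (h' : ∀ a, P.kap a (P.ν v z') = 0)
    (h2 : ∀ a, P.cur a = v → |cl (z'.1 - z.1) + (Fpa P a z'.1 - Fpa P a z.1)| < 1 / 2) :
    Q.qq v * (cl (z'.1 - z.1) + ((loc P Q v).Fp z'.1 - (loc P Q v).Fp z.1)) = 0 := by
  have e1 : Q.qq v * cl (z'.1 - z.1) =
      ∑ a, (if P.cur a = v then Q.q a * cl (z'.1 - z.1) else 0) := by
    unfold Par.qq
    rw [Finset.sum_mul]
    refine Finset.sum_congr rfl fun a _ => ?_
    split_ifs <;> ring
  have e2 : ∀ θ, Q.qq v * (loc P Q v).Fp θ =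
      ∑ a, (if P.cur a = v then Q.q a * Fpa P a θ else 0) := by
    intro θ
    rw [loc_Fp, Finset.mul_sum]
    refine Finset.sum_congr rfl fun a _ => ?_
    split_ifs
    · have := Q.qq_ne v
      field_simp
    · ring
  rw [mul_add, mul_sub, e1, e2, e2, ← Finset.sum_sub_distrib, ← Finset.sum_add_distrib]
  refine Finset.sum_eq_zero fun a _ => ?_
  split_ifs with hv
  · have h3 := FolA_diff P a (h2 a hv)
    rw [hv, h a, h' a, sub_self, BR.U.cl_zero] at h3
    rw [← mul_sub, ← mul_add, ← h3, mul_zero]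
  · ring

omit [DecidableEq I] in
/-- the conditions of `Sc_q` are satisfied near a point -/
theorem Sc_near (v : I) (z : Ci × ℝ) : ∀ᶠ w in 𝓝 z, ∀ a, P.cur a = v →
    |cl (w.1 - z.1) + (Fpa P a w.1 - Fpa P a z.1)| < 1 / 2 := by
  have hsub : Continuous fun w : Ci × ℝ => w.1 - z.1 := continuous_fst.sub continuous_const
  have hcl : ContinuousAt (fun w : Ci × ℝ => cl (w.1 - z.1)) z := by
    refine ContinuousAt.comp (g := cl) (f := fun w : Ci × ℝ => w.1 - z.1) ?_ hsub.continuousAt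
    apply BR.U.cl_contAt'
    rw [sub_self, BR.U.cl_zero, abs_zero]
    norm_num
  rw [eventually_all]
  intro a
  have hFc : ContinuousAt (fun w : Ci × ℝ => Fpa P a w.1 - Fpa P a z.1) z :=
    (((Fpa_cont P a).comp continuous_fst).sub continuous_const).continuousAt
  have h1 : ∀ᶠ w in 𝓝 z, |cl (w.1 - z.1) + (Fpa P a w.1 - Fpa P a z.1)| < 1 / 2 := by
    refine (hcl.add hFc).abs.eventually_lt continuousAt_const ?_
    show |cl (z.1 - z.1) + (Fpa P a z.1 - Fpa P a z.1)| < 1 / 2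
    rw [sub_self, BR.U.cl_zero, sub_self, add_zero, abs_zero]
    norm_num
  filter_upwards [h1] with w hw _
  exact hw

/-- **Key lemma.** An adapted function at `(x, t)`, `t` near `c = ± 1/2`, has the order of `sg i x * (t - c)`.
For `i = none`: `Adp.out` and `DD = cl (t' - t)` (no strips, `half_or`, `GG_flat`). For `i = some v`: `Adp.inn`
(`1 / 4 < |cl t|`, so the point is in `Yr`), `TP.EE_mid`, and all `f a` with `cur a = v` are locally constant (their
values modulo `1` are `0`), so the `q`-term is `0`; `yt t + 1 / 2 = t - c`. Transfer by the open embedding `ν v`. -/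
theorem key [Finite J] {i : Option I} {x : S} (hx : x ∈ dom P i) (hf : Flat P x) {t c : ℝ}
    (hc : c = 1 / 2 ∨ c = -1 / 2) (ht : |t - c| < 1 / 4) {f : S × Ci → ℝ} (h : Adp P Q (x, (t : Ci)) f) :
    OrdEq (x, t) (fun w : S × ℝ => f (w.1, (w.2 : Ci))) (fun w => sg P Q i w.1 * (w.2 - c)) := by
  cases i with
  | none =>
    have hR : ContinuousAt (fun w : S × ℝ => ((w.1, (w.2 : Ci)) : S × Ci)) (x, t) :=
      (continuous_fst.prodMk ((AddCircle.continuous_mk' (1 : ℝ)).comp continuous_snd)).continuousAt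
    have h1 : OrdEq (x, t) (fun w : S × ℝ => f (w.1, (w.2 : Ci)))
        (fun w : S × ℝ => DD P Q (x, (t : Ci)) (w.1, (w.2 : Ci))) :=
      OrdEq.comp_cont (R := fun w : S × ℝ => ((w.1, (w.2 : Ci)) : S × Ci)) hR (h.out hx)
    refine h1.trans (OrdEq.of_comp (fun s => s + (t - c))
      (fun s s' hs => add_lt_add_left hs _) ?_)
    have n1 : ∀ᶠ w : S × ℝ in 𝓝 (x, t), ∀ a, P.kap a w.1 = 0 :=
      (continuous_fst.tendsto (x, t)).eventually hf.1
    have n2 : ∀ᶠ w : S × ℝ in 𝓝 (x, t), GG P Q w.1 = 0 :=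
      (continuous_fst.tendsto (x, t)).eventually (GG_flat P Q hf.2)
    have n3 : ∀ᶠ w : S × ℝ in 𝓝 (x, t), |w.2 - t| < 1 / 2 := by
      refine ((continuous_snd.sub continuous_const).abs.continuousAt (x := ((x, t) : S × ℝ))).eventually_lt
        continuousAt_const ?_
      show |t - t| < 1 / 2
      rw [sub_self, abs_zero]
      norm_num
    have k0 : ∀ a, P.kap a x = 0 := hf.1.self_of_nhds
    have g0 : GG P Q x = 0 := (GG_flat P Q hf.2).self_of_nhds
    have hh : ∀ y a, P.kap a y = 0 → P.half a y = 0 := by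
      intro y a hy
      rcases P.half_or a y with h3 | h3
      · exact h3
      · rw [h3, hy]
    filter_upwards [n1, n2, n3] with w w1 w2 w3
    have e1 : cl ((w.2 : Ci) - (t : Ci)) = w.2 - t := by
      have h4 := abs_lt.1 w3
      rw [← AddCircle.coe_sub]
      exact BR.U.cl_coe ⟨by linarith [h4.1], h4.2⟩
    have e2 : ∑ a, (Q.q a * cl (P.kap a w.1 - P.kap a x) +
        Q.q a * (1 / Q.lam (P.cur a) - 1) * cl (P.half a w.1 - P.half a x)) = 0 := by
      refine Finset.sum_eq_zero fun a _ => ?_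
      rw [hh _ a (w1 a), hh _ a (k0 a), w1 a, k0 a, sub_self, BR.U.cl_zero]
      ring
    show 1 * (w.2 - c) = cl ((w.2 : Ci) - (t : Ci)) + ∑ a, (Q.q a * cl (P.kap a w.1 - P.kap a x) +
        Q.q a * (1 / Q.lam (P.cur a) - 1) * cl (P.half a w.1 - P.half a x)) +
        (GG P Q w.1 - GG P Q x) + (t - c)
    rw [e1, e2, w2, g0]
    ring
  | some v =>
    obtain ⟨z, hz, rfl⟩ := hx
    have hz12 : |z.2| < 12 := hz
    obtain ⟨y1, y2⟩ := Sc_yt hc ht
    have hY : ((z, (t : Ci)) : Y) ∈ Yr := by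
      refine ⟨hz12, ?_⟩
      have h4 : (1 / 16 : ℝ) ^ 2 ≤ |cl (t : Ci)| ^ 2 := by gcongr
      rw [sq_abs] at h4
      show 1 / 1024 < (z.2 / 32) ^ 2 + cl (t : Ci) ^ 2
      nlinarith [sq_nonneg (z.2 / 32)]
    have hI := h.inn v (z, (t : Ci)) hY rfl
    have hR : ContinuousAt (fun w : (Ci × ℝ) × ℝ => ((w.1, (w.2 : Ci)) : Y)) (z, t) :=
      (continuous_fst.prodMk ((AddCircle.continuous_mk' (1 : ℝ)).comp continuous_snd)).continuousAt
    have h1 : OrdEq (z, t) (fun w : (Ci × ℝ) × ℝ => f (nu P v (w.1, (w.2 : Ci))))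
        (fun w : (Ci × ℝ) × ℝ => EE (loc P Q v) (z, (t : Ci)) (w.1, (w.2 : Ci))) :=
      OrdEq.comp_cont (R := fun w : (Ci × ℝ) × ℝ => ((w.1, (w.2 : Ci)) : Y)) hR hI
    have hO : IsOpenMap (fun w : (Ci × ℝ) × ℝ => ((P.ν v w.1, w.2) : S × ℝ)) :=
      ((P.emb v).isOpenMap).prodMap IsOpenMap.id
    refine OrdEq.of_openMap (R := fun w : (Ci × ℝ) × ℝ => ((P.ν v w.1, w.2) : S × ℝ)) hO
      (z₀ := (z, t)) ?_
    refine h1.trans (OrdEq.of_comp (fun s => s + (1 + (Q.lam v - 1) * rmp (z.2 / 32)) * (t - c))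
      (fun s s' hs => add_lt_add_left hs _) ?_)
    have n1 : ∀ᶠ w : (Ci × ℝ) × ℝ in 𝓝 (z, t), ∀ a, P.kap a (P.ν v w.1) = 0 :=
      (((P.emb v).continuous.comp continuous_fst).tendsto (z, t)).eventually hf.1
    have k0 : ∀ a, P.kap a (P.ν v z) = 0 := hf.1.self_of_nhds
    have n2 : ∀ᶠ w : (Ci × ℝ) × ℝ in 𝓝 (z, t), ∀ a, P.cur a = v →
        |cl (w.1.1 - z.1) + (Fpa P a w.1.1 - Fpa P a z.1)| < 1 / 2 :=
      (continuous_fst.tendsto ((z, t) : (Ci × ℝ) × ℝ)).eventually (Sc_near P v z)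
    have n3 : ∀ᶠ w : (Ci × ℝ) × ℝ in 𝓝 (z, t), |w.2 - t| < 1 / 2 := by
      refine ((continuous_snd.sub continuous_const).abs.continuousAt
        (x := ((z, t) : (Ci × ℝ) × ℝ))).eventually_lt continuousAt_const ?_
      show |t - t| < 1 / 2
      rw [sub_self, abs_zero]
      norm_num
    have n4 : ∀ᶠ w : (Ci × ℝ) × ℝ in 𝓝 (z, t), |w.2 - c| < 1 / 4 :=
      ((continuous_snd.sub continuous_const).abs.continuousAt
        (x := ((z, t) : (Ci × ℝ) × ℝ))).eventually_lt continuousAt_const ht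
    filter_upwards [n1, n2, n3, n4] with w w1 w2 w3 w4
    obtain ⟨y3, y4⟩ := Sc_yt hc w4
    have e0 := TP.EE_mid (loc P Q v) (z := ((z, (t : Ci)) : Y)) (z' := ((w.1, (w.2 : Ci)) : Y)) y2 y4
    have e1 : cl ((w.2 : Ci) - (t : Ci)) = w.2 - t := by
      have h4 := abs_lt.1 w3
      rw [← AddCircle.coe_sub]
      exact BR.U.cl_coe ⟨by linarith [h4.1], h4.2⟩
    have e2 : Q.qq v * (cl (w.1.1 - z.1) + ((loc P Q v).Fp w.1.1 - (loc P Q v).Fp z.1)) = 0 :=
      Sc_q P Q v k0 w1 w2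
    have e3 : cl ((rmp (w.1.2 / 32) * (yt (w.2 : Ci) + 1 / 2) -
        rmp (z.2 / 32) * (yt (t : Ci) + 1 / 2) : ℝ) : Ci) =
        rmp (w.1.2 / 32) * (w.2 - c) - rmp (z.2 / 32) * (t - c) := by
      rw [y1, y3]
      have a1 := BR.U.rmp_mem (w.1.2 / 32)
      have a2 := BR.U.rmp_mem (z.2 / 32)
      have a3 := abs_lt.1 w4
      have a4 := abs_lt.1 ht
      have b1 : |rmp (w.1.2 / 32) * (w.2 - c)| < 1 / 4 := by
        rw [abs_mul, abs_of_nonneg a1.1]
        nlinarith [abs_nonneg (w.2 - c), a1.2]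
      have b2 : |rmp (z.2 / 32) * (t - c)| < 1 / 4 := by
        rw [abs_mul, abs_of_nonneg a2.1]
        nlinarith [abs_nonneg (t - c), a2.2]
      have b3 := abs_lt.1 b1
      have b4 := abs_lt.1 b2
      exact BR.U.cl_coe ⟨by linarith [b3.1, b4.2], by linarith [b3.2, b4.1]⟩
    show sg P Q (some v) (P.ν v w.1) * (w.2 - c) = EE (loc P Q v) (z, (t : Ci)) (w.1, (w.2 : Ci)) +
      (1 + (Q.lam v - 1) * rmp (z.2 / 32)) * (t - c)
    rw [sg_nu, e0]
    show (1 + (Q.lam v - 1) * rmp (w.1.2 / 32)) * (w.2 - c) = (cl ((w.2 : Ci) - (t : Ci)) +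
      (Q.lam v - 1) * cl ((rmp (w.1.2 / 32) * (yt (w.2 : Ci) + 1 / 2) -
        rmp (z.2 / 32) * (yt (t : Ci) + 1 / 2) : ℝ) : Ci) +
      Q.qq v * (cl (w.1.1 - z.1) + ((loc P Q v).Fp w.1.1 - (loc P Q v).Fp z.1))) +
      (1 + (Q.lam v - 1) * rmp (z.2 / 32)) * (t - c)
    rw [e1, e2, e3]
    ring

end Pool.Agent.H.MP_1611f1_gt.TQ
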