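import Pool.Agent.H.MP_1611f1_gt.TQ.TauA

/-!
Leaf paths in the annuli.
-/

namespace Pool.Agent.H.MP_1611f1_gt.TQ

open Topology Set Filter
open Pool.Agent.H.MP_1611f1_gt.BR.U (Ci cl yt hlf psi cu rmp ang)
open Pool.Agent.H.MP_1611f1_gt.LG (Cylinder solidTorus Drilled)
open Pool.Agent.H.MP_1611f1_gt.TP (Loc Y EE Yr)
open Pool.Agent.H.MP_1611f1_gt.G (Ended MTorus)

variable {S : Type} [TopologicalSpace S] {J I A : Type} [DecidableEq J] [DecidableEq I]
  [Fintype A] {P : Mul S J I A} {M : Type} [TopologicalSpace M] {T : Ended M (J ⊕ I)}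
  [T2Space S] [Finite I] [Finite J] {G : Geo P T} {Q : Par P.cur} {F : Foliation M}
  (hF : Isf G Q F)

include hF in
/-- the charts are constant near a point of a path along which `EE = 0` and the time is `< 1/2` in absolute value, or `1/2` -/
private theorem TauC_loc (v : I) {ga : unitInterval → (Ci × ℝ) × ℝ} (hga : Continuous ga)
    {Γ : unitInterval → M} (hΓ : ∀ s, G.p (Γ s) = G.Mt.p (P.ν v (ga s).1, (ga s).2))
    (hu : ∀ s, |(ga s).1.2| < 12) (hY : ∀ s, (((ga s).1, ((ga s).2 : Ci)) : Y) ∈ Yr)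
    (ht : (∀ s, |(ga s).2| < 1 / 2) ∨ ∀ s, (ga s).2 = 1 / 2)
    (hD : ∀ s, ∀ᶠ s' in 𝓝 s,
      EE (loc P Q v) ((ga s).1, ((ga s).2 : Ci)) ((ga s').1, ((ga s').2 : Ci)) = 0 ∧
      EE (loc P Q v) ((ga s').1, ((ga s').2 : Ci)) ((ga s).1, ((ga s).2 : Ci)) = 0)
    {c : OpenPartialHomeomorph M ((ℝ × ℝ) × ℝ)} (hc : c ∈ F.charts) (s : unitInterval)
    (hs : Γ s ∈ c.source) : ∀ᶠ s' in 𝓝 s, (c (Γ s')).2 = (c (Γ s)).2 := by
  have key : ∀ V ∈ 𝓝 (ga s), (∀ z ∈ V, ∀ z' ∈ V, ∀ n n' : M, G.p n = G.Mt.p (P.ν v z.1, z.2) →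
      G.p n' = G.Mt.p (P.ν v z'.1, z'.2) →
      ((c n).2 < (c n').2 ↔ 0 < EE (loc P Q v) (z.1, (z.2 : Ci)) (z'.1, (z'.2 : Ci)))) →
      ∀ᶠ s' in 𝓝 s, (c (Γ s')).2 = (c (Γ s)).2 := by
    intro V hV hVc
    filter_upwards [(hga.continuousAt (x := s)) hV, hD s] with s' hs' hD'
    have hsV : ga s ∈ V := mem_of_mem_nhds hV
    have h3 := hVc _ hs' _ hsV _ _ (hΓ s') (hΓ s)
    have h4 := hVc _ hsV _ hs' _ _ (hΓ s) (hΓ s')
    rw [hD'.2] at h3
    rw [hD'.1] at h4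
    have h5 : ¬ (c (Γ s')).2 < (c (Γ s)).2 := fun h6 => lt_irrefl _ (h3.1 h6)
    have h6 : ¬ (c (Γ s)).2 < (c (Γ s')).2 := fun h6 => lt_irrefl _ (h4.1 h6)
    exact le_antisymm (not_lt.1 h6) (not_lt.1 h5)
  rcases ht with ht | ht
  · obtain ⟨V, hV, hVc⟩ := germ_inn hF hc hs v (hΓ s) (ht s) (hY s)
    exact key V hV hVc
  · have h0 : ga s = ((ga s).1, (1 / 2 : ℝ)) := Prod.ext rfl (ht s)
    by_cases hi : Idn G.phi (P.ν v (ga s).1)
    · have hw : G.p (Γ s) = G.Mt.p (P.ν v (ga s).1, 1 / 2) := by rw [hΓ s, ht s]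
      obtain ⟨V, hV, hVc⟩ := germ_half_inn hF hc hs v hw hi (hu s)
      rw [← h0] at hV
      exact key V hV hVc
    · have hw : G.p (Γ s) = G.Mt.p (P.ν v (ga s).1, 1 / 2) := by rw [hΓ s, ht s]
      obtain ⟨i, j, V, hV, hVc⟩ := germ_half hF hc hs hw hi
      have hcont : Continuous fun s' : unitInterval => (P.ν v (ga s').1, (ga s').2) :=
        ((P.emb v).continuous.comp hga.fst).prodMk hga.snd
      have hV' : V ∈ 𝓝 (P.ν v (ga s).1, (ga s).2) := by rw [ht s]; exact hV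
      filter_upwards [(hcont.continuousAt (x := s)) hV'] with s' hs'
      have hsV : (P.ν v (ga s).1, (ga s).2) ∈ V := mem_of_mem_nhds hV'
      have h3 := hVc _ hs' _ hsV _ _ (hΓ s') (hΓ s)
      have h4 := hVc _ hsV _ hs' _ _ (hΓ s) (hΓ s')
      have hf : ∀ r : unitInterval, fC P Q G.phi i j (P.ν v (ga r).1, (ga r).2) = 0 := by
        intro r
        unfold fC
        simp only [ht r, sub_self, mul_zero, ite_self]
      rw [hf, hf] at h3 h4
      have h5 : ¬ (c (Γ s')).2 < (c (Γ s)).2 := fun h6 => lt_irrefl _ (h3.1 h6)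
      have h6 : ¬ (c (Γ s)).2 < (c (Γ s')).2 := fun h6 => lt_irrefl _ (h4.1 h6)
      exact le_antisymm (not_lt.1 h6) (not_lt.1 h5)

include hF in
/-- the leaf path `B τ = const` from `z.2` to `u₁` -/
private theorem TauC_path (v : I) {z : Ci × ℝ} {t : ℝ} (ht : |t| < 1 / 2 ∨ t = 1 / 2) {m : M}
    (hm : G.p m = G.Mt.p (P.ν v z, t)) (u₁ : ℝ) (hu : |z.2| ≤ 3) (hu1 : |u₁| = 3)
    (hB : ∀ u ∈ uIcc z.2 u₁, 1 + (Q.lam v - 1) * rmp (z.2 / 32) ≤ 1 + (Q.lam v - 1) * rmp (u / 32))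
    (hfar : (∀ u ∈ uIcc z.2 u₁, 2 ≤ |u|) ∨ 1 / 16 ≤ |t|) :
    ∃ (m' : M) (t' : ℝ), F.SameLeaf m m' ∧ (|t'| < 1 / 2 ∨ t' = 1 / 2) ∧
      G.p m' = G.Mt.p (P.ν v (z.1, u₁), t') := by
  obtain ⟨u₀, hu₀⟩ : ∃ u₀ : ℝ, u₀ = z.2 := ⟨_, rfl⟩
  rw [← hu₀] at hu hB hfar
  -- the offset of the time
  obtain ⟨d, hd0, hd⟩ : ∃ d : ℝ, ((d : ℝ) : Ci) = 0 ∧
      ((d = 0 ∧ -1 / 2 < t ∧ t ≤ 0) ∨ (d = 1 ∧ 0 < t ∧ t ≤ 1 / 2)) := by
    rcases le_or_gt t 0 with h | h
    · refine ⟨0, AddCircle.coe_zero _, Or.inl ⟨rfl, ?_, h⟩⟩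
      rcases ht with h1 | h1
      · linarith [(abs_lt.1 h1).1]
      · linarith
    · refine ⟨1, TP.Tau_one, Or.inr ⟨rfl, h, ?_⟩⟩
      rcases ht with h1 | h1
      · linarith [(abs_lt.1 h1).2]
      · linarith
  obtain ⟨τ₀, hτ₀⟩ : ∃ τ₀ : ℝ, t = τ₀ - 1 / 2 + d := ⟨t + 1 / 2 - d, by ring⟩
  obtain ⟨B, hBd⟩ : ∃ B : ℝ → ℝ, ∀ x, B x = 1 + (Q.lam v - 1) * rmp (x / 32) := ⟨_, fun _ => rfl⟩
  have hBc : Continuous B := by
    have h3 : B = fun x => 1 + (Q.lam v - 1) * rmp (x / 32) := funext hBd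
    rw [h3]
    exact continuous_const.add (continuous_const.mul (BR.U.rmp_cont.comp (continuous_id.div_const 32)))
  have hBp : ∀ x, 0 < B x := by
    intro x
    rw [hBd]
    exact TP.Tau_B (loc P Q v) _
  -- the coordinates of the path
  obtain ⟨x, hx⟩ : ∃ x : unitInterval → ℝ, ∀ s, x s = u₀ + (s : ℝ) * (u₁ - u₀) :=
    ⟨_, fun _ => rfl⟩
  have hxc : Continuous x := by
    have h3 : x = fun s : unitInterval => u₀ + (s : ℝ) * (u₁ - u₀) := funext hx
    rw [h3]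
    exact continuous_const.add (continuous_subtype_val.mul continuous_const)
  have hxm : ∀ s, x s ∈ uIcc u₀ u₁ := by
    intro s
    rw [hx]
    have h3 := s.2.1
    have h4 := s.2.2
    rcases le_total u₀ u₁ with h5 | h5
    · rw [uIcc_of_le h5]
      constructor
      · nlinarith [mul_nonneg h3 (sub_nonneg.2 h5)]
      · nlinarith [mul_nonneg (sub_nonneg.2 h4) (sub_nonneg.2 h5)]
    · rw [uIcc_of_ge h5]
      constructor
      · nlinarith [mul_nonneg (sub_nonneg.2 h4) (sub_nonneg.2 h5)]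
      · nlinarith [mul_nonneg h3 (sub_nonneg.2 h5)]
  have hx3 : ∀ s, |x s| ≤ 3 := by
    intro s
    have h1 := abs_le.1 hu
    have h2 := abs_le.1 hu1.le
    have h3 := hxm s
    rw [mem_uIcc] at h3
    rw [abs_le]
    rcases h3 with h3 | h3
    · exact ⟨by linarith [h3.1], by linarith [h3.2]⟩
    · exact ⟨by linarith [h3.1], by linarith [h3.2]⟩
  have hB' : ∀ s, B u₀ ≤ B (x s) := by
    intro s
    rw [hBd, hBd]
    exact hB _ (hxm s)
  obtain ⟨τ, hτ⟩ : ∃ τ : unitInterval → ℝ, ∀ s, τ s = B u₀ * τ₀ / B (x s) := ⟨_, fun _ => rfl⟩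
  have hτc : Continuous τ := by
    have h3 : τ = fun s : unitInterval => B u₀ * τ₀ / B (x s) := funext hτ
    rw [h3]
    exact continuous_const.div (hBc.comp hxc) fun s => (hBp _).ne'
  have hτB : ∀ s, B (x s) * τ s = B u₀ * τ₀ := by
    intro s
    rw [hτ]
    field_simp [(hBp (x s)).ne']
  have hτa : ∀ s, |τ s| ≤ |τ₀| := by
    intro s
    rw [hτ, abs_div, abs_mul, abs_of_pos (hBp u₀), abs_of_pos (hBp (x s)), div_le_iff₀ (hBp _)]
    nlinarith [abs_nonneg τ₀, hB' s]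
  have hτp : 0 < τ₀ → ∀ s, 0 < τ s := by
    intro h s
    rw [hτ]
    exact div_pos (mul_pos (hBp _) h) (hBp _)
  have hτn : τ₀ < 0 → ∀ s, τ s < 0 := by
    intro h s
    rw [hτ]
    exact div_neg_of_neg_of_pos (mul_neg_of_pos_of_neg (hBp _) h) (hBp _)
  have hτz : τ₀ = 0 → ∀ s, τ s = 0 := by
    intro h s
    rw [hτ, h, mul_zero, zero_div]
  have hτm : ∀ s, τ s - 1 / 2 ∈ Ioc (-1 : ℝ) 0 := by
    intro s
    have h1 := hτa s
    rcases hd with ⟨h2, h3, h4⟩ | ⟨h2, h3, h4⟩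
    · have h5 : 0 < τ₀ := by linarith
      have h6 := hτp h5 s
      rw [abs_of_pos h5, abs_of_pos h6] at h1
      exact ⟨by linarith, by linarith⟩
    · have h5 : τ₀ ≤ 0 := by linarith
      rw [abs_of_nonpos h5] at h1
      have h6 := abs_le.1 h1
      exact ⟨by linarith [h6.1], by linarith [h6.2]⟩
  obtain ⟨tt, htt⟩ : ∃ tt : unitInterval → ℝ, ∀ s, tt s = τ s - 1 / 2 + d := ⟨_, fun _ => rfl⟩
  have httc : Continuous tt := by
    have h3 : tt = fun s => τ s - 1 / 2 + d := funext htt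
    rw [h3]
    exact (hτc.sub continuous_const).add continuous_const
  have hcase : (∀ s, |tt s| < 1 / 2) ∨ ∀ s, tt s = 1 / 2 := by
    rcases hd with ⟨h2, h3, h4⟩ | ⟨h2, h3, h4⟩
    · left
      intro s
      have h5 : 0 < τ₀ := by linarith
      have h6 := hτp h5 s
      have h1 := hτa s
      rw [abs_of_pos h5, abs_of_pos h6] at h1
      rw [htt, h2, abs_lt]
      exact ⟨by linarith, by linarith⟩
    · rcases h4.lt_or_eq with h5 | h5
      · left
        intro s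
        have h6 : τ₀ < 0 := by linarith
        have h7 := hτn h6 s
        have h1 := hτa s
        rw [abs_of_neg h6, abs_of_neg h7] at h1
        rw [htt, h2, abs_lt]
        exact ⟨by linarith, by linarith⟩
      · right
        intro s
        have h6 : τ₀ = 0 := by linarith
        rw [htt, hτz h6 s, h2]
        norm_num
  have httb : ∀ s, |tt s| ≤ 1 / 2 := by
    intro s
    rcases hcase with h | h
    · exact (h s).le
    · rw [h s, abs_of_pos (by norm_num)]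
  -- the path in the local model
  obtain ⟨ga, hga⟩ : ∃ ga : unitInterval → (Ci × ℝ) × ℝ, ∀ s, ga s = ((z.1, x s), tt s) :=
    ⟨_, fun _ => rfl⟩
  have hgac : Continuous ga := by
    have h3 : ga = fun s : unitInterval => ((z.1, x s), tt s) := funext hga
    rw [h3]
    exact (continuous_const.prodMk hxc).prodMk httc
  obtain ⟨g, hg⟩ : ∃ g : unitInterval → Y, ∀ s, g s = ((ga s).1, ((ga s).2 : Ci)) :=
    ⟨_, fun _ => rfl⟩
  have hgu : ∀ s, (g s).1.2 = x s := fun s => by rw [hg, hga]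
  have hgθ : ∀ s, (g s).1.1 = z.1 := fun s => by rw [hg, hga]
  have hgt : ∀ s, yt (g s).2 = τ s - 1 / 2 := by
    intro s
    rw [hg, hga]
    show yt ((tt s : ℝ) : Ci) = τ s - 1 / 2
    rw [htt, AddCircle.coe_add, hd0, add_zero]
    exact BR.U.yt_coe (hτm s)
  have hgf : ∀ s, 2 ≤ |(g s).1.2| ∨ 1 / 16 ≤ |cl (g s).2| := by
    intro s
    rcases hfar with h3 | h3
    · left
      rw [hgu]
      exact h3 _ (hxm s)
    · right
      rw [TP.Tau_yt (hgt s)]
      refine (hτa s).trans ?_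
      rcases hd with ⟨h2, h4, h5⟩ | ⟨h2, h4, h5⟩
      · rw [abs_of_nonpos h5] at h3
        rw [abs_le]
        exact ⟨by linarith, by linarith⟩
      · rw [abs_of_pos h4] at h3
        rw [abs_le]
        exact ⟨by linarith, by linarith⟩
  have hgY : ∀ s, g s ∈ Yr := by
    intro s
    refine ⟨?_, ?_⟩
    · rw [hgu]
      linarith [hx3 s]
    · rcases hgf s with h3 | h3
      · have h4 : (2 : ℝ) ^ 2 ≤ |(g s).1.2| ^ 2 := by gcongr
        rw [sq_abs] at h4
        nlinarith [sq_nonneg (cl (g s).2)]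
      · have h4 : (1 / 16 : ℝ) ^ 2 ≤ |cl (g s).2| ^ 2 := by gcongr
        rw [sq_abs] at h4
        nlinarith [sq_nonneg ((g s).1.2 / 32)]
  have hD : ∀ s, ∀ᶠ s' in 𝓝 s, EE (loc P Q v) (g s) (g s') = 0 ∧ EE (loc P Q v) (g s') (g s) = 0 := by
    intro s
    have c1 : ContinuousAt (fun s' => |τ s' - τ s|) s := (hτc.continuousAt.sub continuousAt_const).abs
    have c2' : ContinuousAt (fun s' => |rmp (x s' / 32) * τ s' - rmp (x s / 32) * τ s|) s :=
      (((BR.U.rmp_cont.comp (hxc.div_const 32)).mul hτc).continuousAt.sub continuousAt_const).abs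
    have n1 : ∀ᶠ s' in 𝓝 s, |τ s' - τ s| < 1 / 2 := by
      refine c1.eventually_lt continuousAt_const ?_
      rw [sub_self, abs_zero]
      norm_num
    have n2 : ∀ᶠ s' in 𝓝 s, |rmp (x s' / 32) * τ s' - rmp (x s / 32) * τ s| < 1 / 2 := by
      refine c2'.eventually_lt continuousAt_const ?_
      rw [sub_self, abs_zero]
      norm_num
    filter_upwards [n1, n2] with s' m1 m2
    have hl : (loc P Q v).lam = Q.lam v := rfl
    constructor
    · rw [TP.Tau_flat (loc P Q v) (hgf s) (hgf s') (by rw [hgθ, hgθ]) (hgt s) (hgt s') m1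
        (by rw [hgu, hgu]; exact m2), hgu, hgu, hl, ← hBd, ← hBd, hτB, hτB, sub_self]
    · rw [TP.Tau_flat (loc P Q v) (hgf s') (hgf s) (by rw [hgθ, hgθ]) (hgt s') (hgt s)
        (by rw [abs_sub_comm]; exact m1) (by rw [hgu, hgu, abs_sub_comm]; exact m2), hgu, hgu, hl,
        ← hBd, ← hBd, hτB, hτB, sub_self]
  -- the path in the manifold
  obtain ⟨Γ, hΓ⟩ : ∃ Γ : unitInterval → M, ∀ s, G.p (Γ s) = G.Mt.p (P.ν v (ga s).1, (ga s).2) := by
    have h3 : ∀ s, ∃ n : M, G.p n = G.Mt.p (P.ν v (ga s).1, (ga s).2) := by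
      intro s
      refine mem_inn G v (z := ga s) ?_ ?_
      · have h4 := hgY s
        rw [hg] at h4
        exact h4
      · rw [hga]
        exact httb s
    choose Γ hΓ using h3
    exact ⟨Γ, hΓ⟩
  have hΓc : Continuous Γ := by
    rw [G.emb.isInducing.continuous_iff]
    refine (G.Mt.p_loc.continuous.comp (((P.emb v).continuous.comp hgac.fst).prodMk hgac.snd)).congr
      fun s => (hΓ s).symm
  have key : F.SameLeaf (Γ 0) (Γ 1) := by
    refine F.sameLeaf_of Γ hΓc fun s => ?_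
    obtain ⟨c, hc, hs⟩ := F.cover (Γ s)
    refine ⟨c, hc, hs, ?_⟩
    refine TauC_loc hF v hgac hΓ ?_ ?_ ?_ ?_ hc s hs
    · intro r
      rw [hga]
      show |x r| < 12
      linarith [hx3 r]
    · intro r
      have h4 := hgY r
      rw [hg] at h4
      exact h4
    · rcases hcase with h | h
      · left
        intro r
        rw [hga]
        exact h r
      · right
        intro r
        rw [hga]
        exact h r
    · intro r
      filter_upwards [hD r] with r' hr'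
      rw [hg, hg] at hr'
      exact hr'
  have hΓ0 : Γ 0 = m := by
    apply G.emb.injective
    rw [hΓ, hm, hga]
    have h3 : x 0 = u₀ := by
      rw [hx]
      change u₀ + (0 : ℝ) * _ = u₀
      ring
    have h4 : τ 0 = τ₀ := by
      have h5 := hτB 0
      rw [h3] at h5
      exact mul_left_cancel₀ (hBp u₀).ne' h5
    rw [h3, htt, h4, hu₀, ← hτ₀]
  refine ⟨Γ 1, tt 1, ?_, ?_, ?_⟩
  · rw [hΓ0] at key
    exact key
  · rcases hcase with h | h
    · exact Or.inl (h 1)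
    · exact Or.inr (h 1)
  · rw [hΓ, hga]
    have h3 : x 1 = u₁ := by
      rw [hx]
      change u₀ + (1 : ℝ) * (u₁ - u₀) = u₁
      ring
    rw [h3]

include hF in
/-- **Leaf paths in the annuli** from `|u| ≤ 2` to `|u| = 3`, outside of the square (see `TP.Tau_path`, `TP.push_inn`: the path is
`θ = const`, `(1 + (lam - 1) rmp (u / 32)) τ = const`, where `τ = t + 1/2` for `t ≤ 0`, and `τ = t - 1/2` for `t > 0`;
`|τ|` does not increase along the path, so the path stays in the times `0 < t ≤ 1/2`, or `-1/2 < t ≤ 0`. If `t = 1/2`, then `τ = 0` along the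
path, and one uses `germ_half_inn` at the points where `Idn phi`, and `germ_half` at the others; for `|t| < 1/2` one uses `germ_inn`.) -/
theorem push_inn (v : I) {z : Ci × ℝ} {t : ℝ} (ht : |t| < 1 / 2 ∨ t = 1 / 2) {m : M}
    (hm : G.p m = G.Mt.p (P.ν v z, t)) (hu : |z.2| ≤ 2) (hQ : |z.2| = 2 ∨ 1 / 16 ≤ |t|) :
    ∃ (m' : M) (u' t' : ℝ), F.SameLeaf m m' ∧ |u'| = 3 ∧ (|t'| < 1 / 2 ∨ t' = 1 / 2) ∧
      G.p m' = G.Mt.p (P.ν v (z.1, u'), t') := by
  have h3 : |(3 : ℝ)| = 3 := abs_of_pos (by norm_num)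
  have h3' : |(-3 : ℝ)| = 3 := by rw [abs_neg]; exact h3
  have hxx := abs_le.1 hu
  have fin : ∀ u₁ : ℝ, |u₁| = 3 → (∀ u ∈ uIcc z.2 u₁, 1 + (Q.lam v - 1) * rmp (z.2 / 32) ≤
      1 + (Q.lam v - 1) * rmp (u / 32)) → ((∀ u ∈ uIcc z.2 u₁, 2 ≤ |u|) ∨ 1 / 16 ≤ |t|) →
      ∃ (m' : M) (u' t' : ℝ), F.SameLeaf m m' ∧ |u'| = 3 ∧ (|t'| < 1 / 2 ∨ t' = 1 / 2) ∧
      G.p m' = G.Mt.p (P.ν v (z.1, u'), t') := by
    intro u₁ hu1 hB hfar
    obtain ⟨m', t', h4, h5, h6⟩ := TauC_path hF v ht hm u₁ (by linarith) hu1 hB hfar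
    exact ⟨m', u₁, t', h4, hu1, h5, h6⟩
  rcases le_or_gt 1 z.2 with a | a
  · refine fin 3 h3 ?_ ?_
    · intro u hu
      rw [uIcc_of_le (by linarith [hxx.2])] at hu
      rw [BR.U.rmp_right (by linarith), BR.U.rmp_right (by linarith [hu.1])]
    · rcases hQ with hQ | hQ
      · left
        intro u hu
        rw [uIcc_of_le (by linarith [hxx.2])] at hu
        rw [abs_of_pos (by linarith)] at hQ
        rw [abs_of_pos (by linarith [hu.1])]
        linarith [hu.1]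
      · exact Or.inr hQ
  rcases le_or_gt z.2 (-1) with b | b
  · refine fin (-3) h3' ?_ ?_
    · intro u hu
      rw [uIcc_of_ge (by linarith [hxx.1])] at hu
      rw [BR.U.rmp_left (by linarith), BR.U.rmp_left (by linarith [hu.2])]
    · rcases hQ with hQ | hQ
      · left
        intro u hu
        rw [uIcc_of_ge (by linarith [hxx.1])] at hu
        rw [abs_of_neg (by linarith)] at hQ
        rw [abs_of_neg (by linarith [hu.2])]
        linarith [hu.2]
      · exact Or.inr hQ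
  have hab : |z.2| < 1 := abs_lt.2 ⟨b, a⟩
  have hQ' : 1 / 16 ≤ |t| := by
    rcases hQ with hQ | hQ
    · linarith
    · exact hQ
  rcases le_total 1 (Q.lam v) with hl | hl
  · refine fin 3 h3 ?_ (Or.inr hQ')
    intro u hu
    rw [uIcc_of_le (by linarith)] at hu
    have h4 : rmp (z.2 / 32) ≤ rmp (u / 32) := BR.U.rmp_mono (by linarith [hu.1])
    nlinarith [mul_nonneg (sub_nonneg.2 hl) (sub_nonneg.2 h4)]
  · refine fin (-3) h3' ?_ (Or.inr hQ')
    intro u hu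
    rw [uIcc_of_ge (by linarith)] at hu
    have h4 : rmp (u / 32) ≤ rmp (z.2 / 32) := BR.U.rmp_mono (by linarith [hu.2])
    nlinarith [mul_nonneg (sub_nonneg.2 hl) (sub_nonneg.2 h4)]

end Pool.Agent.H.MP_1611f1_gt.TQ
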