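import Pool.Agent.H.MP_1611f1_gt.TQ.TauB
import Pool.Agent.H.MP_1611f1_gt.TQ.TauC

/-!
The foliation is taut.
-/

namespace Pool.Agent.H.MP_1611f1_gt.TQ

open Topology Set Filter
open Pool.Agent.H.MP_1611f1_gt.BR.U (Ci cl yt hlf psi cu rmp ang)
open Pool.Agent.H.MP_1611f1_gt.LG (Cylinder solidTorus Drilled)
open Pool.Agent.H.MP_1611f1_gt.TP (Loc Y EE Yr)
open Pool.Agent.H.MP_1611f1_gt.G (Ended MTorus)

variable {S : Type} [TopologicalSpace S] {J I A : Type} [DecidableEq J] [DecidableEq I]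
  [Fintype A] {P : Mul S J I A} {M : Type} [TopologicalSpace M] {T : Ended M (J ⊕ I)}
  [T2Space S] [Finite I] [Finite J] {G : Geo P T} {Q : Par P.cur} {F : Foliation M}
  (hF : Isf G Q F)

include hF in
/-- the circles in the direction of `t` over a fixed point in the outer region -/
private theorem Tau_fix {x : S} (hx : x ∈ So P) (hp : G.phi x = x) {t : ℝ} {m m' : M}
    (hs : F.SameLeaf m m') (hm : G.p m' = G.Mt.p (x, t)) :
    ∃ l : ℝ → M, ∃ s : ℝ, F.ClosedTransversal l ∧ F.SameLeaf m (l s) := by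
  choose l hl using fun s : ℝ => mem_fix G hx hp s
  refine ⟨l, t, circ_out hF hx hp hl, ?_⟩
  have h : l t = m' := G.emb.injective ((hl t).trans hm.symm)
  rw [h]
  exact hs

include hF in
/-- a point over the outer region, at the time `|t| < 1/2` or `t = 1/2`, is in a leaf which meets a closed transversal (if
`phi x = x`: `circ_out`; otherwise `x` is flat (`G.idn`), so `x ∈ Fr P` and `GG x = 0` (`GG_flat`), and `path_fr`,
`circ_out` at the point of the collar) -/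
theorem taut_out (hr : ∀ x ∈ Fr P, ∃ j z, JoinedIn (Fr P) x (P.E.collar j z)) {x : S} (hx : x ∈ So P) {t : ℝ}
    (ht : |t| < 1 / 2 ∨ t = 1 / 2) {m : M} (hm : G.p m = G.Mt.p (x, t)) :
    ∃ l : ℝ → M, ∃ s : ℝ, F.ClosedTransversal l ∧ F.SameLeaf m (l s) := by
  by_cases hp : G.phi x = x
  · exact Tau_fix hF hx hp (Foliation.SameLeaf.refl F m) hm
  · have hfl : Flat P x := by
      rcases G.idn x with h | h
      · exact absurd (Filter.Eventually.self_of_nhds h) hp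
      · exact h
    have hxF : x ∈ Fr P := ⟨hx, Filter.Eventually.self_of_nhds hfl.1⟩
    obtain ⟨j, z, hj⟩ := hr x hxF
    have hG1 : ∀ᶠ x' in 𝓝 x, GG P Q x' = 0 := GG_flat P Q hfl.2
    have hG0 : GG P Q x = 0 := hG1.self_of_nhds
    obtain ⟨m', t', hs, hm'⟩ := path_fr hF hj hG0 ht hm j z rfl
    exact Tau_fix hF (fun v z' h => absurd h (P.out v z' j z)) (G.fix_collar j z) hs hm'

omit [DecidableEq I] [Fintype A] [T2Space S] [Finite I] [Finite J] in
/-- every point of `M` is over a point of the slab `-1/2 < t ≤ 1/2` -/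
private theorem Tau_slab (G : Geo P T) (m : M) :
    ∃ (x : S) (t : ℝ), -1 / 2 < t ∧ t ≤ 1 / 2 ∧ G.p m = G.Mt.p (x, t) := by
  obtain ⟨⟨x, s⟩, hs⟩ := G.Mt.p_surj (G.p m)
  have h1 := Int.ceil_lt_add_one (s - 1 / 2)
  have h2 := Int.le_ceil (s - 1 / 2)
  refine ⟨(G.phi ^ (-(-⌈s - 1 / 2⌉))) x, s + ((-⌈s - 1 / 2⌉ : ℤ) : ℝ), ?_, ?_, ?_⟩
  · push_cast
    linarith
  · push_cast
    linarith
  · rw [← hs, G.Mt.p_eq]
    refine ⟨-⌈s - 1 / 2⌉, rfl, ?_⟩
    rw [← Homeomorph.mul_apply, ← zpow_add]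
    simp

include hF in
/-- **Tautness** (`G.Mt.p_surj`, shift the time to `-1/2 < t ≤ 1/2`; then `taut_out`, or `circ_inn`, or `push_inn` and
`taut_out`) -/
theorem taut (hr : ∀ x ∈ Fr P, ∃ j z, JoinedIn (Fr P) x (P.E.collar j z)) : F.Taut := by
  intro m
  obtain ⟨x, t, ht1, ht2, hm⟩ := Tau_slab G m
  have ht : |t| < 1 / 2 ∨ t = 1 / 2 := by
    rcases eq_or_lt_of_le ht2 with h | h
    · exact Or.inr h
    · exact Or.inl (abs_lt.2 ⟨by linarith, h⟩)
  by_cases hx : x ∈ So P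
  · exact taut_out hF hr hx ht hm
  obtain ⟨v, z, rfl, hu⟩ : ∃ v z, P.ν v z = x ∧ |z.2| ≤ 2 := by
    by_contra h3
    push Not at h3
    exact hx h3
  by_cases h3 : |z.2| < 2 ∧ |t| < 1 / 16
  · have ho : 1 / 1024 < (z.2 / 32) ^ 2 + t ^ 2 := by
      by_contra h4
      push Not at h4
      have h5 := (G.range_iff (G.p m)).1 (mem_range_self m) v
      refine h5 ⟨(z.1, (z.2, 32 * t - 4)), ?_, ?_⟩
      · show z.2 ^ 2 + (32 * t - 4 + 4) ^ 2 ≤ 1
        have h6 : z.2 ^ 2 + (32 * t - 4 + 4) ^ 2 = 1024 * ((z.2 / 32) ^ 2 + t ^ 2) := by ring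
        rw [h6]
        linarith
      · show G.Mt.p (P.ν v (z.1, z.2), (32 * t - 4 + 4) / 32) = G.p m
        have h6 : (32 * t - 4 + 4) / 32 = t := by ring
        rw [h6, hm]
    obtain ⟨e, he, heq⟩ : ∃ e : ℝ, (e = 1 ∨ e = -1) ∧ 0 < e * Q.qq v := by
      rcases lt_or_gt_of_ne (Q.qq_ne v) with h4 | h4
      · exact ⟨-1, Or.inr rfl, by linarith⟩
      · exact ⟨1, Or.inl rfl, by linarith⟩
    have ht3 := abs_lt.1 h3.2
    have hY : ∀ θ : Ci, ((((θ, z.2), (t : Ci)) : Y)) ∈ Yr := by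
      intro θ
      refine ⟨?_, ?_⟩
      · show |z.2| < 12
        linarith
      · show 1 / 1024 < (z.2 / 32) ^ 2 + cl (t : Ci) ^ 2
        rw [BR.U.cl_coe ⟨by linarith, by linarith⟩]
        exact ho
    choose l hl using fun s : ℝ => mem_inn G v
      (z := ((((e * s : ℝ) : Ci), z.2), t)) (hY _) (by show |t| ≤ 1 / 2; linarith)
    refine ⟨l, e * cl z.1, circ_inn hF v h3.1 h3.2 ho e he heq hl, ?_⟩
    have hee : e * (e * cl z.1) = cl z.1 := by
      rcases he with rfl | rfl <;> ring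
    have h5 : l (e * cl z.1) = m := by
      apply G.emb.injective
      rw [hl, hm]
      show G.Mt.p (P.ν v (((e * (e * cl z.1) : ℝ) : Ci), z.2), t) = G.Mt.p (P.ν v z, t)
      rw [hee, BR.U.coe_cl]
    rw [h5]
    exact Foliation.SameLeaf.refl F m
  · have h4 : |z.2| = 2 ∨ 1 / 16 ≤ |t| := by
      by_contra h5
      push Not at h5
      exact h3 ⟨lt_of_le_of_ne hu h5.1, h5.2⟩
    obtain ⟨m', u', t', hs, hu', ht', hm'⟩ := push_inn hF v ht hm hu h4
    have hx' : P.ν v (z.1, u') ∈ So P := by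
      intro v' w hw
      obtain rfl := P.disj _ _ _ _ hw
      have h8 := (P.emb _).injective hw
      rw [h8]
      show 2 < |u'|
      rw [hu']
      norm_num
    obtain ⟨l, s, hl, hls⟩ := taut_out hF hr hx' ht' hm'
    exact ⟨l, s, hl, Foliation.SameLeaf.trans F hs hls⟩

end Pool.Agent.H.MP_1611f1_gt.TQ
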