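import Pool.Agent.H.MP_1611f1_gt.TQ.End
import Pool.Agent.H.MP_1611f1_gt.TP.Tau

/-!
The foliation is taut: closed transversals.
-/

namespace Pool.Agent.H.MP_1611f1_gt.TQ

open Topology Set Filter
open Pool.Agent.H.MP_1611f1_gt.BR.U (Ci cl yt hlf psi cu rmp ang)
open Pool.Agent.H.MP_1611f1_gt.LG (Cylinder solidTorus Drilled)
open Pool.Agent.H.MP_1611f1_gt.TP (Loc Y EE Yr)
open Pool.Agent.H.MP_1611f1_gt.G (Ended MTorus)

variable {S : Type} [TopologicalSpace S] {J I A : Type} [DecidableEq J] [DecidableEq I]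
  [Fintype A] {P : Mul S J I A} {M : Type} [TopologicalSpace M] {T : Ended M (J ⊕ I)}

/-- the part of the outer region outside of the strips -/
def Fr (P : Mul S J I A) : Set S := {x | x ∈ So P ∧ ∀ a, P.kap a x = 0}

theorem TauA_tube {z : Cylinder} (hz : z ∈ solidTorus) : ¬ 2 < |z.2.1| := by
  intro h
  have h3 : z.2.1 ^ 2 + (z.2.2 + 4) ^ 2 ≤ 1 := hz
  have h4 : (2 : ℝ) ^ 2 < |z.2.1| ^ 2 := by gcongr
  rw [sq_abs] at h4
  nlinarith [sq_nonneg (z.2.2 + 4)]

theorem TauA_time {z : Cylinder} (hz : z ∈ solidTorus) : |(z.2.2 + 4) / 32| ≤ 1 / 32 := by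
  have h3 : z.2.1 ^ 2 + (z.2.2 + 4) ^ 2 ≤ 1 := hz
  rw [abs_le]
  constructor <;> nlinarith [sq_nonneg z.2.1]

theorem TauA_zero {t t' : ℝ} (ht : |t| ≤ 1 / 2) (ht' : |t'| ≤ 1 / 32) {k : ℤ} (h : t = t' + k) : k = 0 := by
  have h1 := abs_le.1 ht
  have h2 := abs_le.1 ht'
  have h3 : (k : ℝ) < 1 := by linarith [h1.2, h2.1]
  have h4 : (-1 : ℝ) < k := by linarith [h1.1, h2.2]
  have h3' : k < 1 := by exact_mod_cast h3
  have h4' : -1 < k := by exact_mod_cast h4
  omega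

/-- the points over the outer region are in `M` (`G.range_iff`: the tubes are in `|u| ≤ 1`; if
`Mt.p (x, t) = Mt.p (ν v z, t')` with `|t'| ≤ 1 / 32`, then ... ; here for `phi x = x`, so that the point `ν v z` of
the orbit is `x` itself) -/
theorem mem_fix (G : Geo P T) {x : S} (hx : x ∈ So P) (hp : G.phi x = x) (t : ℝ) : G.Mt.p (x, t) ∈ range G.p := by
  rw [G.range_iff]
  rintro v ⟨z, hz, hzx⟩
  obtain ⟨k, -, hk⟩ := (G.Mt.p_eq _ _ _ _).1 hzx
  rw [Germ_zpow hp k] at hk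
  exact TauA_tube hz (hx v _ hk)

/-- the points over the outer region at the times `|t| < 1` are in `M` when ... : for `-1/2 ≤ t ≤ 1/2` (a
point `(ν v z, t')` with the same image and `|t'| ≤ 1 / 32` is `(x, t)` itself, because `|t - t'| < 1`) -/
theorem mem_out (G : Geo P T) {x : S} (hx : x ∈ So P) {t : ℝ} (ht : |t| ≤ 1 / 2) : G.Mt.p (x, t) ∈ range G.p := by
  rw [G.range_iff]
  rintro v ⟨z, hz, hzx⟩
  obtain ⟨k, hkt, hk⟩ := (G.Mt.p_eq _ _ _ _).1 hzx
  obtain rfl := TauA_zero ht (TauA_time hz) hkt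
  rw [zpow_zero] at hk
  exact TauA_tube hz (hx v _ hk)

/-- the points of the local models at the times `|t| ≤ 1/2` are in `M` -/
theorem mem_inn (G : Geo P T) (v : I) {z : (Ci × ℝ) × ℝ} (hz : ((z.1, (z.2 : Ci)) : Y) ∈ Yr) (ht : |z.2| ≤ 1 / 2) :
    G.Mt.p (P.ν v z.1, z.2) ∈ range G.p := by
  rw [G.range_iff]
  rintro v' ⟨w, hw, hwx⟩
  obtain ⟨k, hkt, hk⟩ := (G.Mt.p_eq _ _ _ _).1 hwx
  obtain rfl := TauA_zero ht (TauA_time hw) hkt
  rw [zpow_zero] at hk
  have hk' : P.ν v' (w.1, w.2.1) = P.ν v z.1 := hk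
  obtain rfl := P.disj _ _ _ _ hk'
  have h3 : (w.1, w.2.1) = z.1 := (P.emb _).injective hk'
  have h4 : w.2.1 = z.1.2 := congrArg Prod.snd h3
  have h5 : w.2.1 ^ 2 + (w.2.2 + 4) ^ 2 ≤ 1 := hw
  have h6 : z.2 = (w.2.2 + 4) / 32 := by
    rw [Int.cast_zero, add_zero] at hkt
    exact hkt
  have h7 := abs_le.1 (TauA_time hw)
  have h8 : cl (z.2 : Ci) = (w.2.2 + 4) / 32 := by
    rw [h6]
    exact BR.U.cl_coe ⟨by linarith [h7.1], by linarith [h7.2]⟩
  have h9 : 1 / 1024 < (z.1.2 / 32) ^ 2 + cl (z.2 : Ci) ^ 2 := hz.2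
  rw [h8, ← h4] at h9
  have h10 : (w.2.1 / 32) ^ 2 + ((w.2.2 + 4) / 32) ^ 2 = (w.2.1 ^ 2 + (w.2.2 + 4) ^ 2) / 1024 := by
    ring
  rw [h10] at h9
  linarith

/-- a curve `(x, r)` near a time in a germ -/
theorem TauA_mono {G : Geo P T} {c : OpenPartialHomeomorph M ((ℝ × ℝ) × ℝ)} {x : S} {s : ℝ} {k : ℤ} {l : ℝ → M}
    (hl : ∀ r, G.p (l r) = G.Mt.p (x, r - k)) {R : S × ℝ → S × ℝ → Prop}
    (h : ∃ V ∈ 𝓝 ((x, s - k) : S × ℝ), ∀ z ∈ V, ∀ z' ∈ V, ∀ n n' : M, G.p n = G.Mt.p z →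
      G.p n' = G.Mt.p z' → ((c n).2 < (c n').2 ↔ R z z'))
    (hR : ∀ a b : ℝ, a < b → b - a < 1 / 2 → R (x, a) (x, b)) :
    ∃ ε > 0, StrictMonoOn (fun s' => (c (l s')).2) (Ioo (s - ε) (s + ε)) := by
  obtain ⟨V, hV, hcmp⟩ := h
  have hk : Continuous (fun r : ℝ => ((x, r - k) : S × ℝ)) :=
    continuous_const.prodMk (continuous_id.sub continuous_const)
  obtain ⟨ε, hε, hin⟩ := TP.Tau_ball hk (s := s) hV
  refine ⟨min ε (1 / 4), lt_min hε (by norm_num), ?_⟩
  have i1 := min_le_left ε (1 / 4)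
  have i2 := min_le_right ε (1 / 4)
  intro a ha b hb hab
  have ha1 := ha.1
  have hb1 := hb.2
  have h1 := hin a ⟨by linarith [ha.1], by linarith [ha.2]⟩
  have h2 := hin b ⟨by linarith [hb.1], by linarith [hb.2]⟩
  refine (hcmp _ h1 _ h2 _ _ (hl a) (hl b)).2 (hR _ _ (by linarith) (by linarith))

variable [T2Space S] [Finite I] [Finite J] {G : Geo P T} {Q : Par P.cur} {F : Foliation M}
  (hF : Isf G Q F)

include hF in
/-- **the circles in the direction of `t`** over the fixed points of `phi` in the outer region are closed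
transversals. (At the time `s`, put `s = k + s'` with an integer `k` and `-1/2 < s' ≤ 1/2`; `Mt.p (x', s) = Mt.p
((phi ^ k) x', s')`; use the point `(x, s')`, which has the same image, and `l (s' + r) `: near `s` the curve is `G.p (l (s + r)) = Mt.p (x, s' + r)`.
For `|s'| < 1/2`: `germ_out`, `DD_t`. For `s' = 1/2`: if `Idn phi x`, `germ_idn`, `DD_t`; otherwise `germ_half`, `fC_mono`.) -/
theorem circ_out {x : S} (hx : x ∈ So P) (hp : G.phi x = x) {l : ℝ → M} (hl : ∀ s, G.p (l s) = G.Mt.p (x, s)) :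
    F.ClosedTransversal l := by
  have hsh : ∀ (k : ℤ) (r : ℝ), G.p (l r) = G.Mt.p (x, r - k) := by
    intro k r
    rw [hl r]
    exact ((G.Mt.p_eq _ _ _ _).2 ⟨k, by ring, (Germ_zpow hp k).symm⟩).symm
  refine ⟨?_, fun s => ?_, fun s c hc hs => ?_⟩
  · rw [G.emb.isEmbedding.continuous_iff]
    have h1 : G.p ∘ l = fun s => G.Mt.p (x, s) := funext hl
    rw [h1]
    exact G.Mt.p_loc.continuous.comp (continuous_const.prodMk continuous_id)
  · apply G.emb.injective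
    rw [hsh 1 (s + 1), hl s]
    congr 2
    push_cast
    ring
  · obtain ⟨k, hk⟩ : ∃ k : ℤ, k = ⌈s - 1 / 2⌉ := ⟨_, rfl⟩
    have h1 : s - 1 / 2 ≤ (k : ℝ) := by rw [hk]; exact Int.le_ceil _
    have h2 : (k : ℝ) < s - 1 / 2 + 1 := by rw [hk]; exact Int.ceil_lt_add_one _
    have hDD : ∀ a b : ℝ, a < b → b - a < 1 / 2 → 0 < DD P Q (pt ((x, a) : S × ℝ)) (pt ((x, b) : S × ℝ)) := by
      intro a b hab hab'
      have h3 : DD P Q (pt ((x, a) : S × ℝ)) (pt ((x, b) : S × ℝ)) = b - a := by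
        refine DD_t P Q (by rw [abs_of_pos (by linarith)]; exact hab') rfl ?_
        show (b : Ci) = (a : Ci) + ((b - a : ℝ) : Ci)
        rw [AddCircle.coe_sub]
        abel
      rw [h3]
      linarith
    by_cases h3 : s - k < 1 / 2
    · refine TauA_mono (hsh k) (germ_out hF hc hs (hsh k s) ?_ hx) hDD
      show |s - k| < 1 / 2
      rw [abs_lt]
      constructor <;> linarith
    · by_cases hi : Idn G.phi x
      · exact TauA_mono (hsh k) (germ_idn hF hc hs (hsh k s) hi hx) hDD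
      · have h4 : s - k = 1 / 2 := by linarith
        have h5 := hsh k s
        rw [h4] at h5
        obtain ⟨i, j, h6⟩ := germ_half hF hc hs h5 hi
        rw [← h4] at h6
        exact TauA_mono (hsh k) h6 fun a b hab _ => fC_mono P Q i j x hab

include hF in
/-- **the circles in the direction of `θ` in the squares** are closed transversals, in the direction of the sign of
`Q.qq v` (`germ_inn`, `TP.EE_theta`; see `TP.circ_inn`) -/
theorem circ_inn (v : I) {u t : ℝ} (hu : |u| < 2) (ht : |t| < 1 / 16) (ho : 1 / 1024 < (u / 32) ^ 2 + t ^ 2)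
    (e : ℝ) (he : e = 1 ∨ e = -1) (heq : 0 < e * Q.qq v) {l : ℝ → M}
    (hl : ∀ s : ℝ, G.p (l s) = G.Mt.p (P.ν v (((e * s : ℝ) : Ci), u), t)) :
    F.ClosedTransversal l := by
  have hee : ((e : ℝ) : Ci) = 0 := by
    rcases he with rfl | rfl
    · exact TP.Tau_one
    · rw [AddCircle.coe_neg, TP.Tau_one, neg_zero]
  have hk : Continuous (fun s : ℝ => ((((e * s : ℝ) : Ci), u), t) : ℝ → (Ci × ℝ) × ℝ) :=
    (((AddCircle.continuous_mk' (1 : ℝ)).comp (continuous_const.mul continuous_id)).prodMk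
      continuous_const).prodMk continuous_const
  have ht2 := abs_lt.1 ht
  have hcl : cl (t : Ci) = t := BR.U.cl_coe ⟨by linarith [ht2.1], by linarith [ht2.2]⟩
  have hYr : ∀ θ : Ci, (((θ, u), (t : Ci)) : Y) ∈ Yr := by
    intro θ
    refine ⟨?_, ?_⟩
    · show |u| < 12
      linarith
    · show 1 / 1024 < (u / 32) ^ 2 + cl (t : Ci) ^ 2
      rw [hcl]
      exact ho
  refine ⟨?_, fun s => ?_, fun s c hc hs => ?_⟩
  · rw [G.emb.isEmbedding.continuous_iff]
    have h1 : G.p ∘ l = fun s => G.Mt.p (P.ν v (((e * s : ℝ) : Ci), u), t) := funext hl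
    rw [h1]
    exact G.Mt.p_loc.continuous.comp (((P.emb v).continuous.comp
      (continuous_fst.comp hk)).prodMk continuous_const)
  · apply G.emb.injective
    rw [hl, hl, mul_add, mul_one, AddCircle.coe_add, hee, add_zero]
  · obtain ⟨V, hV, hcmp⟩ := germ_inn hF hc hs v (w := ((((e * s : ℝ) : Ci), u), t)) (hl s)
      (by show |t| < 1 / 2; linarith) (hYr _)
    obtain ⟨N, hN, hzN, -, hNN, -⟩ := TP.EE_near (loc P Q v) (hYr ((e * s : ℝ) : Ci))
    have hy : Continuous fun z : (Ci × ℝ) × ℝ => ((z.1, (z.2 : Ci)) : Y) :=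
      continuous_fst.prodMk ((AddCircle.continuous_mk' (1 : ℝ)).comp continuous_snd)
    have hN' : (fun z : (Ci × ℝ) × ℝ => ((z.1, (z.2 : Ci)) : Y)) ⁻¹' N ∈
        𝓝 (((((e * s : ℝ) : Ci), u), t) : (Ci × ℝ) × ℝ) :=
      hy.continuousAt (hN.mem_nhds hzN)
    obtain ⟨ε, hε, hin⟩ := TP.Tau_ball hk (s := s) (inter_mem hV hN')
    refine ⟨min ε (1 / 16), lt_min hε (by norm_num), ?_⟩
    have i1 := min_le_left ε (1 / 16)
    have i2 := min_le_right ε (1 / 16)
    intro a ha b hb hab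
    have hb1 := hb.2
    have ha1 := ha.1
    obtain ⟨h1, n1⟩ := hin a ⟨by linarith [ha.1], by linarith [ha.2]⟩
    obtain ⟨h2, n2⟩ := hin b ⟨by linarith [hb.1], by linarith [hb.2]⟩
    refine (hcmp _ h1 _ h2 _ _ (hl a) (hl b)).2 ?_
    have hq : (loc P Q v).q = Q.qq v := rfl
    have hcl' : |cl (t : Ci)| < 1 / 16 := by rw [hcl]; exact ht
    show 0 < EE (loc P Q v) ((((e * a : ℝ) : Ci), u), (t : Ci)) ((((e * b : ℝ) : Ci), u), (t : Ci))
    rcases he with rfl | rfl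
    · have h3 := TP.EE_theta (loc P Q v) (z := ((((1 * a : ℝ) : Ci), u), (t : Ci)))
        (z' := ((((1 * b : ℝ) : Ci), u), (t : Ci))) (δ := b - a) (by linarith) (by linarith) hu hcl' rfl rfl ?_
      · rw [hq] at h3
        rw [one_mul] at heq
        exact (mul_pos_iff_of_pos_left heq).1 h3
      · show ((1 * b : ℝ) : Ci) = ((1 * a : ℝ) : Ci) + ((b - a : ℝ) : Ci)
        rw [← AddCircle.coe_add]
        congr 1
        ring
    · have h3 := TP.EE_theta (loc P Q v) (z := ((((-1 * b : ℝ) : Ci), u), (t : Ci)))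
        (z' := ((((-1 * a : ℝ) : Ci), u), (t : Ci))) (δ := b - a) (by linarith) (by linarith) hu hcl' rfl rfl ?_
      · rw [hq] at h3
        have h4 := hNN _ n1 _ n2
        have h5 := hNN _ n2 _ n1
        have h6 : Q.qq v < 0 := by linarith
        rw [h4]
        rw [h5] at h3
        nlinarith
      · show ((-1 * a : ℝ) : Ci) = ((-1 * b : ℝ) : Ci) + ((b - a : ℝ) : Ci)
        rw [← AddCircle.coe_add]
        congr 1
        ring

end Pool.Agent.H.MP_1611f1_gt.TQ
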