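import Pool.Agent.H.MP_1611f1_gt.TQ.TauA

/-!
Leaf paths outside of the strips.
-/

namespace Pool.Agent.H.MP_1611f1_gt.TQ

open Topology Set Filter
open Pool.Agent.H.MP_1611f1_gt.BR.U (Ci cl yt hlf psi cu rmp ang)
open Pool.Agent.H.MP_1611f1_gt.LG (Cylinder solidTorus Drilled)
open Pool.Agent.H.MP_1611f1_gt.TP (Loc Y EE Yr)
open Pool.Agent.H.MP_1611f1_gt.G (Ended MTorus)

variable {S : Type} [TopologicalSpace S] {J I A : Type} [DecidableEq J] [DecidableEq I]
  [Fintype A] {P : Mul S J I A} {M : Type} [TopologicalSpace M] {T : Ended M (J ⊕ I)}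
  [T2Space S] [Finite I] [Finite J] {G : Geo P T} {Q : Par P.cur} {F : Foliation M}
  (hF : Isf G Q F)

omit [DecidableEq I] [T2Space S] [Finite I] [Finite J] in
theorem TauB_DD (Q : Par P.cur) {z z' : S × ℝ} (hz : z.1 ∈ Fr P) (hz' : z'.1 ∈ Fr P) (ht : |z'.2 - z.2| < 1 / 2)
    (h : z'.2 + GG P Q z'.1 = z.2 + GG P Q z.1) : DD P Q (pt z) (pt z') = 0 := by
  have hh : ∀ y ∈ Fr P, ∀ a, P.half a y = 0 := by
    intro y hy a
    rcases P.half_or a y with h1 | h1
    · exact h1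
    · rw [h1]
      exact hy.2 a
  have h1 := abs_lt.1 ht
  have e1 : cl ((z'.2 : Ci) - (z.2 : Ci)) = z'.2 - z.2 := by
    rw [← AddCircle.coe_sub]
    exact BR.U.cl_coe ⟨by linarith [h1.1], h1.2⟩
  have e2 : ∀ a, Q.q a * cl (P.kap a z'.1 - P.kap a z.1) +
      Q.q a * (1 / Q.lam (P.cur a) - 1) * cl (P.half a z'.1 - P.half a z.1) = 0 := by
    intro a
    rw [hz.2 a, hz'.2 a, hh _ hz a, hh _ hz' a, sub_self, BR.U.cl_zero]
    ring
  have e3 : DD P Q (pt z) (pt z') = cl ((z'.2 : Ci) - (z.2 : Ci)) +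
      ∑ a, (Q.q a * cl (P.kap a z'.1 - P.kap a z.1) +
        Q.q a * (1 / Q.lam (P.cur a) - 1) * cl (P.half a z'.1 - P.half a z.1)) +
      (GG P Q z'.1 - GG P Q z.1) := rfl
  rw [e3, e1, Finset.sum_congr rfl fun a _ => e2 a, Finset.sum_const_zero]
  linarith

include hF in
/-- **Leaf paths outside of the strips** to a collar: `γ` is a path in `Fr P`, the time is `t₀ - (GG (γ s) - GG x)`. In the
collars `phi` is the identity (`germ_idn`); at the points which are not in a collar `GG = 0` (`GG_zero`), so the time is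
`t₀` if `GG x = 0`; use `germ_out` for `|t₀| < 1/2`, and for `t₀ = 1/2` `germ_idn` or `germ_half` (`fC = 0`). The
difference `DD` is `t' - t + (GG' - GG)`, because `kap a = half a = 0` on `Fr P` (`half_or`). Here the points of `M` are obtained from
`mem_out`, `mem_fix`, and the path in `M` from the embedding `G.p`. Use `Foliation.sameLeaf_of`. -/
theorem path_fr {x x' : S} (h : JoinedIn (Fr P) x x') (hx : GG P Q x = 0) {t₀ : ℝ}
    (ht : |t₀| < 1 / 2 ∨ t₀ = 1 / 2) {m : M} (hm : G.p m = G.Mt.p (x, t₀)) (j : J) (z : Ci × Ioo (1 : ℝ) 2)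
    (hz : x' = P.E.collar j z) :
    ∃ (m' : M) (t' : ℝ), F.SameLeaf m m' ∧ G.p m' = G.Mt.p (x', t') := by
  obtain ⟨γ, hγ⟩ : ∃ γ : Path x x', ∀ s, γ s ∈ Fr P := ⟨h.somePath, h.somePath_mem⟩
  obtain ⟨τ, hτ⟩ : ∃ τ : unitInterval → ℝ, ∀ s, τ s = t₀ - GG P Q (γ s) := ⟨_, fun _ => rfl⟩
  have hτc : Continuous τ := by
    have h3 : τ = fun s : unitInterval => t₀ - GG P Q (γ s) := funext hτ
    rw [h3]
    exact continuous_const.sub ((GG_cont P Q).comp γ.continuous)
  have hout : ∀ s, (∀ j z, P.E.collar j z ≠ γ s) → τ s = t₀ := by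
    intro s hs
    rw [hτ, GG_zero P Q fun j w hw => hs j w hw.symm, sub_zero]
  have hmem : ∀ s, G.Mt.p (γ s, τ s) ∈ range G.p := by
    intro s
    by_cases hc : ∃ j z, P.E.collar j z = γ s
    · obtain ⟨j, z, hz⟩ := hc
      refine mem_fix G (hγ s).1 ?_ _
      rw [← hz]
      exact G.fix_collar j z
    · rw [hout s fun j z hz => hc ⟨j, z, hz⟩]
      refine mem_out G (hγ s).1 ?_
      rcases ht with ht | ht
      · exact ht.le
      · rw [ht, abs_of_pos (by norm_num)]
  choose g hg using hmem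
  have hk : Continuous fun s => ((γ s, τ s) : S × ℝ) := γ.continuous.prodMk hτc
  have hgc : Continuous g := by
    rw [G.emb.isInducing.continuous_iff]
    have h3 : G.p ∘ g = fun s => G.Mt.p (γ s, τ s) := funext hg
    rw [h3]
    exact G.Mt.p_loc.continuous.comp hk
  have key : F.SameLeaf (g 0) (g 1) := by
    refine F.sameLeaf_of g hgc fun s => ?_
    obtain ⟨c, hc, hs⟩ := F.cover (g s)
    refine ⟨c, hc, hs, ?_⟩
    have hDD : (∃ V ∈ 𝓝 ((γ s, τ s) : S × ℝ), ∀ z ∈ V, ∀ z' ∈ V, ∀ n n' : M, G.p n = G.Mt.p z →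
        G.p n' = G.Mt.p z' → ((c n).2 < (c n').2 ↔ 0 < DD P Q (pt z) (pt z'))) →
        ∀ᶠ s' in 𝓝 s, (c (g s')).2 = (c (g s)).2 := by
      rintro ⟨V, hV, hVc⟩
      have n1 : ∀ᶠ s' in 𝓝 s, |τ s' - τ s| < 1 / 2 := by
        have c1 : ContinuousAt (fun s' => |τ s' - τ s|) s := (hτc.continuousAt.sub continuousAt_const).abs
        refine c1.eventually_lt continuousAt_const ?_
        rw [sub_self, abs_zero]
        norm_num
      filter_upwards [hk.continuousAt (x := s) hV, n1] with s' h1' h2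
      have h1 : ((γ s', τ s') : S × ℝ) ∈ V := h1'
      have h3 := hVc _ h1 _ (mem_of_mem_nhds hV) _ _ (hg s') (hg s)
      have h4 := hVc _ (mem_of_mem_nhds hV) _ h1 _ _ (hg s) (hg s')
      rw [TauB_DD Q (z := (γ s', τ s')) (z' := (γ s, τ s)) (hγ s') (hγ s)
        (by rw [abs_sub_comm]; exact h2) (by show τ s + GG P Q (γ s) = τ s' + GG P Q (γ s'); rw [hτ, hτ]; ring)] at h3
      rw [TauB_DD Q (z := (γ s, τ s)) (z' := (γ s', τ s')) (hγ s) (hγ s') h2
        (by show τ s' + GG P Q (γ s') = τ s + GG P Q (γ s); rw [hτ, hτ]; ring)] at h4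
      have h5 : ¬ (c (g s')).2 < (c (g s)).2 := fun h6 => lt_irrefl _ (h3.1 h6)
      have h6 : ¬ (c (g s)).2 < (c (g s')).2 := fun h6 => lt_irrefl _ (h4.1 h6)
      exact le_antisymm (not_lt.1 h6) (not_lt.1 h5)
    by_cases hi : Idn G.phi (γ s)
    · exact hDD (germ_idn hF hc hs (hg s) hi (hγ s).1)
    · have hn : ∀ j z, P.E.collar j z ≠ γ s := by
        intro j z hz
        apply hi
        rw [← hz]
        exact G.idn_collar j z
      have hτs : τ s = t₀ := hout s hn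
      rcases ht with ht | ht
      · exact hDD (germ_out hF hc hs (hg s) (by show |τ s| < 1 / 2; rw [hτs]; exact ht) (hγ s).1)
      · have hflat : Flat P (γ s) := (G.idn (γ s)).resolve_left hi
        have hGG : ∀ᶠ s' in 𝓝 s, τ s' = 1 / 2 := by
          filter_upwards [(γ.continuous.continuousAt (x := s)).eventually (GG_flat P Q hflat.2)] with s' hs'
          rw [hτ, hs', sub_zero, ht]
        have hw : G.p (g s) = G.Mt.p (γ s, 1 / 2) := by rw [hg, hτs, ht]
        obtain ⟨i, j, V, hV, hVc⟩ := germ_half hF hc hs hw hi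
        have hV' : V ∈ 𝓝 ((γ s, τ s) : S × ℝ) := by
          rw [hτs, ht]
          exact hV
        filter_upwards [hk.continuousAt (x := s) hV', hGG] with s' h1' h2
        have h1 : ((γ s', τ s') : S × ℝ) ∈ V := h1'
        have f0 : ∀ y, fC P Q G.phi i j (y, (1 / 2 : ℝ)) = 0 := by
          intro y
          unfold fC
          rw [if_pos le_rfl]
          ring
        have h3 := hVc _ h1 _ (mem_of_mem_nhds hV') _ _ (hg s') (hg s)
        have h4 := hVc _ (mem_of_mem_nhds hV') _ h1 _ _ (hg s) (hg s')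
        rw [hτs, ht, h2, f0, f0] at h3 h4
        have h5 : ¬ (c (g s')).2 < (c (g s)).2 := fun h6 => lt_irrefl _ (h3.1 h6)
        have h6 : ¬ (c (g s)).2 < (c (g s')).2 := fun h6 => lt_irrefl _ (h4.1 h6)
        exact le_antisymm (not_lt.1 h6) (not_lt.1 h5)
  have hg0 : g 0 = m := by
    apply G.emb.injective
    rw [hg, hm, hτ, γ.source, hx, sub_zero]
  refine ⟨g 1, τ 1, ?_, ?_⟩
  · rw [← hg0]
    exact key
  · rw [hg, γ.target]

end Pool.Agent.H.MP_1611f1_gt.TQ
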